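import Pool.Agent.LefCK.Main

/-!
# The decomposition of a zero locus (auxiliary)
-/

set_option autoImplicit false

open CategoryTheory MonoidalCategory

universe w v u

namespace Pool.Agent.LckM

open Pool.Agent.LefCK

variable {C : Type u} [Category.{v} C] [Preadditive C] [Linear ℚ C]
  [MonoidalCategory C] {F : Type w} [Field F]
  {K : Correspondences C F} {P : Pol C}

/-- the properties of the decomposition `q` of a zero locus -/
structure Adapted (e : LCK K P) (Z : ZeroLocus K P) (q : CK K Z.Y) : Prop where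
  push : ∀ i j : ℤ, i < j → q.p j ≫ Z.push ≫ e.p i = 0
  pull : ∀ i j : ℤ, i < j - 2 * (Z.c : ℤ) → e.p j ≫ Z.pull ≫ q.p i = 0
  lift : ∀ (l r : ℤ), P.n - Z.c < r → ∀ y ∈ CH K Z.Y l, (∀ j < r, y ≫ q.p j = 0) →
    ∃ x ∈ CH K P.X (l + Z.c), x ≫ Z.pull = y ∧ ∀ k < r + 2 * (Z.c : ℤ), x ≫ e.p k = 0

theorem exists_adapted (e : LCK K P) (Z : ZeroLocus K P) : ∃ q : LCK K Z.pol, Adapted e Z q.toCK := by
  classical
  obtain ⟨S⟩ := exists_sys e Z
  obtain ⟨T⟩ := exists_split S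
  refine ⟨T.toLCK, ⟨fun i j h => T.a h, fun i j h => T.b h, ?_⟩⟩
  intro l r hr y hy h0
  have h0' : ∀ j < r, y ≫ T.q j = 0 := h0
  have key : ∀ i : ℤ, ∃ x ∈ CH K P.X (l + Z.c), x ≫ Z.pull = y ≫ T.q i ∧
      ∀ k < r + 2 * (Z.c : ℤ), x ≫ e.p k = 0 := by
    intro i
    rcases lt_or_ge i r with hi | hi
    · refine ⟨0, Submodule.zero_mem _, ?_, fun k _ => Limits.zero_comp⟩
      rw [h0' i hi, Limits.zero_comp]
    · obtain ⟨I, s, hI, hs, hq⟩ := T.fac i (by omega)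
      refine ⟨y ≫ ∑ k ∈ I, s k ≫ S.x k ≫ e.p (k + 2 * (Z.c : ℤ)), ?_, ?_, ?_⟩
      · have h1 : (∑ k ∈ I, s k ≫ S.x k ≫ e.p (k + 2 * (Z.c : ℤ))) ∈
            K.deg Z.Y P.X (-(Z.c : ℤ)) := by
          refine Submodule.sum_mem _ fun k _ => ?_
          exact K.comp_mem' (hs k) (K.comp_mem (S.x_mem k) (e.mem _)) (by ring)
        exact K.comp_mem' hy h1 (by ring)
      · rw [Category.assoc]
        congr 1
        rw [hq, Preadditive.sum_comp]
        refine Finset.sum_congr rfl fun k _ => ?_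
        rw [Category.assoc, Category.assoc, S.u_eq]
      · intro k hk
        rw [Category.assoc, Preadditive.sum_comp, Finset.sum_eq_zero, Limits.comp_zero]
        intro a ha
        have h2 : a + 2 * (Z.c : ℤ) ≠ k := by
          have := hI a ha
          omega
        rw [Category.assoc, Category.assoc, e.orth _ _ h2, Limits.comp_zero, Limits.comp_zero]
  choose x hx hxy hxe using key
  refine ⟨∑ i ∈ T.s, x i, Submodule.sum_mem _ fun i _ => hx i, ?_, ?_⟩
  · rw [Preadditive.sum_comp, Finset.sum_congr rfl fun i _ => hxy i, ← Preadditive.comp_sum,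
      T.sum, Category.comp_id]
  · intro k hk
    rw [Preadditive.sum_comp]
    exact Finset.sum_eq_zero fun i _ => hxe i k hk

theorem exists_sigma (e : LCK K P) (Z : ZeroLocus K P) (j : ℤ) (hj : j ≤ P.n - Z.c) :
    ∃ σ ∈ K.deg P.X Z.Y 0, σ ≫ Z.push ≫ e.p j = e.p j := by
  obtain ⟨t, ht, h⟩ := exists_left e Z j hj
  refine ⟨t ≫ e.p (j + 2 * (Z.c : ℤ)) ≫ Z.pull, ?_, ?_⟩
  · exact K.comp_mem' ht (K.comp_mem' (e.mem _) Z.pull_mem (zero_add _)) (by ring)
  · simpa only [Category.assoc] using h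

theorem exists_tau (e : LCK K P) (Z : ZeroLocus K P) (j : ℤ) (hj : P.n - Z.c ≤ j) :
    ∃ s : P.X ⟶ P.X, s ∈ K.deg P.X P.X (-(Z.c : ℤ)) ∧
      e.p (j + 2 * (Z.c : ℤ)) ≫ Z.pull ≫ Z.push ≫ e.p j ≫ s = e.p (j + 2 * (Z.c : ℤ)) := by
  obtain ⟨s, hs, h⟩ := exists_right e Z j hj
  exact ⟨s, hs, by simpa only [Category.assoc] using h⟩

end Pool.Agent.LckM
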