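import Pool.Agent.LckM.Compat
import Pool.Agent.LckM.Sect

/-!
# Base change of decompositions
-/

set_option autoImplicit false

open CategoryTheory MonoidalCategory
open Pool.Agent.LefCK

universe w v u

namespace Pool.Agent.LckM

variable {F : Type w} [Field F] {S S' : Theory.{w, v, u} F} (B : BaseChange S.K S'.K)

namespace BaseChange

theorem map_zero {X Y : S.C} : B.Φ.map (0 : X ⟶ Y) = 0 := by
  have := B.additive
  exact B.Φ.map_zero X Y

theorem map_add {X Y : S.C} (f g : X ⟶ Y) : B.Φ.map (f + g) = B.Φ.map f + B.Φ.map g := by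
  have := B.additive
  exact B.Φ.map_add

theorem map_sub {X Y : S.C} (f g : X ⟶ Y) : B.Φ.map (f - g) = B.Φ.map f - B.Φ.map g := by
  have := B.additive
  exact B.Φ.map_sub

theorem map_sum {X Y : S.C} {ι : Type*} (s : Finset ι) (f : ι → (X ⟶ Y)) :
    B.Φ.map (∑ i ∈ s, f i) = ∑ i ∈ s, B.Φ.map (f i) := by
  classical
  induction s using Finset.induction_on with
  | empty => rw [Finset.sum_empty, Finset.sum_empty, B.map_zero]
  | insert a s ha ih => rw [Finset.sum_insert ha, Finset.sum_insert ha, B.map_add, ih]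

theorem cyc_zero {X : S.C} : B.cyc (0 : 𝟙_ S.C ⟶ X) = 0 := by
  rw [cyc, B.map_zero, Limits.comp_zero]

theorem cyc_sub {X : S.C} (x y : 𝟙_ S.C ⟶ X) : B.cyc (x - y) = B.cyc x - B.cyc y := by
  rw [cyc, cyc, cyc, B.map_sub, Preadditive.comp_sub]

theorem cyc_comp {X Y : S.C} (x : 𝟙_ S.C ⟶ X) (f : X ⟶ Y) :
    B.cyc (x ≫ f) = B.cyc x ≫ B.Φ.map f := by
  rw [cyc, cyc, B.Φ.map_comp, Category.assoc]

theorem cyc_mem {X : S.C} {l : ℤ} {x : 𝟙_ S.C ⟶ X} (hx : x ∈ CH S.K X l) :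
    B.cyc x ∈ CH S'.K (B.Φ.obj X) l :=
  S'.K.comp_mem' B.unit_mem.1 (B.mem hx) (zero_add _)

theorem cyc_inj {X : S.C} {x : 𝟙_ S.C ⟶ X} (h : B.cyc x = 0) : x = 0 := by
  apply B.faithful
  have h1 : B.unit.inv ≫ B.cyc x = 0 := by rw [h, Limits.comp_zero]
  rwa [cyc, Iso.inv_hom_id_assoc] at h1

theorem map_hom {X Y : S.C} {f : X ⟶ Y} (h : S.K.H.map f = 0) :
    S'.K.H.map (B.Φ.map f) = 0 := by
  ext x
  obtain ⟨y, rfl⟩ := (B.H X).surjective x
  change (S'.K.H.map (B.Φ.map f)).hom (B.H X y) = 0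
  rw [B.H_map, h]
  exact (B.H Y).map_zero

theorem cyc_hom {X : S.C} {x : 𝟙_ S.C ⟶ X} (h : S.K.H.map x = 0) :
    S'.K.H.map (B.cyc x) = 0 := by
  have := S'.K.additive
  rw [cyc, S'.K.H.map_comp, B.map_hom h, Limits.comp_zero]

/-- the base change of a Chow-Kuenneth decomposition -/
theorem exists_ck {X : S.C} (e : CK S.K X) :
    ∃ e' : CK S'.K (B.Φ.obj X), ∀ i, e'.p i = B.Φ.map (e.p i) := by
  classical
  obtain ⟨s, hs, hsum⟩ := e.exists_finset
  have hsum' : ∑ i ∈ s, B.Φ.map (e.p i) = 𝟙 (B.Φ.obj X) := by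
    rw [← B.map_sum, hsum, B.Φ.map_id]
  have hmem : ∀ i (y : S'.K.H.obj (B.Φ.obj X)),
      (S'.K.H.map (B.Φ.map (e.p i))).hom y ∈ S'.K.gr (B.Φ.obj X) i := by
    intro i y
    obtain ⟨x, rfl⟩ := (B.H X).surjective y
    rw [B.H_map]
    exact B.H_gr X i _ (e.map_p_mem i x)
  refine ⟨CK.ofFinset s (fun i => B.Φ.map (e.p i)) (fun i hi => by rw [hs i hi, B.map_zero])
    (fun i => B.mem (e.mem i)) (fun i => by rw [← B.Φ.map_comp, e.idem])
    (fun i j h => by rw [← B.Φ.map_comp, e.orth i j h, B.map_zero]) hsum' ?_, fun i => rfl⟩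
  apply CK.homology_of_pure s _ (fun i hi => by rw [hs i hi, B.map_zero]) hsum'
  intro i j hij y hy
  have h1 : ∑ k ∈ s, (S'.K.H.map (B.Φ.map (e.p k))).hom y = y := by
    rw [← Correspondences.map_sum_apply, hsum', Correspondences.map_id_apply]
  have h2 : y - (S'.K.H.map (B.Φ.map (e.p j))).hom y = 0 := by
    have h3 : y - (S'.K.H.map (B.Φ.map (e.p j))).hom y ∈ S'.K.gr (B.Φ.obj X) j :=
      Submodule.sub_mem _ hy (hmem j y)
    have h4 : y - (S'.K.H.map (B.Φ.map (e.p j))).hom y ∈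
        ⨆ k, ⨆ (_ : k ≠ j), S'.K.gr (B.Φ.obj X) k := by
      have h5 : y - (S'.K.H.map (B.Φ.map (e.p j))).hom y =
          ∑ k ∈ s.erase j, (S'.K.H.map (B.Φ.map (e.p k))).hom y := by
        by_cases hj : j ∈ s
        · rw [← Finset.add_sum_erase s _ hj] at h1
          rw [sub_eq_iff_eq_add, add_comm, h1]
        · rw [Finset.erase_eq_of_notMem hj, h1, hs j hj, B.map_zero,
            Correspondences.map_zero_apply, sub_zero]
      rw [h5]
      refine Submodule.sum_mem _ fun k hk => ?_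
      exact Submodule.mem_iSup_of_mem k (Submodule.mem_iSup_of_mem (Finset.ne_of_mem_erase hk)
        (hmem k y))
    exact Submodule.disjoint_def.1 ((S'.K.isInternal (B.Φ.obj X)).submodule_iSupIndep j) _ h3 h4
  rw [sub_eq_zero] at h2
  rw [h2, ← Correspondences.map_comp_apply, ← B.Φ.map_comp, e.orth j i hij, B.map_zero,
    Correspondences.map_zero_apply]

theorem exists_list {P : Pol S.C} (l : List (ℕ × ((B.pol P).X ⟶ (B.pol P).X)))
    (hl : ∀ a ∈ l, 0 < a.1 ∧ a.2 ∈ (B.pol P).L a.1) :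
    ∃ l' : List (ℕ × (P.X ⟶ P.X)), (∀ a ∈ l', 0 < a.1 ∧ a.2 ∈ P.L a.1) ∧
      l = l'.map (fun a => (a.1, B.Φ.map a.2)) := by
  induction l with
  | nil => exact ⟨[], by simp, rfl⟩
  | cons a l ih =>
    obtain ⟨l', h1, h2⟩ := ih (fun b hb => hl b (List.mem_cons_of_mem _ hb))
    obtain ⟨h3, L, hL, h4⟩ := hl a (by simp)
    refine ⟨(a.1, L) :: l', ?_, ?_⟩
    · intro b hb
      rcases List.mem_cons.1 hb with rfl | hb
      · exact ⟨h3, hL⟩
      · exact h1 b hb
    · rw [List.map_cons, ← h2]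
      congr 1
      exact Prod.ext rfl h4

theorem map_lead {X : S.C} (p : ℤ → (X ⟶ X)) (w : ℤ) (l : List (ℕ × (X ⟶ X))) :
    B.Φ.map (lead p w l) =
      lead (fun i => B.Φ.map (p i)) w (l.map (fun a => (a.1, B.Φ.map a.2))) := by
  induction l generalizing w with
  | nil => rfl
  | cons a l ih => rw [lead_cons, List.map_cons, lead_cons, B.Φ.map_comp, B.Φ.map_comp, ih]

theorem map_total {X : S.C} (l : List (ℕ × (X ⟶ X))) :
    total (l.map (fun a => (a.1, B.Φ.map a.2))) = total l := by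
  induction l with
  | nil => simp
  | cons a l ih => rw [List.map_cons, total_cons, total_cons, ih]

/-- the base change of an LCK -/
theorem exists_lck {P : Pol S.C} (e : LCK S.K P) :
    ∃ e' : LCK S'.K (B.pol P), ∀ i, e'.p i = B.Φ.map (e.p i) := by
  obtain ⟨D, hD⟩ := B.exists_ck e.toCK
  have hp : D.p = fun i => B.Φ.map (e.p i) := funext hD
  refine ⟨⟨D, ?_, ?_, ?_⟩, hD⟩
  · rintro c _ ⟨L, hL, rfl⟩
    exact B.mem (e.mem_L c L hL)
  · rintro c _ ⟨L, hL, rfl⟩ i j h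
    rw [hD, hD]
    have h1 := e.nonneg c L hL i j h
    change B.Φ.map (e.p j) ≫ B.Φ.map L ≫ B.Φ.map (e.p i) = 0
    rw [← B.Φ.map_comp, ← B.Φ.map_comp, h1, B.map_zero]
  · intro l hl h
    obtain ⟨l', h1, h4⟩ := B.exists_list l h
    obtain ⟨G, hG, h2, h3⟩ := e.hard l' (by
      rintro rfl
      exact hl (by rw [h4]; rfl)) h1
    have key : ∀ l'' : List (ℕ × (B.Φ.obj P.X ⟶ B.Φ.obj P.X)),
        l'' = l'.map (fun a => (a.1, B.Φ.map a.2)) →
        ∃ G ∈ S'.K.deg (B.Φ.obj P.X) (B.Φ.obj P.X) (-total l''),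
          lead D.p (P.n + total l'') l'' ≫ G = D.p (P.n + total l'') ∧
          G ≫ lead D.p (P.n + total l'') l'' = D.p (P.n - total l'') := by
      rintro _ rfl
      rw [B.map_total, hp, ← B.map_lead]
      refine ⟨B.Φ.map G, B.mem hG, ?_, ?_⟩
      · rw [← B.Φ.map_comp, h2]
      · rw [← B.Φ.map_comp, h3]
    exact key l h4

end BaseChange

end Pool.Agent.LckM
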