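import Pool.Agent.LckM.BlowC
import Pool.Agent.LckM.Sect

/-!
# The blow-up of a point
-/

set_option autoImplicit false

open CategoryTheory MonoidalCategory
open Pool.Agent.LefCK

universe w v u

namespace Pool.Agent.LckM

variable {C : Type u} [Category.{v} C] [Preadditive C] [Linear ℚ C]
  [MonoidalCategory C] {F : Type w} [Field F]
  {K : Correspondences C F} {P : Pol C}

/-- **the blow-up of a point has an LCK** -/
theorem exists_blow (e : LCK K P) (Q : PointBlowUp K P) :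
    ∃ e' : LCK K Q.pol, ∀ i j : ℤ, i ≠ j → e'.p j ≫ Q.ret ≫ e.p i = 0 := by
  obtain ⟨D, hD⟩ := Q.exists_ck e
  have hD' : D.p = Q.q e := funext hD
  have key : ∀ l : List (ℕ × (Q.Y ⟶ Q.Y)), l ≠ [] →
      (∀ a ∈ l, a.1 = 1 ∧ ∃ r : ℚ, 0 < r ∧ a.2 = r • Q.M) → ∃ G ∈ K.deg Q.Y Q.Y (-total l),
        lead D.p (P.n + total l) l ≫ G = D.p (P.n + total l) ∧
          G ≫ lead D.p (P.n + total l) l = D.p (P.n - total l) := by
    intro l hl hl'
    obtain ⟨ht, r, hr, hr'⟩ := Q.lead_list e l hl'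
    have hs : 0 < l.length := List.length_pos_iff.2 hl
    obtain ⟨G, hG, h1, h2⟩ := Q.hard_all e l.length hs
    refine ⟨r⁻¹ • G, Submodule.smul_mem _ _ (by rw [ht]; exact hG), ?_, ?_⟩
    · rw [hD', hr', ht, Linear.smul_comp, Linear.comp_smul, smul_smul, mul_inv_cancel₀ hr.ne',
        one_smul, h1]
    · rw [hD', hr', ht, Linear.smul_comp, Linear.comp_smul, smul_smul, inv_mul_cancel₀ hr.ne',
        one_smul, h2]
  refine ⟨{ toCK := D, mem_L := ?_, nonneg := ?_, hard := ?_ }, ?_⟩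
  · rintro c L ⟨rfl, r, -, rfl⟩
    rw [Nat.cast_one]
    exact Submodule.smul_mem _ _ (Q.M_mem e)
  · rintro c L ⟨rfl, r, -, rfl⟩ i j hij
    show D.p j ≫ (r • Q.M) ≫ D.p i = 0
    rw [hD, hD, Linear.smul_comp, Linear.comp_smul, Q.q_M_q e i j (by
      rw [Nat.cast_one, mul_one] at hij
      exact hij), smul_zero]
  · intro l hl hl'
    exact key l hl fun a ha => (hl' a ha).2
  · intro i j hij
    show D.p j ≫ Q.ret ≫ e.p i = 0
    rw [hD, ← Category.assoc, Q.q_ret, Category.assoc, e.orth j i (Ne.symm hij), Limits.comp_zero]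

end Pool.Agent.LckM
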