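import Pool.Agent.LckM.Compat
import Pool.Agent.LefCK.LowA

/-!
# The blow-up of a point: the Chow-Kuenneth decomposition and the class `M`
-/

set_option autoImplicit false

open CategoryTheory MonoidalCategory
open Pool.Agent.LefCK

universe w v u

namespace Pool.Agent.LckM

variable {C : Type u} [Category.{v} C] [Preadditive C] [Linear ℚ C]
  [MonoidalCategory C] {F : Type w} [Field F]
  {K : Correspondences C F} {P : Pol C}

namespace PointBlowUp

variable (B : PointBlowUp K P) (e : LCK K P)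

/-- the exceptional part of weight `j` -/
def ex (j : ℤ) : B.Y ⟶ B.Y :=
  ∑ i ∈ Finset.Ico 1 B.n, if 2 * (i : ℤ) = j then B.ξ i ≫ B.x i else 0

/-- the projector onto weight `j` -/
def q (j : ℤ) : B.Y ⟶ B.Y := B.ret ≫ e.p j ≫ B.inc + B.ex j

theorem inc_ex (j : ℤ) : B.inc ≫ B.ex j = 0 := by
  unfold ex
  rw [Preadditive.comp_sum]
  refine Finset.sum_eq_zero fun i hi => ?_
  rw [Finset.mem_Ico] at hi
  split_ifs
  · rw [← Category.assoc, B.inc_ξ i hi.1 hi.2, Limits.zero_comp]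
  · rw [Limits.comp_zero]

theorem ex_ret (j : ℤ) : B.ex j ≫ B.ret = 0 := by
  unfold ex
  rw [Preadditive.sum_comp]
  refine Finset.sum_eq_zero fun i hi => ?_
  rw [Finset.mem_Ico] at hi
  split_ifs
  · rw [Category.assoc, B.x_ret i hi.1 hi.2, Limits.comp_zero]
  · rw [Limits.zero_comp]

theorem x_ex (k : ℕ) (h1 : 1 ≤ k) (h2 : k < B.n) (j : ℤ) :
    B.x k ≫ B.ex j = if 2 * (k : ℤ) = j then B.x k else 0 := by
  unfold ex
  rw [Preadditive.comp_sum, Finset.sum_eq_single_of_mem k (Finset.mem_Ico.2 ⟨h1, h2⟩)]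
  · split_ifs
    · rw [← Category.assoc, B.pairing k k h1 h2 h1 h2, if_pos rfl, Category.id_comp]
    · rw [Limits.comp_zero]
  · intro i hi hik
    rw [Finset.mem_Ico] at hi
    split_ifs
    · rw [← Category.assoc, B.pairing k i h1 h2 hi.1 hi.2, if_neg (Ne.symm hik),
        Limits.zero_comp]
    · rw [Limits.comp_zero]

theorem ex_ex (i j : ℤ) : B.ex i ≫ B.ex j = if i = j then B.ex i else 0 := by
  have h1 : B.ex i ≫ B.ex j = ∑ k ∈ Finset.Ico 1 B.n,
      if 2 * (k : ℤ) = i then B.ξ k ≫ (if 2 * (k : ℤ) = j then B.x k else 0) else 0 := by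
    conv_lhs => rw [ex]
    rw [Preadditive.sum_comp]
    refine Finset.sum_congr rfl fun k hk => ?_
    rw [Finset.mem_Ico] at hk
    split_ifs with h2 h3
    · rw [Category.assoc, B.x_ex k hk.1 hk.2, if_pos h3]
    · rw [Category.assoc, B.x_ex k hk.1 hk.2, if_neg h3]
    · rw [Limits.zero_comp]
  rw [h1]
  split_ifs with hij
  · unfold ex
    refine Finset.sum_congr rfl fun k hk => ?_
    split_ifs with h2 h3
    · rfl
    · exact absurd (h2.trans hij) h3
    · rfl
  · refine Finset.sum_eq_zero fun k hk => ?_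
    split_ifs with h2 h3
    · exact absurd (h2.symm.trans h3) hij
    · rw [Limits.comp_zero]
    · rfl

theorem inc_q (j : ℤ) : B.inc ≫ B.q e j = e.p j ≫ B.inc := by
  unfold q
  rw [Preadditive.comp_add, B.inc_ex, add_zero, ← Category.assoc, B.inc_ret, Category.id_comp]

theorem q_ret (j : ℤ) : B.q e j ≫ B.ret = B.ret ≫ e.p j := by
  unfold q
  rw [Preadditive.add_comp, B.ex_ret, add_zero, Category.assoc, Category.assoc, B.inc_ret,
    Category.comp_id]

theorem x_q (k : ℕ) (h1 : 1 ≤ k) (h2 : k < B.n) (j : ℤ) :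
    B.x k ≫ B.q e j = if 2 * (k : ℤ) = j then B.x k else 0 := by
  unfold q
  rw [Preadditive.comp_add, ← Category.assoc, B.x_ret k h1 h2, Limits.zero_comp, zero_add,
    B.x_ex k h1 h2]

theorem ex_q (i j : ℤ) : B.ex i ≫ B.q e j = if i = j then B.ex i else 0 := by
  unfold q
  rw [Preadditive.comp_add, ← Category.assoc, B.ex_ret, Limits.zero_comp, zero_add, B.ex_ex]

theorem q_q (i j : ℤ) : B.q e i ≫ B.q e j = if i = j then B.q e i else 0 := by
  have h1 : B.q e i ≫ B.q e j = B.ret ≫ (e.p i ≫ e.p j) ≫ B.inc + B.ex i ≫ B.q e j := by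
    conv_lhs => rw [q]
    rw [Preadditive.add_comp, Category.assoc, Category.assoc, B.inc_q, Category.assoc]
  rw [h1, B.ex_q]
  split_ifs with hij
  · subst hij
    rw [e.idem]
    rfl
  · rw [e.orth i j hij, Limits.zero_comp, Limits.comp_zero, add_zero]

theorem ex_mem (j : ℤ) : B.ex j ∈ K.deg B.Y B.Y 0 := by
  unfold ex
  refine Submodule.sum_mem _ fun i _ => ?_
  split_ifs
  · exact K.comp_mem' (B.ξ_mem i) (B.x_mem i) (by ring)
  · exact Submodule.zero_mem _

theorem q_mem (j : ℤ) : B.q e j ∈ K.deg B.Y B.Y 0 := by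
  refine Submodule.add_mem _ ?_ (B.ex_mem j)
  exact K.comp_mem' B.ret_mem (K.comp_mem (e.mem j) B.inc_mem) (by ring)

theorem ξ_map (i : ℕ) (j : ℤ) (hj : j ≠ 2 * (i : ℤ))
    (h : K.H.obj B.Y) (hh : h ∈ K.gr B.Y j) : (K.H.map (B.ξ i)).hom h = 0 := by
  have h1 := K.map_gr (B.ξ_mem i) j h hh
  exact K.gr_eq_zero (by omega) h1 (K.unit_gr _)

/-- the Chow-Kuenneth decomposition of the blow-up -/
theorem exists_ck : ∃ D : CK K B.Y, ∀ j, D.p j = B.q e j := by
  classical
  obtain ⟨s, hs0, hs1⟩ := e.toCK.exists_finset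
  obtain ⟨S, hS⟩ : ∃ S : Finset ℤ, S = s ∪ (Finset.Ico 1 B.n).image fun i : ℕ => 2 * (i : ℤ) :=
    ⟨_, rfl⟩
  have hq0 : ∀ j, j ∉ S → B.q e j = 0 := by
    intro j hj
    rw [hS, Finset.mem_union, not_or] at hj
    unfold q
    rw [hs0 j hj.1, Limits.zero_comp, Limits.comp_zero, zero_add]
    unfold ex
    refine Finset.sum_eq_zero fun i hi => ?_
    rw [if_neg]
    intro h
    exact hj.2 (Finset.mem_image.2 ⟨i, hi, h⟩)
  have hsum : ∑ j ∈ S, B.q e j = 𝟙 B.Y := by
    unfold q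
    rw [Finset.sum_add_distrib, ← Preadditive.comp_sum, ← Preadditive.sum_comp, ← B.sum]
    congr 1
    · have h1 : ∑ j ∈ S, e.p j = 𝟙 P.X := by
        rw [← hs1]
        refine (Finset.sum_subset (by rw [hS]; exact Finset.subset_union_left)
          fun j _ hj => hs0 j hj).symm
      rw [h1, Category.id_comp]
    · unfold ex
      rw [Finset.sum_comm]
      refine Finset.sum_congr rfl fun i hi => ?_
      rw [Finset.sum_ite_eq, if_pos]
      rw [hS]
      exact Finset.mem_union_right _ (Finset.mem_image.2 ⟨i, hi, rfl⟩)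
  refine ⟨CK.ofFinset S (B.q e) hq0 (B.q_mem e) (fun i => by rw [B.q_q, if_pos rfl])
    (fun i j h => by rw [B.q_q, if_neg h]) hsum ?_, fun j => rfl⟩
  refine CK.homology_of_pure S (B.q e) hq0 hsum ?_
  intro i j hij h hh
  unfold q
  rw [K.map_add_apply, K.map_comp_apply, K.map_comp_apply]
  have h1 : (K.H.map B.ret).hom h ∈ K.gr P.X j := by
    have := K.map_gr B.ret_mem j h hh
    rwa [mul_zero, sub_zero] at this
  rw [e.toCK.homology_ne hij h1, map_zero, zero_add]
  unfold ex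
  rw [K.map_sum_apply]
  refine Finset.sum_eq_zero fun k _ => ?_
  split_ifs with h2
  · rw [K.map_comp_apply, B.ξ_map k j (by omega) h hh, map_zero]
  · exact K.map_zero_apply h

/-- `x 0 = pt` -/
def xx (i : ℕ) : 𝟙_ C ⟶ B.Y := if i = 0 then B.pt ≫ B.inc else B.x i

theorem inc_M : B.inc ≫ B.M = B.L ≫ B.inc - B.b • (B.pt' ≫ B.x (B.n - 1)) := by
  have hN := B.two_le
  rw [PointBlowUp.M, B.E_eq]
  have h1 : ∀ {Z : C} (f : P.X ⟶ Z), B.inc ≫ B.ret ≫ f = f := by
    intro Z f
    rw [← Category.assoc, B.inc_ret, Category.id_comp]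
  have h2 : B.inc ≫ (∑ i ∈ Finset.Ico 2 B.n, B.ξ i ≫ B.x (i - 1)) = 0 := by
    rw [Preadditive.comp_sum]
    refine Finset.sum_eq_zero fun i hi => ?_
    rw [Finset.mem_Ico] at hi
    rw [← Category.assoc, B.inc_ξ i (by omega) hi.2, Limits.zero_comp]
  have h3 : B.inc ≫ B.ξ 1 ≫ B.pt ≫ B.inc = 0 := by
    rw [← Category.assoc, B.inc_ξ 1 le_rfl (by omega), Limits.zero_comp]
  rw [Preadditive.comp_sub, Linear.comp_smul, Preadditive.comp_sub, Preadditive.comp_sub, h1, h1,
    h2, h3, sub_zero, sub_zero]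

theorem x_M (k : ℕ) (hk1 : 1 ≤ k) (hk2 : k < B.n) : B.x k ≫ B.M = B.b • B.xx (k - 1) := by
  have hN := B.two_le
  rw [PointBlowUp.M, B.E_eq]
  have h1 : ∀ {Z : C} (f : P.X ⟶ Z), B.x k ≫ B.ret ≫ f = 0 := by
    intro Z f
    rw [← Category.assoc, B.x_ret k hk1 hk2, Limits.zero_comp]
  rw [Preadditive.comp_sub, Linear.comp_smul, Preadditive.comp_sub, Preadditive.comp_sub, h1, h1,
    zero_sub, zero_sub, ← smul_neg, neg_sub, sub_neg_eq_add]
  congr 1
  rw [Preadditive.comp_sum, ← Category.assoc, B.pairing k 1 hk1 hk2 le_rfl (by omega)]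
  by_cases hk : k = 1
  · subst hk
    rw [if_pos rfl, Category.id_comp, Finset.sum_eq_zero, add_zero]
    · rfl
    · intro i hi
      rw [Finset.mem_Ico] at hi
      rw [← Category.assoc, B.pairing 1 i le_rfl (by omega) (by omega) hi.2,
        if_neg (by omega), Limits.zero_comp]
  · rw [if_neg hk, Limits.zero_comp, zero_add, Finset.sum_eq_single_of_mem k
      (Finset.mem_Ico.2 ⟨by omega, hk2⟩)]
    · rw [← Category.assoc, B.pairing k k hk1 hk2 hk1 hk2, if_pos rfl,
        Category.id_comp, xx, if_neg (by omega)]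
    · intro i hi hik
      rw [Finset.mem_Ico] at hi
      rw [← Category.assoc, B.pairing k i hk1 hk2 (by omega) hi.2,
        if_neg (Ne.symm hik), Limits.zero_comp]

include e in
theorem L_mem_deg : B.L ∈ K.deg P.X P.X 1 := by
  have := e.mem_L 1 B.L B.L_mem
  rwa [Nat.cast_one] at this

include e in
theorem M_mem : B.M ∈ K.deg B.Y B.Y 1 := by
  have hN := B.two_le
  rw [PointBlowUp.M, B.E_eq]
  refine Submodule.sub_mem _ ?_ (Submodule.smul_mem _ _ (Submodule.sub_mem _
    (Submodule.sub_mem _ ?_ (Submodule.sum_mem _ fun i hi => ?_)) ?_))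
  · exact K.comp_mem' B.ret_mem (K.comp_mem (B.L_mem_deg e) B.inc_mem) (by ring)
  · refine K.comp_mem' B.ret_mem (K.comp_mem B.pt'_mem (B.x_mem (B.n - 1))) ?_
    omega
  · rw [Finset.mem_Ico] at hi
    refine K.comp_mem' (B.ξ_mem i) (B.x_mem (i - 1)) ?_
    omega
  · exact K.comp_mem' (B.ξ_mem 1) (K.comp_mem B.pt_mem B.inc_mem) (by norm_num)

theorem pow_L_zero (s : ℕ) (hs : B.n < s) : pow B.L s = 0 := by
  obtain ⟨k, rfl⟩ : ∃ k, s = B.n + 1 + k := ⟨s - (B.n + 1), by omega⟩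
  induction k with
  | zero => exact B.nil
  | succ k ih =>
    show pow B.L (B.n + 1 + k) ≫ B.L = 0
    rw [ih (by omega), Limits.zero_comp]

include B in
theorem e_low (i : ℤ) (hi : i < 0) : e.p i = 0 := by
  have hN := B.n_eq
  obtain ⟨s, hs⟩ : ∃ s : ℕ, (s : ℤ) = P.n - i := ⟨(P.n - i).toNat, by omega⟩
  obtain ⟨G, hG, -, h2⟩ := low_hard e B.L_mem s (by omega)
  have h3 : P.n - (s : ℤ) = i := by omega
  rw [B.pow_L_zero s (by omega), h3, Limits.zero_comp, Limits.comp_zero, Limits.comp_zero] at h2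
  exact h2.symm

include B in
theorem e_high (i : ℤ) (hi : 2 * P.n < i) : e.p i = 0 := by
  have hN := B.n_eq
  obtain ⟨s, hs⟩ : ∃ s : ℕ, (s : ℤ) = i - P.n := ⟨(i - P.n).toNat, by omega⟩
  obtain ⟨G, hG, h1, -⟩ := low_hard e B.L_mem s (by omega)
  have h3 : P.n + (s : ℤ) = i := by omega
  rw [B.pow_L_zero s (by omega), h3, Limits.zero_comp, Limits.comp_zero, Limits.zero_comp] at h1
  exact h1.symm

/-- the class `M` does not lower the weights by more than 2 -/
theorem q_M_q (i j : ℤ) (hij : i < j - 2) : B.q e j ≫ B.M ≫ B.q e i = 0 := by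
  have hN := B.two_le
  have h1 : B.inc ≫ B.M ≫ B.q e i = B.L ≫ e.p i ≫ B.inc -
      B.b • (B.pt' ≫ if 2 * ((B.n - 1 : ℕ) : ℤ) = i then B.x (B.n - 1) else 0) := by
    rw [← Category.assoc, B.inc_M, Preadditive.sub_comp, Category.assoc, B.inc_q,
      Linear.smul_comp, Category.assoc, B.x_q e (B.n - 1) (by omega) (by omega)]
  have h2 : e.p j ≫ B.inc ≫ B.M ≫ B.q e i = 0 := by
    rw [h1, Preadditive.comp_sub, ← Category.assoc, ← Category.assoc, Category.assoc (e.p j),
      e.nonneg 1 B.L B.L_mem i j (by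
        rw [Nat.cast_one]
        omega), Limits.zero_comp, zero_sub]
    split_ifs with h3
    · rw [e_high B e j (by
        rw [B.n_eq]
        push_cast [Nat.cast_sub (show 1 ≤ B.n by omega)] at h3
        omega), Limits.zero_comp, neg_zero]
    · rw [Limits.comp_zero, smul_zero, Limits.comp_zero, neg_zero]
  have h4 : ∀ k : ℕ, 1 ≤ k → k < B.n → 2 * (k : ℤ) = j → B.x k ≫ B.M ≫ B.q e i = 0 := by
    intro k hk1 hk2 hkj
    rw [← Category.assoc, B.x_M k hk1 hk2, Linear.smul_comp, xx]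
    split_ifs with h5
    · rw [Category.assoc, B.inc_q, e_low B e i (by omega), Limits.zero_comp, Limits.comp_zero,
        smul_zero]
    · rw [B.x_q e (k - 1) (by omega) (by omega), if_neg (by
        push_cast [Nat.cast_sub (show 1 ≤ k by omega)]
        omega), smul_zero]
  rw [q, Preadditive.add_comp, Category.assoc, Category.assoc, h2, Limits.comp_zero, zero_add, ex,
    Preadditive.sum_comp]
  refine Finset.sum_eq_zero fun k hk => ?_
  rw [Finset.mem_Ico] at hk
  split_ifs with h5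
  · rw [Category.assoc, h4 k hk.1 hk.2 h5, Limits.comp_zero]
  · rw [Limits.zero_comp]

end PointBlowUp

end Pool.Agent.LckM
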