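import Pool.Agent.LckM.BlowA

/-!
# The blow-up of a point: hard Lefschetz
-/

set_option autoImplicit false

open CategoryTheory MonoidalCategory
open Pool.Agent.LefCK

universe w v u

namespace Pool.Agent.LckM

variable {C : Type u} [Category.{v} C] [Preadditive C] [Linear ℚ C]
  [MonoidalCategory C] {F : Type w} [Field F]
  {K : Correspondences C F} {P : Pol C}

namespace PointBlowUp

variable (B : PointBlowUp K P) (e : LCK K P)

/-- the leading component of `M^s` -/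
def ld (w : ℤ) (s : ℕ) : B.Y ⟶ B.Y := lead (B.q e) w (List.replicate s (1, B.M))

theorem ld_zero (w : ℤ) : B.ld e w 0 = B.q e w := rfl

theorem ld_succ (w : ℤ) (s : ℕ) : B.ld e w (s + 1) = B.q e w ≫ B.M ≫ B.ld e (w - 2) s := by
  unfold ld
  rw [List.replicate_succ, lead_cons, Nat.cast_one, mul_one]

theorem q_idem (w : ℤ) : B.q e w ≫ B.q e w = B.q e w := by rw [B.q_q, if_pos rfl]

theorem q_ld (w : ℤ) (s : ℕ) : B.q e w ≫ B.ld e w s = B.ld e w s :=
  p_lead (B.q_idem e) w _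

theorem x_ld_ne (k : ℕ) (h1 : 1 ≤ k) (h2 : k < B.n) (w : ℤ) (hw : 2 * (k : ℤ) ≠ w) (s : ℕ) :
    B.x k ≫ B.ld e w s = 0 := by
  rw [← B.q_ld, ← Category.assoc, B.x_q e k h1 h2, if_neg hw, Limits.zero_comp]

theorem x_ld_lt (s : ℕ) : ∀ k : ℕ, 1 ≤ k → k < B.n → s < k →
    B.x k ≫ B.ld e (2 * (k : ℤ)) s = B.b ^ s • B.x (k - s) := by
  induction s with
  | zero =>
    intro k h1 h2 _
    rw [B.ld_zero, B.x_q e k h1 h2, if_pos rfl, pow_zero, one_smul, Nat.sub_zero]
  | succ s ih =>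
    intro k h1 h2 h3
    have h4 : 2 * (k : ℤ) - 2 = 2 * ((k - 1 : ℕ) : ℤ) := by omega
    rw [B.ld_succ, ← Category.assoc, B.x_q e k h1 h2, if_pos rfl, ← Category.assoc,
      B.x_M k h1 h2, Linear.smul_comp, xx, if_neg (by omega), h4,
      ih (k - 1) (by omega) (by omega) (by omega), smul_smul, pow_succ', Nat.sub_sub,
      Nat.add_comm 1 s]

theorem x_ld_eq (k : ℕ) : 1 ≤ k → k < B.n →
    B.x k ≫ B.ld e (2 * (k : ℤ)) k = B.b ^ k • (B.pt ≫ e.p 0 ≫ B.inc) := by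
  induction k with
  | zero =>
    intro h1
    omega
  | succ k ih =>
    intro h1 h2
    have h4 : 2 * ((k + 1 : ℕ) : ℤ) - 2 = 2 * (k : ℤ) := by
      push_cast
      ring
    rw [B.ld_succ, ← Category.assoc, B.x_q e (k + 1) h1 h2, if_pos rfl, ← Category.assoc,
      B.x_M (k + 1) h1 h2, Linear.smul_comp, h4, xx, Nat.add_sub_cancel]
    by_cases hk : k = 0
    · subst hk
      rw [if_pos rfl, B.ld_zero, Category.assoc, B.inc_q, Nat.cast_zero, mul_zero, zero_add,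
        pow_one]
    · rw [if_neg hk, ih (by omega) (by omega), smul_smul, pow_succ']

theorem inc_ld (s : ℕ) : ∀ w : ℤ, w < 2 * (B.n : ℤ) →
    B.inc ≫ B.ld e w s = lead e.p w (List.replicate s (1, B.L)) ≫ B.inc := by
  have hN := B.two_le
  induction s with
  | zero =>
    intro w _
    rw [B.ld_zero, B.inc_q]
    rfl
  | succ s ih =>
    intro w hw
    have h1 := ih (w - 2) (by omega)
    rw [B.ld_succ, ← Category.assoc, B.inc_q, List.replicate_succ, lead_cons, Nat.cast_one, mul_one,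
      Category.assoc, ← Category.assoc B.inc, B.inc_M, Preadditive.sub_comp, Category.assoc, h1,
      Linear.smul_comp, Category.assoc, B.x_ld_ne e (B.n - 1) (by omega) (by omega) (w - 2)
        (by omega) s, Limits.comp_zero, smul_zero, sub_zero, Category.assoc, Category.assoc]

theorem inc_ld_top : B.inc ≫ B.ld e (2 * (B.n : ℤ)) B.n =
    (lead e.p (2 * (B.n : ℤ)) (List.replicate B.n (1, B.L)) -
      B.b ^ B.n • (e.p (2 * (B.n : ℤ)) ≫ B.pt' ≫ B.pt ≫ e.p 0)) ≫ B.inc := by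
  have hN := B.two_le
  obtain ⟨m, hm⟩ : ∃ m, B.n = m + 1 := ⟨B.n - 1, by omega⟩
  have h4 : 2 * (B.n : ℤ) - 2 = 2 * (m : ℤ) := by omega
  have h5 : B.ld e (2 * (B.n : ℤ)) B.n = B.ld e (2 * (B.n : ℤ)) (m + 1) := by rw [hm]
  have h6 : lead e.p (2 * (B.n : ℤ)) (List.replicate B.n (1, B.L)) =
      e.p (2 * (B.n : ℤ)) ≫ B.L ≫ lead e.p (2 * (m : ℤ)) (List.replicate m (1, B.L)) := by
    have h7 : List.replicate B.n (1, B.L) = (1, B.L) :: List.replicate m (1, B.L) := by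
      rw [hm, List.replicate_succ]
    rw [h7, lead_cons, Nat.cast_one, mul_one, h4]
  have h8 : B.n - 1 = m := by omega
  have h9 := B.x_ld_eq e m (by omega) (by omega)
  rw [h5, h6, B.ld_succ, ← Category.assoc, B.inc_q, Category.assoc, ← Category.assoc B.inc, B.inc_M,
    h4, Preadditive.sub_comp, Category.assoc, B.inc_ld e m _ (by omega), Linear.smul_comp,
    Category.assoc, h8, h9, Linear.comp_smul, smul_smul, ← pow_succ', ← hm,
    Preadditive.comp_sub, Preadditive.sub_comp, Linear.comp_smul, Linear.smul_comp]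
  simp only [Category.assoc]

theorem sum_of {A : Type*} [AddCommMonoid A] {n : ℕ} {f : ℕ → A} {w : ℤ} (k : ℕ) (h1 : 1 ≤ k)
    (h2 : k < n) (hk : 2 * (k : ℤ) = w) :
    (∑ i ∈ Finset.Ico 1 n, if 2 * (i : ℤ) = w then f i else 0) = f k := by
  rw [Finset.sum_eq_single_of_mem k (Finset.mem_Ico.2 ⟨h1, h2⟩), if_pos hk]
  intro i _ hik
  rw [if_neg]
  omega

theorem sum_none {A : Type*} [AddCommMonoid A] {n : ℕ} {f : ℕ → A} {w : ℤ}
    (h : ∀ k : ℕ, 1 ≤ k → k < n → 2 * (k : ℤ) ≠ w) :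
    (∑ i ∈ Finset.Ico 1 n, if 2 * (i : ℤ) = w then f i else 0) = 0 := by
  refine Finset.sum_eq_zero fun i hi => ?_
  rw [Finset.mem_Ico] at hi
  rw [if_neg (h i hi.1 hi.2)]

/-- the leading component of `M^s`, for `s < n` -/
theorem ld_eq (w : ℤ) (s : ℕ) (hw : w < 2 * (B.n : ℤ)) : B.ld e w s =
    B.ret ≫ lead e.p w (List.replicate s (1, B.L)) ≫ B.inc +
      ∑ k ∈ Finset.Ico 1 B.n, if 2 * (k : ℤ) = w then B.ξ k ≫ B.x k ≫ B.ld e w s else 0 := by
  conv_lhs => rw [← B.q_ld, q, Preadditive.add_comp, Category.assoc, Category.assoc,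
    B.inc_ld e s w hw]
  congr 1
  · rw [← Category.assoc (e.p w), p_lead e.idem]
  · rw [ex, Preadditive.sum_comp]
    refine Finset.sum_congr rfl fun k _ => ?_
    split_ifs
    · rw [Category.assoc]
    · rw [Limits.zero_comp]

/-- hard Lefschetz for `M^s`, `s < n` -/
theorem hard_lt (s : ℕ) (hs : 0 < s) (hsn : s < B.n) : ∃ G ∈ K.deg B.Y B.Y (-(s : ℤ)),
    B.ld e (P.n + s) s ≫ G = B.q e (P.n + s) ∧ G ≫ B.ld e (P.n + s) s = B.q e (P.n - s) := by
  have hN := B.n_eq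
  have ht : total (List.replicate s (1, B.L)) = (s : ℤ) := by
    rw [total_replicate, Nat.cast_one, mul_one]
  obtain ⟨G, hG, h1, h2⟩ := e.hard (List.replicate s (1, B.L))
    (by
      intro h
      have := congrArg List.length h
      rw [List.length_replicate, List.length_nil] at this
      omega)
    (fun a ha => by
      rw [List.eq_of_mem_replicate ha]
      exact ⟨one_pos, B.L_mem⟩)
  rw [ht] at hG h1 h2
  have hb : B.b ^ s ≠ 0 := pow_ne_zero _ B.b_pos.ne'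
  have hld := B.ld_eq e (P.n + s) s (by omega)
  obtain ⟨A, hA⟩ : ∃ A, A = lead e.p (P.n + (s : ℤ)) (List.replicate s (1, B.L)) := ⟨_, rfl⟩
  rw [← hA] at h1 h2 hld
  have hG0 : B.ret ≫ G ≫ B.inc ∈ K.deg B.Y B.Y (-(s : ℤ)) :=
    K.comp_mem' B.ret_mem (K.comp_mem hG B.inc_mem) (by ring)
  have hret : ∀ {Z : C} (f : P.X ⟶ Z), B.inc ≫ B.ret ≫ f = f := by
    intro Z f
    rw [← Category.assoc, B.inc_ret, Category.id_comp]
  have hAG : (B.ret ≫ A ≫ B.inc) ≫ (B.ret ≫ G ≫ B.inc) = B.ret ≫ e.p (P.n + s) ≫ B.inc := by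
    rw [← h1]
    simp only [Category.assoc, hret]
  have hGA : (B.ret ≫ G ≫ B.inc) ≫ (B.ret ≫ A ≫ B.inc) = B.ret ≫ e.p (P.n - s) ≫ B.inc := by
    rw [← h2]
    simp only [Category.assoc, hret]
  by_cases hk : ∃ k : ℕ, 1 ≤ k ∧ k < B.n ∧ 2 * (k : ℤ) = P.n + s
  · obtain ⟨k, hk1, hk2, hk3⟩ := hk
    have hx := B.x_ld_lt e s k hk1 hk2 (by omega)
    rw [hk3] at hx
    rw [sum_of k hk1 hk2 hk3, hx, Linear.comp_smul] at hld
    have hks1 : 1 ≤ k - s := by omega
    have hks2 : k - s < B.n := by omega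
    have e1 : B.inc ≫ B.ξ (k - s) = 0 := B.inc_ξ _ hks1 hks2
    have e2 : B.x (k - s) ≫ B.ret = 0 := B.x_ret _ hks1 hks2
    have e3 : B.x (k - s) ≫ B.ξ (k - s) = 𝟙 _ := by
      rw [B.pairing _ _ hks1 hks2 hks1 hks2, if_pos rfl]
    have e4 : B.x k ≫ B.ret = 0 := B.x_ret _ hk1 hk2
    have e5 : B.inc ≫ B.ξ k = 0 := B.inc_ξ _ hk1 hk2
    have e6 : B.x k ≫ B.ξ k = 𝟙 _ := by
      rw [B.pairing _ _ hk1 hk2 hk1 hk2, if_pos rfl]
    have f1 : B.ex (P.n + s) = B.ξ k ≫ B.x k := sum_of k hk1 hk2 hk3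
    have f2 : B.ex (P.n - s) = B.ξ (k - s) ≫ B.x (k - s) := sum_of (k - s) hks1 hks2 (by omega)
    refine ⟨B.ret ≫ G ≫ B.inc + (B.b ^ s)⁻¹ • (B.ξ (k - s) ≫ B.x k),
      Submodule.add_mem _ hG0 (Submodule.smul_mem _ _
        (K.comp_mem' (B.ξ_mem (k - s)) (B.x_mem k) (by omega))), ?_, ?_⟩
    · have g1 : (B.ret ≫ A ≫ B.inc) ≫ (B.ξ (k - s) ≫ B.x k) = 0 := by
        rw [Category.assoc, Category.assoc, ← Category.assoc B.inc, e1, Limits.zero_comp,
          Limits.comp_zero, Limits.comp_zero]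
      have g2 : (B.ξ k ≫ B.x (k - s)) ≫ (B.ret ≫ G ≫ B.inc) = 0 := by
        rw [Category.assoc, ← Category.assoc (B.x (k - s)), e2, Limits.zero_comp, Limits.comp_zero]
      have g3 : (B.ξ k ≫ B.x (k - s)) ≫ (B.ξ (k - s) ≫ B.x k) = B.ξ k ≫ B.x k := by
        rw [Category.assoc, ← Category.assoc (B.x (k - s)), e3, Category.id_comp]
      rw [hld, Preadditive.add_comp, Preadditive.comp_add, Preadditive.comp_add, hAG,
        Linear.comp_smul, g1, Linear.smul_comp, g2, Linear.smul_comp, Linear.comp_smul, g3,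
        smul_smul, mul_inv_cancel₀ hb, one_smul, smul_zero, smul_zero, add_zero, zero_add, q, f1]
    · have g1 : (B.ret ≫ G ≫ B.inc) ≫ (B.ξ k ≫ B.x (k - s)) = 0 := by
        rw [Category.assoc, Category.assoc, ← Category.assoc B.inc, e5, Limits.zero_comp,
          Limits.comp_zero, Limits.comp_zero]
      have g2 : (B.ξ (k - s) ≫ B.x k) ≫ (B.ret ≫ A ≫ B.inc) = 0 := by
        rw [Category.assoc, ← Category.assoc (B.x k), e4, Limits.zero_comp, Limits.comp_zero]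
      have g3 : (B.ξ (k - s) ≫ B.x k) ≫ (B.ξ k ≫ B.x (k - s)) = B.ξ (k - s) ≫ B.x (k - s) := by
        rw [Category.assoc, ← Category.assoc (B.x k), e6, Category.id_comp]
      rw [hld, Preadditive.add_comp, Preadditive.comp_add, Preadditive.comp_add, hGA,
        Linear.comp_smul, g1, Linear.smul_comp, g2, Linear.smul_comp, Linear.comp_smul, g3,
        smul_smul, inv_mul_cancel₀ hb, one_smul, smul_zero, smul_zero, add_zero, zero_add, q, f2]
  · push Not at hk
    have f1 : B.ex (P.n + s) = 0 := sum_none hk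
    have f2 : B.ex (P.n - s) = 0 := by
      refine sum_none fun k h3 h4 h5 => ?_
      exact hk (k + s) (by omega) (by omega) (by push_cast; omega)
    rw [sum_none hk, add_zero] at hld
    refine ⟨B.ret ≫ G ≫ B.inc, hG0, ?_, ?_⟩
    · rw [hld, hAG, q, f1, add_zero]
    · rw [hld, hGA, q, f2, add_zero]

end PointBlowUp

end Pool.Agent.LckM
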