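import Pool.Agent.LckM.BlowB

/-!
# The blow-up of a point: hard Lefschetz, the extreme degrees
-/

set_option autoImplicit false

open CategoryTheory MonoidalCategory
open Pool.Agent.LefCK

universe w v u

namespace Pool.Agent.LckM

variable {C : Type u} [Category.{v} C] [Preadditive C] [Linear ℚ C]
  [MonoidalCategory C] {F : Type w} [Field F]
  {K : Correspondences C F} {P : Pol C}

omit [MonoidalCategory C] in
/-- a perturbation of rank one of an isomorphism -/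
theorem rank_one {X Y Z : C} (A : X ⟶ Y) (G : Y ⟶ X) (a : X ⟶ X) (b : Y ⟶ Y) (U : X ⟶ Z)
    (W : Z ⟶ Y) (β q : ℚ) (hAG : A ≫ G = a) (hGA : G ≫ A = b) (hU : a ≫ U = U) (hW : W ≫ b = W)
    (hc : W ≫ G ≫ U = q • 𝟙 Z) (hq : β * q ≠ 1) :
    (A - β • (U ≫ W)) ≫ (G + (β / (1 - β * q)) • (G ≫ U ≫ W ≫ G)) = a ∧
      (G + (β / (1 - β * q)) • (G ≫ U ≫ W ≫ G)) ≫ (A - β • (U ≫ W)) = b := by
  have h0 : 1 - β * q ≠ 0 := fun h => hq (by linarith)
  have h1 : (β / (1 - β * q)) * (1 - β * q) = β := div_mul_cancel₀ _ h0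
  have hc' : ∀ {V : C} (f : Z ⟶ V), W ≫ G ≫ U ≫ f = q • f := by
    intro V f
    have h2 := congrArg (fun t => t ≫ f) hc
    simp only [Category.assoc, Linear.smul_comp, Category.id_comp] at h2
    exact h2
  have e1 : (A - β • (U ≫ W)) ≫ G = a - β • (U ≫ W ≫ G) := by
    rw [Preadditive.sub_comp, hAG, Linear.smul_comp, Category.assoc]
  have e2 : (A - β • (U ≫ W)) ≫ G ≫ U ≫ W ≫ G = (1 - β * q) • (U ≫ W ≫ G) := by
    rw [← Category.assoc, e1, Preadditive.sub_comp, Linear.smul_comp, Category.assoc,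
      Category.assoc, hc', ← Category.assoc a, hU, Linear.comp_smul, smul_smul, sub_smul, one_smul]
  have e3 : G ≫ (A - β • (U ≫ W)) = b - β • (G ≫ U ≫ W) := by
    rw [Preadditive.comp_sub, hGA, Linear.comp_smul]
  have e4 : W ≫ G ≫ (A - β • (U ≫ W)) = (1 - β * q) • W := by
    rw [e3, Preadditive.comp_sub, Linear.comp_smul, hc', hW, smul_smul, sub_smul, one_smul]
  constructor
  · rw [Preadditive.comp_add, e1, Linear.comp_smul, e2, smul_smul, h1, sub_add_cancel]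
  · have e5 : (G ≫ U ≫ W ≫ G) ≫ (A - β • (U ≫ W)) = (1 - β * q) • (G ≫ U ≫ W) := by
      rw [Category.assoc, Category.assoc, Category.assoc, e4, Linear.comp_smul, Linear.comp_smul]
    rw [Preadditive.add_comp, e3, Linear.smul_comp, e5, smul_smul, h1, sub_add_cancel]

namespace PointBlowUp

variable (B : PointBlowUp K P) (e : LCK K P)

theorem map_q {w : ℤ} {h : K.H.obj B.Y} (hh : h ∈ K.gr B.Y w) :
    (K.H.map (B.q e w)).hom h = h := by
  obtain ⟨D, hD⟩ := B.exists_ck e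
  rw [← hD]
  exact D.homology_self hh

theorem map_pow (s : ℕ) : ∀ (w : ℤ) (h : K.H.obj B.Y), h ∈ K.gr B.Y w →
    (K.H.map (pow B.M s)).hom h = (K.H.map (B.ld e w s)).hom h := by
  induction s with
  | zero =>
    intro w h hh
    rw [B.ld_zero, B.map_q e hh]
    show (K.H.map (𝟙 B.Y)).hom h = h
    rw [K.map_id_apply]
  | succ s ih =>
    intro w h hh
    have h1 : (K.H.map B.M).hom h ∈ K.gr B.Y (w - 2) := by
      have := K.map_gr (B.M_mem e) w h hh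
      rwa [mul_one] at this
    rw [low_pow_succ, K.map_comp_apply, ih (w - 2) _ h1, B.ld_succ, K.map_comp_apply,
      K.map_comp_apply, B.map_q e hh]

/-- the self-intersection number of `M` is not zero -/
theorem scalar_ne {G : P.X ⟶ P.X} (hG : G ∈ K.deg P.X P.X (-(B.n : ℤ)))
    (hGA : G ≫ lead e.p (2 * (B.n : ℤ)) (List.replicate B.n (1, B.L)) = e.p 0)
    {q : ℚ} (hc : (B.pt ≫ e.p 0) ≫ G ≫ e.p (2 * (B.n : ℤ)) ≫ B.pt' = q • 𝟙 (𝟙_ C)) :
    B.b ^ B.n * q ≠ 1 := by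
  intro hq
  obtain ⟨v, hv⟩ := B.nontrivial
  apply hv
  obtain ⟨W, hW⟩ : ∃ W, W = B.pt ≫ e.p 0 := ⟨_, rfl⟩
  have hWm : W ∈ K.deg (𝟙_ C) P.X 0 := by
    rw [hW]
    exact K.comp_mem' B.pt_mem (e.mem 0) (by ring)
  have hWe : W ≫ e.p 0 = W := by
    rw [hW, Category.assoc, e.idem]
  have hT : W ≫ G ≫ (lead e.p (2 * (B.n : ℤ)) (List.replicate B.n (1, B.L)) -
      B.b ^ B.n • (e.p (2 * (B.n : ℤ)) ≫ B.pt' ≫ B.pt ≫ e.p 0)) = 0 := by
    have h1 : W ≫ G ≫ e.p (2 * (B.n : ℤ)) ≫ B.pt' ≫ B.pt ≫ e.p 0 = q • W := by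
      have h2 := congrArg (fun t => t ≫ B.pt ≫ e.p 0) hc
      simp only [Linear.smul_comp, Category.id_comp] at h2
      rw [hW, ← h2]
      simp only [Category.assoc]
    rw [Preadditive.comp_sub, hGA, Preadditive.comp_sub, hWe, Linear.comp_smul, Linear.comp_smul,
      h1, smul_smul, hq, one_smul, sub_self]
  obtain ⟨y, hy⟩ : ∃ y, y = (K.H.map (W ≫ G ≫ B.inc)).hom v := ⟨_, rfl⟩
  have hym : y ∈ K.gr B.Y (2 * (B.n : ℤ)) := by
    have h1 : W ≫ G ≫ B.inc ∈ K.deg (𝟙_ C) B.Y (-(B.n : ℤ)) :=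
      K.comp_mem' hWm (K.comp_mem hG B.inc_mem) (by ring)
    have h2 := K.map_gr h1 0 v (K.unit_gr v)
    rw [hy]
    have h3 : (0 : ℤ) - 2 * (-(B.n : ℤ)) = 2 * (B.n : ℤ) := by ring
    rwa [h3] at h2
  have hy0 : y = 0 := by
    refine B.top y hym ?_
    have h1 := B.map_pow e B.n _ y hym
    rw [PointBlowUp.M] at h1
    rw [h1, hy, ← K.map_comp_apply]
    have h2 : (W ≫ G ≫ B.inc) ≫ B.ld e (2 * (B.n : ℤ)) B.n = 0 := by
      rw [Category.assoc, Category.assoc, B.inc_ld_top, ← Category.assoc G, ← Category.assoc W, hT,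
        Limits.zero_comp]
    rw [h2, K.map_zero_apply]
  have h1 : (K.H.map (W ≫ G)).hom v = 0 := by
    have h2 : W ≫ G = (W ≫ G ≫ B.inc) ≫ B.ret := by
      rw [Category.assoc, Category.assoc, B.inc_ret, Category.comp_id]
    rw [h2, K.map_comp_apply, ← hy, hy0, map_zero]
  have h2 : (K.H.map W).hom v = 0 := by
    have h3 : W = (W ≫ G) ≫ lead e.p (2 * (B.n : ℤ)) (List.replicate B.n (1, B.L)) := by
      rw [Category.assoc, hGA, hWe]
    rw [h3, K.map_comp_apply, h1, map_zero]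
  have h3 : (K.H.map B.pt).hom v = 0 := by
    have h4 : (K.H.map B.pt).hom v ∈ K.gr P.X 0 := by
      have := K.map_gr B.pt_mem 0 v (K.unit_gr v)
      simpa using this
    have h5 := e.toCK.homology_self h4
    rw [← K.map_comp_apply, ← hW, h2] at h5
    exact h5.symm
  have h4 : (K.H.map (B.pt ≫ B.ε)).hom v = v := by
    rw [B.pt_ε, K.map_id_apply]
  rw [K.map_comp_apply, h3, map_zero] at h4
  exact h4.symm

/-- hard Lefschetz for `M^n` -/
theorem hard_eq : ∃ G ∈ K.deg B.Y B.Y (-(B.n : ℤ)),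
    B.ld e (P.n + B.n) B.n ≫ G = B.q e (P.n + B.n) ∧
      G ≫ B.ld e (P.n + B.n) B.n = B.q e (P.n - B.n) := by
  have hN := B.n_eq
  have hn2 := B.two_le
  have ht : total (List.replicate B.n (1, B.L)) = (B.n : ℤ) := by
    rw [total_replicate, Nat.cast_one, mul_one]
  obtain ⟨G0, hG0, h1, h2⟩ := e.hard (List.replicate B.n (1, B.L))
    (by
      intro h
      have := congrArg List.length h
      rw [List.length_replicate, List.length_nil] at this
      omega)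
    (fun a ha => by
      rw [List.eq_of_mem_replicate ha]
      exact ⟨one_pos, B.L_mem⟩)
  have hw : P.n + (B.n : ℤ) = 2 * (B.n : ℤ) := by omega
  have hw0 : P.n - (B.n : ℤ) = 0 := by omega
  rw [ht] at hG0 h1 h2
  rw [hw] at h1 h2 ⊢
  rw [hw0] at h2 ⊢
  obtain ⟨A, hA⟩ : ∃ A, A = lead e.p (2 * (B.n : ℤ)) (List.replicate B.n (1, B.L)) := ⟨_, rfl⟩
  have hA1 : e.p (2 * (B.n : ℤ)) ≫ A = A := by
    rw [hA, p_lead e.idem]
  have hA2 : A ≫ e.p 0 = A := by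
    rw [hA, lead_p e.idem _ _ _ (by rw [ht]; ring)]
  rw [← hA] at h1 h2
  obtain ⟨G, hGd⟩ : ∃ G, G = e.p 0 ≫ G0 ≫ e.p (2 * (B.n : ℤ)) := ⟨_, rfl⟩
  have hG : G ∈ K.deg P.X P.X (-(B.n : ℤ)) := by
    rw [hGd]
    exact K.comp_mem' (e.mem _) (K.comp_mem hG0 (e.mem _)) (by ring)
  have hAG : A ≫ G = e.p (2 * (B.n : ℤ)) := by
    rw [hGd, ← Category.assoc, hA2, ← Category.assoc, h1, e.idem]
  have hGA : G ≫ A = e.p 0 := by
    rw [hGd, Category.assoc, Category.assoc, hA1, h2, e.idem]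
  obtain ⟨U, hU⟩ : ∃ U, U = e.p (2 * (B.n : ℤ)) ≫ B.pt' := ⟨_, rfl⟩
  obtain ⟨W, hW⟩ : ∃ W, W = B.pt ≫ e.p 0 := ⟨_, rfl⟩
  have hUm : U ∈ K.deg P.X (𝟙_ C) B.n := by
    rw [hU]
    exact K.comp_mem' (e.mem _) B.pt'_mem (by ring)
  have hWm : W ∈ K.deg (𝟙_ C) P.X 0 := by
    rw [hW]
    exact K.comp_mem' B.pt_mem (e.mem 0) (by ring)
  obtain ⟨q, hq⟩ := B.scalar (W ≫ G ≫ U) (K.comp_mem' hWm (K.comp_mem hG hUm) (by ring))
  have hne : B.b ^ B.n * q ≠ 1 := by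
    refine B.scalar_ne e hG (by rw [← hA]; exact hGA) ?_
    rw [← hU, ← hW]
    exact hq
  obtain ⟨k1, k2⟩ := rank_one A G (e.p (2 * (B.n : ℤ))) (e.p 0) U W (B.b ^ B.n) q hAG hGA
    (by rw [hU, ← Category.assoc, e.idem]) (by rw [hW, Category.assoc, e.idem]) hq hne
  obtain ⟨T, hT⟩ : ∃ T, T = A - B.b ^ B.n • (U ≫ W) := ⟨_, rfl⟩
  obtain ⟨G2, hG2⟩ : ∃ G2, G2 = G + (B.b ^ B.n / (1 - B.b ^ B.n * q)) • (G ≫ U ≫ W ≫ G) :=
    ⟨_, rfl⟩
  rw [← hT, ← hG2] at k1 k2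
  have hG2m : G2 ∈ K.deg P.X P.X (-(B.n : ℤ)) := by
    rw [hG2]
    exact Submodule.add_mem _ hG (Submodule.smul_mem _ _
      (K.comp_mem' hG (K.comp_mem hUm (K.comp_mem hWm hG)) (by ring)))
  have hT1 : e.p (2 * (B.n : ℤ)) ≫ T = T := by
    rw [hT, Preadditive.comp_sub, hA1, Linear.comp_smul, ← Category.assoc (e.p _) U, hU,
      ← Category.assoc (e.p _) (e.p _), e.idem]
  have f1 : B.ex (2 * (B.n : ℤ)) = 0 := sum_none fun k h3 h4 h5 => by omega
  have f2 : B.ex 0 = 0 := sum_none fun k h3 h4 h5 => by omega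
  have hld : B.ld e (2 * (B.n : ℤ)) B.n = B.ret ≫ T ≫ B.inc := by
    have h3 := B.inc_ld_top e
    have h4 : A - B.b ^ B.n • (e.p (2 * (B.n : ℤ)) ≫ B.pt' ≫ B.pt ≫ e.p 0) = T := by
      rw [hT, hU, hW, Category.assoc]
    rw [← hA, h4] at h3
    rw [← B.q_ld, PointBlowUp.q, f1, add_zero, Category.assoc, Category.assoc, h3,
      ← Category.assoc (e.p _) T, hT1]
  have hret : ∀ {Z : C} (f : P.X ⟶ Z), B.inc ≫ B.ret ≫ f = f := by
    intro Z f
    rw [← Category.assoc, B.inc_ret, Category.id_comp]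
  refine ⟨B.ret ≫ G2 ≫ B.inc, K.comp_mem' B.ret_mem (K.comp_mem hG2m B.inc_mem) (by ring), ?_, ?_⟩
  · rw [hld, PointBlowUp.q, f1, add_zero, ← k1]
    simp only [Category.assoc, hret]
  · rw [hld, PointBlowUp.q, f2, add_zero, ← k2]
    simp only [Category.assoc, hret]

/-- hard Lefschetz for `M^s` -/
theorem hard_all (s : ℕ) (hs : 0 < s) : ∃ G ∈ K.deg B.Y B.Y (-(s : ℤ)),
    B.ld e (P.n + s) s ≫ G = B.q e (P.n + s) ∧ G ≫ B.ld e (P.n + s) s = B.q e (P.n - s) := by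
  have hN := B.n_eq
  rcases lt_trichotomy s B.n with h | h | h
  · exact B.hard_lt e s hs h
  · rw [h]
    exact B.hard_eq e
  · have f1 : B.ex (P.n + s) = 0 := sum_none fun k h3 h4 h5 => by omega
    have f2 : B.ex (P.n - s) = 0 := sum_none fun k h3 h4 h5 => by omega
    have g1 : B.q e (P.n + s) = 0 := by
      rw [q, f1, e_high B e _ (by omega), Limits.zero_comp, Limits.comp_zero, add_zero]
    have g2 : B.q e (P.n - s) = 0 := by
      rw [q, f2, e_low B e _ (by omega), Limits.zero_comp, Limits.comp_zero, add_zero]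
    refine ⟨0, Submodule.zero_mem _, ?_, ?_⟩
    · rw [g1, Limits.comp_zero]
    · rw [g2, Limits.zero_comp]

theorem lead_list (l : List (ℕ × (B.Y ⟶ B.Y)))
    (hl : ∀ a ∈ l, a.1 = 1 ∧ ∃ r : ℚ, 0 < r ∧ a.2 = r • B.M) :
    total l = (l.length : ℤ) ∧ ∃ r : ℚ, 0 < r ∧ ∀ w : ℤ, lead (B.q e) w l = r • B.ld e w l.length := by
  induction l with
  | nil =>
    refine ⟨by rw [total_nil, List.length_nil, Nat.cast_zero], 1, one_pos, fun w => ?_⟩
    rw [one_smul]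
    rfl
  | cons a l ih =>
    obtain ⟨h1, r', hr', h2⟩ := hl a (by simp)
    obtain ⟨h3, r, hr, h4⟩ := ih fun b hb => hl b (List.mem_cons_of_mem _ hb)
    refine ⟨?_, r' * r, mul_pos hr' hr, fun w => ?_⟩
    · rw [total_cons, h1, h3, List.length_cons]
      push_cast
      ring
    · rw [lead_cons, h1, h2, h4, Nat.cast_one, mul_one, List.length_cons, B.ld_succ,
        Linear.smul_comp, Linear.comp_smul, Linear.comp_smul, Linear.comp_smul, smul_smul]

end PointBlowUp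

end Pool.Agent.LckM
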