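import Pool.Agent.LckM.Defs

/-!
# The fields of the structures in `Defs.lean` in unfolded form
-/

set_option autoImplicit false

open CategoryTheory MonoidalCategory
open Pool.Agent.LefCK

universe w v u

namespace Pool.Agent.LckM

section one

variable {C : Type u} [Category.{v} C] [Preadditive C] [Linear ℚ C]
  [MonoidalCategory C] {F : Type w} [Field F]

namespace Duality

variable {K : Correspondences C F} {D : Divisors K} (T : Duality K D)

/-- the transposed correspondence -/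
def t {X Y : C} : (X ⟶ Y) →ₗ[ℚ] (Y ⟶ X) := (AddMonoidHom.mk' T.tr T.tr_add).toRatLinearMap

theorem t_t {X Y : C} (f : X ⟶ Y) : T.t (T.t f) = f := T.tr_tr f

theorem t_id (X : C) : T.t (𝟙 X) = 𝟙 X := T.tr_id X

theorem t_comp {X Y Z : C} (f : X ⟶ Y) (g : Y ⟶ Z) : T.t (f ≫ g) = T.t g ≫ T.t f := T.tr_comp f g

theorem t_mem {X Y : C} {d : ℤ} {f : X ⟶ Y} (hf : f ∈ K.deg X Y d) :
    T.t f ∈ K.deg Y X (d + D.dim Y - D.dim X) := T.tr_mem hf

theorem t_act {X : C} {f : X ⟶ X} (hf : f ∈ K.deg X X 0) (j : ℤ) (c : F)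
    (h : ∀ x ∈ K.gr X j, (K.H.map f).hom x = c • x) :
    ∀ x ∈ K.gr X (2 * D.dim X - j), (K.H.map (T.t f)).hom x = c • x := T.tr_act hf j c h

theorem graph_comp {X' X Y Y' : C} (g : X' ⟶ X) (f : X ⟶ Y) (h : Y ⟶ Y') :
    T.graph (g ≫ f ≫ h) = T.graph f ≫ (T.t g ⊗ₘ h) := T.graph_tr g f h

end Duality

namespace PointBlowUp

variable {K : Correspondences C F} {P : Pol C} (Q : PointBlowUp K P)

include Q in
theorem scalar : ∀ f ∈ K.deg (𝟙_ C) (𝟙_ C) 0, ∃ q : ℚ, f = q • 𝟙 (𝟙_ C) := Q.scal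

theorem top : ∀ y ∈ K.gr Q.Y (2 * (Q.n : ℤ)),
    (K.H.map (pow (Q.ret ≫ Q.L ≫ Q.inc - Q.b • Q.E) Q.n)).hom y = 0 → y = 0 := Q.top_act

end PointBlowUp

namespace Standard

variable {K : Correspondences C F} {P : Pol C} (h : Standard K P)

include h

theorem bounded : ∀ i : ℤ, i < 0 ∨ 2 * P.n < i → ∀ x ∈ K.gr P.X i, x = 0 := h.bounded_act

theorem kunneth : ∀ i : ℤ, ∃ π ∈ K.deg P.X P.X 0, ∀ j : ℤ, ∀ x ∈ K.gr P.X j,
    (K.H.map π).hom x = if j = i then x else 0 := h.kunneth_act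

theorem lefschetz : ∃ L ∈ K.deg P.X P.X 1,
    (∀ c g, g ∈ P.L c ↔ c = 1 ∧ ∃ q : ℚ, 0 < q ∧ g = q • L) ∧
    ∀ s : ℕ, 0 < s → ∃ Λ ∈ K.deg P.X P.X (-(s : ℤ)),
      (∀ x ∈ K.gr P.X (P.n + s), (K.H.map (pow L s ≫ Λ)).hom x = x) ∧
      ∀ x ∈ K.gr P.X (P.n - s), (K.H.map (Λ ≫ pow L s)).hom x = x := h.lefschetz_act

end Standard

/-- The homologically trivial correspondences `X → X` form a nilpotent ideal: the product of any
`N` of them (of arbitrary degrees) vanishes. -/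
def NilpotentIdeal (K : Correspondences C F) (X : C) : Prop :=
  ∃ N : ℕ, ∀ l : List (X ⟶ X), l.length = N →
    (∀ f ∈ l, (∃ d : ℤ, f ∈ K.deg X X d) ∧ K.H.map f = 0) → l.foldr (· ≫ ·) (𝟙 X) = 0

theorem Mot.CK.homology {K : Correspondences C F} {M : Mot K} (e : M.CK) :
    ∀ (i j : ℤ) (x : K.H.obj M.X), x ∈ K.gr M.X (j - 2 * M.r) →
    (K.H.map (e.p i)).hom x = if j = i then (K.H.map M.f).hom x else 0 := e.hom_act

end one

section two

variable {C : Type u} [Category.{v} C] [Preadditive C] [Linear ℚ C] [MonoidalCategory C]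
  {C' : Type u} [Category.{v} C'] [Preadditive C'] [Linear ℚ C'] [MonoidalCategory C']
  {F : Type w} [Field F]

namespace BaseChange

variable {K : Correspondences C F} {K' : Correspondences C' F} (B : BaseChange K K')

theorem map_smul {X Y : C} (q : ℚ) (f : X ⟶ Y) : B.Φ.map (q • f) = q • B.Φ.map f := B.map_sm q f

/-- the isomorphism of the homology groups -/
def H (X : C) : K.H.obj X ≃ₗ[F] K'.H.obj (B.Φ.obj X) := (B.iso.app X).toLinearEquiv

theorem H_map {X Y : C} (f : X ⟶ Y) (x : K.H.obj X) :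
    (K'.H.map (B.Φ.map f)).hom (B.H X x) = B.H Y ((K.H.map f).hom x) :=
  (LinearMap.congr_fun (congrArg ModuleCat.Hom.hom (B.iso.hom.naturality f)) x).symm

theorem H_gr (X : C) (j : ℤ) : ∀ x ∈ K.gr X j, B.H X x ∈ K'.gr (B.Φ.obj X) j := B.iso_wt X j

end BaseChange

end two

theorem Fields.Pencils.pencil {F : Type w} [Field F] {G : Fields.{w, v, u} F} {V : G.Class}
    (hV : G.Pencils V) {k : G.Fld} {P : Pol (G.th k).C} (hk : G.Closed k) (hP : V k P)
    (hn : 0 < P.n) :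
    ∃ (L : P.X ⟶ P.X) (k' : G.Fld) (B : BaseChange (G.th k).K (G.th k').K)
      (Z : ZeroLocus (G.th k').K (B.pol P)), L ∈ P.L 1 ∧ G.Closed k' ∧ Has (V k') (B.pol P) ∧
        Z.c = 1 ∧
        Z.pull ≫ Z.push = B.Φ.map L ∧ Has (V k') Z.pol ∧
        ∀ l : ℤ, P.n < 2 * l → l < P.n → ∀ x ∈ CH (G.th k).K P.X l, B.cyc x ≫ Z.pull = 0 →
          x ∈ Submodule.span ℚ {γ | FromMember (G.th k).K (V k) P L l γ} := by
  obtain ⟨k', B, hk', L, Z, hL, h⟩ := hV.generic hk hP hn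
  exact ⟨L, k', B, Z, hL, hk', h⟩

end Pool.Agent.LckM
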