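import Pool.Agent.LckM.FromMurre

/-!
# Nilpotence: any two Chow-Kuenneth decompositions are conjugate
-/

set_option autoImplicit false

open CategoryTheory MonoidalCategory
open Pool.Agent.LefCK

universe w v u

namespace Pool.Agent.LckM

section one

variable {C : Type u} [Category.{v} C] [Preadditive C] [Linear ℚ C]
  [MonoidalCategory C] {F : Type w} [Field F] {K : Correspondences C F} {X : C}

theorem pow_eq (f : End X) (N : ℕ) : pow (show X ⟶ X from f) N = (f ^ N : End X) := by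
  induction N with
  | zero =>
    rw [pow_zero]
    rfl
  | succ N ih =>
    show pow (show X ⟶ X from f) N ≫ (show X ⟶ X from f) = (f ^ (N + 1) : End X)
    rw [ih, pow_succ']
    rfl

/-- a homologically trivial correspondence of degree 0 is nilpotent -/
theorem NilHom.isNilpotent (hN : NilHom K X) {n : X ⟶ X}
    (hn : n ∈ K.deg X X 0) (h0 : K.H.map n = 0) :
    IsNilpotent (⟨n, hn⟩ : K.zeroRing X) := by
  obtain ⟨N, hN⟩ := hN n hn h0
  refine ⟨N, ?_⟩
  apply Subtype.ext
  rw [pow_eq (X := X) n N] at hN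
  exact hN

/-- a correspondence of degree 0 which acts as the identity on the homology is invertible -/
theorem NilHom.exists_inv (hN : NilHom K X) {v : X ⟶ X}
    (hv : v ∈ K.deg X X 0) (h0 : ∀ x : K.H.obj X, (K.H.map v).hom x = x) :
    ∃ u ∈ K.deg X X 0, u ≫ v = 𝟙 X ∧ v ≫ u = 𝟙 X := by
  have := K.additive
  have hn : v - 𝟙 X ∈ K.deg X X 0 := Submodule.sub_mem _ hv (K.id_mem X)
  have h1 : K.H.map (v - 𝟙 X) = 0 := by
    ext x
    change (K.H.map (v - 𝟙 X)).hom x = 0
    rw [K.map_sub_apply, K.map_id_apply, h0, sub_self]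
  have h2 := (hN.isNilpotent hn h1).isUnit_one_add
  obtain ⟨u, hu1, hu2⟩ : ∃ u : K.zeroRing X, u * (1 + ⟨v - 𝟙 X, hn⟩) = 1 ∧
      (1 + ⟨v - 𝟙 X, hn⟩) * u = 1 := by
    obtain ⟨w, hw⟩ := h2
    exact ⟨(w⁻¹ : (K.zeroRing X)ˣ), by rw [← hw, Units.inv_mul], by rw [← hw, Units.mul_inv]⟩
  have h3 : ((1 + ⟨v - 𝟙 X, hn⟩ : K.zeroRing X) : End X) = v := by
    change (𝟙 X + (v - 𝟙 X) : X ⟶ X) = v
    abel
  refine ⟨(u : End X), u.2, ?_, ?_⟩
  · have h4 := congrArg (fun t : K.zeroRing X => (t : End X)) hu2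
    change ((1 + ⟨v - 𝟙 X, hn⟩ : K.zeroRing X) : End X) * (u : End X) = 𝟙 X at h4
    rw [h3] at h4
    exact h4
  · have h4 := congrArg (fun t : K.zeroRing X => (t : End X)) hu1
    change (u : End X) * ((1 + ⟨v - 𝟙 X, hn⟩ : K.zeroRing X) : End X) = 𝟙 X at h4
    rw [h3] at h4
    exact h4

/-- **any two Chow-Kuenneth decompositions are conjugate** -/
theorem NilHom.conj (hN : NilHom K X) (e e' : CK K X) :
    ∃ u ∈ K.deg X X 0, ∃ v ∈ K.deg X X 0, u ≫ v = 𝟙 X ∧ v ≫ u = 𝟙 X ∧
      ∀ i, e'.p i = u ≫ e.p i ≫ v := by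
  classical
  have := K.additive
  obtain ⟨s, hs, hs1⟩ := e.exists_finset
  obtain ⟨s', hs', hs1'⟩ := e'.exists_finset
  obtain ⟨v, hvd⟩ : ∃ v : X ⟶ X, v = ∑ i ∈ s ∪ s', e.p i ≫ e'.p i := ⟨_, rfl⟩
  have hv : v ∈ K.deg X X 0 := by
    rw [hvd]
    exact Submodule.sum_mem _ fun i _ => K.comp_mem' (e.mem i) (e'.mem i) (add_zero 0)
  have hvH : ∀ x : K.H.obj X, (K.H.map v).hom x = x := by
    intro x
    induction x using K.gr_induction with
    | zero => rw [map_zero]
    | mem j x hx =>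
      rw [hvd, K.map_sum_apply]
      have h1 : ∀ i, (K.H.map (e.p i ≫ e'.p i)).hom x = if j = i then x else 0 := by
        intro i
        rw [K.map_comp_apply, e.homology i j x hx]
        split_ifs with h
        · rw [e'.homology i j x hx, if_pos h]
        · rw [map_zero]
      by_cases hj : j ∈ s ∪ s'
      · rw [Finset.sum_eq_single_of_mem j hj]
        · rw [h1, if_pos rfl]
        · intro i _ hi
          rw [h1, if_neg (Ne.symm hi)]
      · have hx0 : x = 0 := by
          have h2 := e.homology_self hx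
          rw [hs j (fun h => hj (Finset.mem_union_left _ h)), K.map_zero_apply] at h2
          exact h2.symm
        rw [hx0]
        exact Finset.sum_eq_zero fun i _ => map_zero _
    | add x y hx hy => rw [map_add, hx, hy]
  obtain ⟨u, hu, h1, h2⟩ := hN.exists_inv hv hvH
  refine ⟨u, hu, v, hv, h1, h2, fun i => ?_⟩
  have h3 : e.p i ≫ v = e.p i ≫ e'.p i := by
    rw [hvd, Preadditive.comp_sum]
    by_cases hi : i ∈ s ∪ s'
    · rw [Finset.sum_eq_single_of_mem i hi]
      · rw [← Category.assoc, e.idem]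
      · intro j _ hj
        rw [← Category.assoc, e.orth i j (Ne.symm hj), Limits.zero_comp]
    · rw [hs i (fun h => hi (Finset.mem_union_left _ h)), Limits.zero_comp]
      exact Finset.sum_eq_zero fun j _ => Limits.zero_comp
  have h4 : v ≫ e'.p i = e.p i ≫ e'.p i := by
    rw [hvd, Preadditive.sum_comp]
    by_cases hi : i ∈ s ∪ s'
    · rw [Finset.sum_eq_single_of_mem i hi]
      · rw [Category.assoc, e'.idem]
      · intro j _ hj
        rw [Category.assoc, e'.orth j i hj, Limits.comp_zero]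
    · rw [hs' i (fun h => hi (Finset.mem_union_right _ h)), Limits.comp_zero]
      exact Finset.sum_eq_zero fun j _ => Limits.comp_zero
  rw [h3, ← h4, ← Category.assoc, h1, Category.id_comp]

/-- (D) does not depend on the decomposition -/
theorem NilHom.murreD (hN : NilHom K X) {e : CK K X} {l : ℤ}
    (h : e.MurreD l) (e' : CK K X) : e'.MurreD l := by
  have := K.additive
  obtain ⟨u, hu, v, -, -, -, h1⟩ := hN.conj e e'
  intro x hx h0
  have h2 : (x ≫ u) ≫ e.p (2 * l) = 0 := by
    refine h (x ≫ u) (K.comp_mem' hx hu (add_zero _)) ?_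
    rw [K.H.map_comp, h0, Limits.zero_comp]
  rw [h1, ← Category.assoc, ← Category.assoc, h2, Limits.zero_comp]

/-- (B) does not depend on the decomposition -/
theorem NilHom.murreB (hN : NilHom K X) {e : CK K X} {l : ℤ}
    (h : e.MurreB l) (e' : CK K X) : e'.MurreB l := by
  obtain ⟨u, hu, v, -, -, -, h1⟩ := hN.conj e e'
  intro x hx i hi
  have h2 : (x ≫ u) ≫ e.p i = 0 := h (x ≫ u) (K.comp_mem' hx hu (add_zero _)) i hi
  rw [h1, ← Category.assoc, ← Category.assoc, h2, Limits.zero_comp]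

end one

variable {F : Type w} [Field F] {G : Fields.{w, v, u} F} {V : G.Class}

theorem middleD_of_middleCK (hN : ∀ k P, V k P → NilHom (G.th k).K P.X) {m : ℕ}
    (h : G.MiddleCK V m) : G.MiddleD V m := by
  intro k P hk hP hn e
  obtain ⟨e0, he0⟩ := h k P hk hP hn
  exact (hN k P hP).murreD he0 e.toCK

theorem middleCK_of_middleD (hl : ∀ k P, V k P → Nonempty (LCK (G.th k).K P)) {m : ℕ}
    (h : G.MiddleD V m) : G.MiddleCK V m := by
  intro k P hk hP hn
  obtain ⟨e⟩ := hl k P hP
  exact ⟨e.toCK, h k P hk hP hn e⟩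

theorem middleCK_of_allMurre
    (h : ∀ (k : G.Fld) (P : Pol (G.th k).C), V k P → ∀ M : Mot (G.th k).K, M.X = P.X → M.Murre)
    (m : ℕ) : G.MiddleCK V m := by
  intro k P hk hP hn
  obtain ⟨e, he⟩ := ck_of_allMurre h hP
  exact ⟨e, (he m).2⟩

end Pool.Agent.LckM
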