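import Pool.Agent.LefCK.LowDefs

/-!
# Murre's conjectures for classes of varieties with a Lefschetz-Chow-Kuenneth decomposition

Definitions for the result `MP_38de51_ag.MiddleLCK`. The setting: the correspondences between the
smooth projective varieties over all fields `k` (of one characteristic) with a Weil homology, base
change, generic hyperplane sections and pencils, blow-ups of points.
-/

set_option autoImplicit false

open CategoryTheory MonoidalCategory
open Pool.Agent.LefCK

universe w v u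

namespace Pool.Agent.LckM

section one

variable {C : Type u} [Category.{v} C] [Preadditive C] [Linear ℚ C]
  [MonoidalCategory C] {F : Type w} [Field F]

/-- `f : X ⟶ Y` is a correspondence of degree `d`. -/
abbrev Deg (K : Correspondences C F) (d : ℤ) {X Y : C} (f : X ⟶ Y) : Prop := f ∈ K.deg X Y d

/-- `x ∈ CH_l(X)` -/
abbrev Cyc (K : Correspondences C F) (l : ℤ) {X : C} (x : 𝟙_ C ⟶ X) : Prop := x ∈ CH K X l

/-- `h ∈ H_j(X)` -/
abbrev Wt (K : Correspondences C F) (j : ℤ) {X : C} (h : K.H.obj X) : Prop := h ∈ K.gr X j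

/-- the action of a correspondence on the homology -/
abbrev act (K : Correspondences C F) {X Y : C} (f : X ⟶ Y) (h : K.H.obj X) : K.H.obj Y :=
  (K.H.map f).hom h

/-- `f` is homologically trivial. -/
abbrev Triv (K : Correspondences C F) {X Y : C} (f : X ⟶ Y) : Prop := K.H.map f = 0

/-- `f` acts on `H_j(X)` as multiplication by `c`. -/
abbrev Mult (K : Correspondences C F) {X : C} (j : ℤ) (f : X ⟶ X) (c : F) : Prop :=
  ∀ h, Wt K j h → act K f h = c • h

/-- `CH_l(M_i) = 0` -/
abbrev Zero {K : Correspondences C F} {X : C} (e : CK K X) (l i : ℤ) : Prop :=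
  ∀ x, Cyc K l x → x ≫ e.p i = 0

/-- `q • f` -/
abbrev sm {X Y : C} (q : ℚ) (f : X ⟶ Y) : X ⟶ Y := q • f

/-- `g` is a positive multiple of `L`. -/
abbrev Pos {X : C} (L g : X ⟶ X) : Prop := ∃ q : ℚ, 0 < q ∧ g = sm q L

/-- Transposition of correspondences, and the class in `CH_*(X × Y)` of a correspondence. -/
structure Duality (K : Correspondences C F) (D : Divisors K) where
  /-- a point has dimension 0 -/
  dim_unit : D.dim (𝟙_ C) = 0
  /-- the transposed correspondence -/
  tr : ∀ {X Y : C}, (X ⟶ Y) → (Y ⟶ X)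
  tr_add : ∀ {X Y : C} (f g : X ⟶ Y), tr (f + g) = tr f + tr g
  tr_tr : ∀ {X Y : C} (f : X ⟶ Y), tr (tr f) = f
  tr_id : ∀ X : C, tr (𝟙 X) = 𝟙 X
  tr_comp : ∀ {X Y Z : C} (f : X ⟶ Y) (g : Y ⟶ Z), tr (f ≫ g) = tr g ≫ tr f
  /-- `CH_l(X × Y) = CH_l(Y × X)` -/
  tr_mem : ∀ {X Y : C} {d : ℤ} {f : X ⟶ Y}, Deg K d f → Deg K (d + D.dim Y - D.dim X) (tr f)
  /-- Poincare duality: if `f` acts on `H_j(X)` as multiplication by `c`, then its transpose acts
  on `H_(2 dim X - j)(X)` as multiplication by `c` -/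
  tr_act : ∀ {X : C} {f : X ⟶ X}, Deg K 0 f → ∀ (j : ℤ) (c : F),
    Mult K j f c → Mult K (2 * D.dim X - j) (tr f) c
  /-- the class of a correspondence in `CH_*(X × Y)` -/
  graph : ∀ {X Y : C}, (X ⟶ Y) → (𝟙_ C ⟶ X ⊗ Y)
  graph_inj : ∀ {X Y : C} (f : X ⟶ Y), graph f = 0 → f = 0
  graph_mem : ∀ {X Y : C} {d : ℤ} {f : X ⟶ Y}, Deg K d f → Cyc K (D.dim X - d) (graph f)
  /-- the class of `g ≫ f ≫ h` is the image of the class of `f` under `gᵗ × h` -/
  graph_tr : ∀ {X' X Y Y' : C} (g : X' ⟶ X) (f : X ⟶ Y) (h : Y ⟶ Y'),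
    graph (g ≫ f ≫ h) = graph f ≫ (tr g ⊗ₘ h)
  /-- a correspondence which acts as zero on the homology has the homology class zero -/
  graph_hom : ∀ {X Y : C} (f : X ⟶ Y), Triv K f → Triv K (graph f)

/-- `(X, n, Lᵗ)`. The intersection with a cycle is its own transpose, the transpose of an
automorphism is its inverse. -/
def Duality.pol {K : Correspondences C F} {D : Divisors K} (T : Duality K D) (P : Pol C) :
    Pol C where
  X := P.X
  n := P.n
  L := fun c => {g | ∃ L ∈ P.L c, g = T.tr L}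

/-- The blow-up `σ : Y → X` of a point `y` on the variety `X = P.X` of dimension `n ≥ 2`, with the
ample class `M = σ^*L - b E`, where `L` is a distinguished ample class on `X` and `E ≅ P^(n-1)` is the
exceptional divisor. Here `x i ∈ CH_i(Y)`, `1 ≤ i ≤ n - 1`, is the class of a linear subspace of
dimension `i` of `E`, and `ξ i` is `(-1)^i` times the intersection number with `E^i`. -/
structure PointBlowUp (K : Correspondences C F) (P : Pol C) where
  /-- `n = dim X` -/
  n : ℕ
  n_eq : P.n = n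
  two_le : 2 ≤ n
  /-- an ample class on `X` -/
  L : P.X ⟶ P.X
  L_mem : L ∈ P.L 1
  /-- there are no cycles of negative dimension -/
  nil : pow L (n + 1) = 0
  /-- the blow-up -/
  Y : C
  /-- `σ^* : h(X) → h(Y)` -/
  inc : P.X ⟶ Y
  /-- `σ_* : h(Y) → h(X)` -/
  ret : Y ⟶ P.X
  inc_mem : Deg K 0 inc
  ret_mem : Deg K 0 ret
  inc_ret : inc ≫ ret = 𝟙 P.X
  /-- the classes of the linear subspaces of `E` -/
  x : ℕ → (𝟙_ C ⟶ Y)
  x_mem : ∀ i : ℕ, Cyc K i (x i)
  /-- the dual classes -/
  ξ : ℕ → (Y ⟶ 𝟙_ C)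
  ξ_mem : ∀ i : ℕ, Deg K i (ξ i)
  pairing : ∀ i j, 1 ≤ i → i < n → 1 ≤ j → j < n →
    x i ≫ ξ j = if i = j then 𝟙 (𝟙_ C) else 0
  x_ret : ∀ i, 1 ≤ i → i < n → x i ≫ ret = 0
  inc_ξ : ∀ i, 1 ≤ i → i < n → inc ≫ ξ i = 0
  /-- the motive of a blow-up -/
  sum : ret ≫ inc + ∑ i ∈ Finset.Ico 1 n, ξ i ≫ x i = 𝟙 Y
  /-- the class of the point `y` -/
  pt : 𝟙_ C ⟶ P.X
  pt_mem : Cyc K 0 pt
  /-- the degree of zero-cycles, `h(X) → h(y)` -/
  ε : P.X ⟶ 𝟙_ C
  ε_mem : Deg K 0 ε
  pt_ε : pt ≫ ε = 𝟙 (𝟙_ C)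
  /-- the zero-cycles on a point are the multiples of the point -/
  scal : ∀ f : 𝟙_ C ⟶ 𝟙_ C, Deg K 0 f → ∃ q : ℚ, f = sm q (𝟙 (𝟙_ C))
  /-- the homology of a point is not zero -/
  nontrivial : ∃ v : K.H.obj (𝟙_ C), v ≠ 0
  /-- the pull-back to the point `y`, `h(X) → h(y)(n)` -/
  pt' : P.X ⟶ 𝟙_ C
  pt'_mem : Deg K n pt'
  /-- the intersection with the exceptional divisor -/
  E : Y ⟶ Y
  /-- `E · σ^*[X] = [E]`, `E · σ^*z = 0` for cycles `z` of dimension `< n`, `E · x i = -x (i-1)` for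
  `i ≥ 2`, and `E · x 1 = -σ^*[y]` -/
  E_eq : E = ret ≫ pt' ≫ x (n - 1) - ∑ i ∈ Finset.Ico 2 n, ξ i ≫ x (i - 1) - ξ 1 ≫ pt ≫ inc
  /-- the multiplicity of the exceptional divisor -/
  b : ℚ
  b_pos : 0 < b
  /-- the ample class `M` has a nonzero self-intersection number: `M^n` is injective on
  `H_2n(Y)` -/
  top_act : ∀ y, Wt K (2 * (n : ℤ)) y → act K (pow (ret ≫ L ≫ inc - sm b E) n) y = 0 → y = 0

/-- The ample class `M = σ^*L - b E`. -/
def PointBlowUp.M {K : Correspondences C F} {P : Pol C} (Q : PointBlowUp K P) : Q.Y ⟶ Q.Y :=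
  Q.ret ≫ Q.L ≫ Q.inc - sm Q.b Q.E

/-- `(Y, n)` with the positive multiples of the ample class `M = σ^*L - b E`. -/
def PointBlowUp.pol {K : Correspondences C F} {P : Pol C} (Q : PointBlowUp K P) : Pol C where
  X := Q.Y
  n := P.n
  L := fun d => {g | d = 1 ∧ Pos Q.M g}

/-- `V` contains `P = (X, n, L)` with some of the distinguished correspondences of `P`. -/
def Has (V : Pol C → Prop) (P : Pol C) : Prop :=
  ∃ L' : ℕ → Set (P.X ⟶ P.X), (∀ c, L' c ⊆ P.L c) ∧ V ⟨P.X, P.n, L'⟩

/-- `P = (X, n, L)` where the distinguished correspondences are the positive multiples of one ample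
class, and the standard conjecture of Lefschetz type holds: the Kuenneth projectors of `X` and the
inverses of `L^s : H_(n+s)(X) → H_(n-s)(X)` are algebraic. -/
structure Standard (K : Correspondences C F) (P : Pol C) : Prop where
  bounded_act : ∀ i : ℤ, i < 0 ∨ 2 * P.n < i → ∀ x : K.H.obj P.X, Wt K i x → x = 0
  kunneth_act : ∀ i : ℤ, ∃ π : P.X ⟶ P.X, Deg K 0 π ∧ ∀ j : ℤ, ∀ x, Wt K j x →
    act K π x = if j = i then x else 0
  lefschetz_act : ∃ L : P.X ⟶ P.X, Deg K 1 L ∧ (∀ c g, g ∈ P.L c ↔ c = 1 ∧ Pos L g) ∧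
    ∀ s : ℕ, 0 < s → ∃ Λ : P.X ⟶ P.X, Deg K (-(s : ℤ)) Λ ∧
      (∀ x, Wt K (P.n + s) x → act K (pow L s ≫ Λ) x = x) ∧
      ∀ x, Wt K (P.n - s) x → act K (Λ ≫ pow L s) x = x

/-- The homologically trivial correspondences `X → X` of degree 0 are nilpotent. -/
def NilHom (K : Correspondences C F) (X : C) : Prop :=
  ∀ θ : X ⟶ X, Deg K 0 θ → Triv K θ → ∃ N : ℕ, pow θ N = 0

/-- A correspondence `θ` on `X` of degree 0 which acts as zero on `H_j(X)` for `j ≠ 2m` is locally
nilpotent on `CH_m(X)_hom`. -/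
def MidNil (K : Correspondences C F) (X : C) (m : ℕ) : Prop :=
  ∀ θ : X ⟶ X, Deg K 0 θ → (∀ j : ℤ, j ≠ 2 * m → ∀ h, Wt K j h → act K θ h = 0) →
    ∀ x, Cyc K m x → Triv K x → ∃ N : ℕ, x ≫ pow θ N = 0

/-- A motive `(X, f, r)`, the image of the idempotent `f` in `h(X)(r)`. -/
structure Mot (K : Correspondences C F) where
  X : C
  f : X ⟶ X
  r : ℤ
  mem : Deg K 0 f
  idem : f ≫ f = f

/-- `CH_l(M) = CH_(l-r)(X) f` -/
def Mot.CH {K : Correspondences C F} (M : Mot K) (l : ℤ) : Set (𝟙_ C ⟶ M.X) :=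
  {x | Cyc K (l - M.r) x ∧ x ≫ M.f = x}

/-- A Chow-Kuenneth decomposition of the motive `M = (X, f, r)`: a decomposition of `f` into
orthogonal idempotents `p i` such that the homology of the image `M_i` of `p i` is
`H_i(M) = H_(i-2r)(X) f`. -/
structure Mot.CK {K : Correspondences C F} (M : Mot K) where
  /-- the projector onto `M_i` -/
  p : ℤ → (M.X ⟶ M.X)
  mem : ∀ i, Deg K 0 (p i)
  idem : ∀ i, p i ≫ p i = p i
  orth : ∀ i j, i ≠ j → p i ≫ p j = 0
  finite : (Function.support p).Finite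
  sum : ∑ᶠ i, p i = M.f
  hom_act : ∀ (i j : ℤ) (x : K.H.obj M.X), Wt K (j - 2 * M.r) x →
    act K (p i) x = if j = i then act K M.f x else 0

namespace Mot

variable {K : Correspondences C F} {M : Mot K}

/-- (B): `CH_l(M_i) = 0` for `i < 2l`. -/
def CK.B (e : M.CK) : Prop := ∀ l : ℤ, ∀ x ∈ M.CH l, ∀ i : ℤ, i < 2 * l → x ≫ e.p i = 0

/-- (D): `CH_l(M_{2l})_hom = 0`. -/
def CK.D (e : M.CK) : Prop := ∀ l : ℤ, ∀ x ∈ M.CH l, Triv K x → x ≫ e.p (2 * l) = 0

/-- `x` lies in `F^ν CH_l(M)`, the sum of the groups `CH_l(M_i)`, `i ≥ 2l + ν`. -/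
def CK.Fil (e : M.CK) (ν l : ℤ) (x : 𝟙_ C ⟶ M.X) : Prop :=
  x ∈ M.CH l ∧ ∀ i : ℤ, i < 2 * l + ν → x ≫ e.p i = 0

variable (M)

/-- (C): the filtration does not depend on the Chow-Kuenneth decomposition. -/
def MurreC : Prop := ∀ (e e' : M.CK) (ν l : ℤ) (x : 𝟙_ C ⟶ M.X), e.Fil ν l x ↔ e'.Fil ν l x

/-- Murre's conjectures (A), (B), (C), (D) for the motive `M`. -/
def Murre : Prop := M.MurreC ∧ ∃ e : M.CK, e.B ∧ e.D

/-- Murre's conjectures (A), (B), (C), (D) for the motive `M`, with (B) and (D) for every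
Chow-Kuenneth decomposition. -/
def MurreAll : Prop := Nonempty M.CK ∧ M.MurreC ∧ ∀ e : M.CK, e.B ∧ e.D

end Mot

end one

section two

variable {C : Type u} [Category.{v} C] [Preadditive C] [Linear ℚ C] [MonoidalCategory C]
  {C' : Type u} [Category.{v} C'] [Preadditive C'] [Linear ℚ C'] [MonoidalCategory C']
  {F : Type w} [Field F]

/-- Base change from a field `k` to an extension field. -/
structure BaseChange (K : Correspondences C F) (K' : Correspondences C' F) where
  /-- the base change functor -/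
  Φ : C ⥤ C'
  additive : Φ.Additive
  map_sm : ∀ {X Y : C} (q : ℚ) (f : X ⟶ Y), Φ.map (sm q f) = sm q (Φ.map f)
  /-- with rational coefficients, `CH_*(X × Y)` injects into the Chow group over the extension -/
  faithful : ∀ {X Y : C} (f : X ⟶ Y), Φ.map f = 0 → f = 0
  mem : ∀ {X Y : C} {d : ℤ} {f : X ⟶ Y}, Deg K d f → Deg K' d (Φ.map f)
  /-- the base change of a point is a point -/
  unit : 𝟙_ C' ≅ Φ.obj (𝟙_ C)
  unit_mem : Deg K' 0 unit.hom ∧ Deg K' 0 unit.inv
  /-- the homology does not change: `H_*(X) ≅ H_*(X_K)` -/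
  iso : K.H ≅ Φ ⋙ K'.H
  iso_wt : ∀ (X : C) (j : ℤ) (x : K.H.obj X), Wt K j x →
    Wt K' (X := Φ.obj X) j ((iso.hom.app X).hom x)

namespace BaseChange

variable {K : Correspondences C F} {K' : Correspondences C' F}

/-- The base change of `(X, n, L)`. -/
def pol (B : BaseChange K K') (P : Pol C) : Pol C' where
  X := B.Φ.obj P.X
  n := P.n
  L := fun c => {g | ∃ L ∈ P.L c, g = B.Φ.map L}

/-- The base change `CH_l(X) → CH_l(X_K)`. -/
def cyc (B : BaseChange K K') {X : C} (x : 𝟙_ C ⟶ X) : 𝟙_ C' ⟶ B.Φ.obj X :=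
  B.unit.hom ≫ B.Φ.map x

end BaseChange

/-- The class of an `l`-cycle on `P.X` which comes from a member of the linear system of the ample
class `L`, in `V`: from a smooth member, or from the resolution (by the blow-up of the node) of a
member with one node, which is an ample divisor in the blow-up of `P.X` in the node. -/
inductive FromMember (K : Correspondences C F) (V : Pol C → Prop)
    (P : Pol C) (L : P.X ⟶ P.X) (l : ℤ) : (𝟙_ C ⟶ P.X) → Prop
  | smooth (Z : ZeroLocus K P) : Z.c = 1 → Z.pull ≫ Z.push = L → Has V Z.pol →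
      ∀ ζ, Cyc K l ζ → FromMember K V P L l (ζ ≫ Z.push)
  | nodal (Q : PointBlowUp K P) (Z : ZeroLocus K Q.pol) : Z.c = 1 → Q.L = L → Has V Z.pol →
      ∀ ζ, Cyc K l ζ → FromMember K V P L l ((ζ ≫ Z.push) ≫ Q.ret)

/-- Let `Y = P.X` be a variety over an algebraically closed field `k`, let `B` be the base change to an
algebraic closure `k'` of the function field of the linear system of `L`. Then `Y` over `k'` and the
generic member `X = Z.Y` of the linear system are in `V`; and if `n < 2l < 2n` and the restriction of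
`x ∈ CH_l(Y)` to `X` is zero, then `x` is supported on finitely many members of a Lefschetz pencil
(`V` and `V'` are the varieties in `V` over `k` and over `k'`). -/
def GenericMember {K : Correspondences C F} {K' : Correspondences C' F} (V : Pol C → Prop)
    (V' : Pol C' → Prop) {P : Pol C} (L : P.X ⟶ P.X) (B : BaseChange K K')
    (Z : ZeroLocus K' (B.pol P)) : Prop :=
  Has V' (B.pol P) ∧ Z.c = 1 ∧ Z.pull ≫ Z.push = B.Φ.map L ∧ Has V' Z.pol ∧
    ∀ l : ℤ, P.n < 2 * l → l < P.n → ∀ x : 𝟙_ C ⟶ P.X, Cyc K l x → B.cyc x ≫ Z.pull = 0 →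
      x ∈ Submodule.span ℚ {γ | FromMember K V P L l γ}

/-- This holds for some distinguished ample class `L` and some `X`. -/
def Generic {K : Correspondences C F} {K' : Correspondences C' F} (V : Pol C → Prop)
    (V' : Pol C' → Prop) (P : Pol C) (B : BaseChange K K') : Prop :=
  ∃ (L : P.X ⟶ P.X) (Z : ZeroLocus K' (B.pol P)), L ∈ P.L 1 ∧ GenericMember V V' L B Z

/-- If a variety has an LCK, then the blow-ups of points on it have an LCK. -/
def BlowInherit (K : Correspondences C F) : Prop :=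
  ∀ (P : Pol C) (Q : PointBlowUp K P), Nonempty (LCK K P) → Nonempty (LCK K Q.pol)

/-- If a variety has an LCK, then its base change has an LCK. -/
def BaseInherit (K : Correspondences C F) (K' : Correspondences C' F) : Prop :=
  ∀ (B : BaseChange K K') (P : Pol C), Nonempty (LCK K P) → Nonempty (LCK K' (B.pol P))

/-- The product `X × X'` with the divisor classes `a L ⊗ 1 + b 1 ⊗ L'` (`a, b > 0`) and the exterior
products of distinguished correspondences of degree 0. -/
def prodP (P P' : Pol C) (L : P.X ⟶ P.X) (L' : P'.X ⟶ P'.X) : Pol C where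
  X := P.X ⊗ P'.X
  n := P.n + P'.n
  L := fun d => {g | (d = 0 ∧ ∃ f ∈ P.L 0, ∃ f' ∈ P'.L 0, g = (f ⊗ₘ f')) ∨
    (d = 1 ∧ ∃ a b : ℚ, 0 < a ∧ 0 < b ∧ g = sm a (L ⊗ₘ 𝟙 P'.X) + sm b (𝟙 P.X ⊗ₘ L'))}

/-- `V` contains the product of `(X, Lᵗ)` and `(X', L')` with some of the distinguished
correspondences. -/
def HasProd {K : Correspondences C F} {D : Divisors K} (T : Duality K D) (V : Pol C → Prop)
    (P P' : Pol C) : Prop :=
  ∃ L ∈ (T.pol P).L 1, ∃ L' ∈ P'.L 1, Has V (prodP (T.pol P) P' L L')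

end two

/-- The category `C` of the smooth projective varieties over a field and the correspondences
between them, with a Weil homology, the classical facts on divisors and on the Albanese map, and
transposition. -/
structure Theory (F : Type w) [Field F] where
  C : Type u
  [cat : Category.{v} C]
  [pre : Preadditive C]
  [lin : Linear ℚ C]
  [mon : MonoidalCategory C]
  [mpre : MonoidalPreadditive C]
  K : Correspondences C F
  D : Divisors K
  T : Duality K D

attribute [instance] Theory.cat Theory.pre Theory.lin Theory.mon Theory.mpre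

/-- The correspondences over all fields. -/
structure Fields (F : Type w) [Field F] where
  /-- the fields `k` -/
  Fld : Type u
  /-- the varieties over `k` -/
  th : Fld → Theory.{w, v, u} F
  /-- the algebraically closed fields -/
  Closed : Fld → Prop

namespace Fields

variable {F : Type w} [Field F] (G : Fields.{w, v, u} F)

/-- A class of polarised varieties over all fields. -/
abbrev Class := ∀ k : G.Fld, Pol (G.th k).C → Prop

/-- A class `V` of polarised varieties over all fields which is closed under passage to an algebraic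
closure and, over algebraically closed fields, under generic hyperplane sections and members of
pencils. -/
structure Pencils (V : G.Class) : Prop where
  dim_eq : ∀ {k : G.Fld} {P : Pol (G.th k).C}, V k P → (G.th k).D.dim P.X = P.n
  dim_nonneg : ∀ {k : G.Fld} {P : Pol (G.th k).C}, V k P → 0 ≤ P.n
  /-- there is a distinguished ample class -/
  ample : ∀ {k : G.Fld} {P : Pol (G.th k).C}, V k P → (P.L 1).Nonempty
  /-- the algebraic closure -/
  closure : ∀ {k : G.Fld} {P : Pol (G.th k).C}, V k P → ∃ (k' : G.Fld)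
    (B : BaseChange (G.th k).K (G.th k').K), G.Closed k' ∧ Has (V k') (B.pol P)
  /-- generic ample divisors and pencils on `P.X` for some ample class `L` -/
  generic : ∀ {k : G.Fld} {P : Pol (G.th k).C}, G.Closed k → V k P → 0 < P.n →
    ∃ (k' : G.Fld) (B : BaseChange (G.th k).K (G.th k').K), G.Closed k' ∧
      Generic (V k) (V k') P B

/-- `V` is closed under products: it contains `(X, Lᵗ) × (X', L')` for `(X, L)`, `(X', L')` in `V`,
with some of the distinguished correspondences. -/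
def ProductClosed (V : G.Class) : Prop :=
  ∀ (k : G.Fld) (P P' : Pol (G.th k).C), V k P → V k P' → HasProd (G.th k).T (V k) P P'

/-- (B) in the range given by `m`: for the varieties `X` of dimension `n` in `V` and every LCK,
`CH_l(M_i) = 0` for `i < 2l` if `i ≤ l + m` or `n ≤ l + m`. (This includes `CH_l(M_i)`, `i < 2l`, for
`l ≤ m + 1` or `i ≤ 2m + 1` or `l ≥ n - m`.) -/
def RangeB (V : G.Class) (m : ℕ) : Prop :=
  ∀ (k : G.Fld) (P : Pol (G.th k).C), V k P → ∀ (e : LCK (G.th k).K P) (l i : ℤ), i < 2 * l →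
    (i ≤ l + m ∨ P.n ≤ l + m) → Zero e.toCK l i

/-- (D) for the cycles of dimension `≤ m` or of codimension `≤ m` on the varieties in `V`. -/
def RangeD (V : G.Class) (m : ℕ) : Prop :=
  ∀ (k : G.Fld) (P : Pol (G.th k).C), V k P → ∀ (e : LCK (G.th k).K P) (l : ℤ),
    (l ≤ m ∨ P.n ≤ l + m) → e.MurreD l

/-- (B) for the varieties of dimension `≤ 2m + 2` in `V` and every LCK. -/
def SmallB (V : G.Class) (m : ℕ) : Prop :=
  ∀ (k : G.Fld) (P : Pol (G.th k).C), V k P → P.n ≤ 2 * m + 2 →
    ∀ (e : LCK (G.th k).K P) (l : ℤ), e.MurreB l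

/-- (B) and (D) for the varieties of dimension `≤ 2m + 1` in `V` and every LCK. -/
def SmallBD (V : G.Class) (m : ℕ) : Prop :=
  ∀ (k : G.Fld) (P : Pol (G.th k).C), V k P → P.n ≤ 2 * m + 1 →
    ∀ (e : LCK (G.th k).K P) (l : ℤ), e.MurreB l ∧ e.MurreD l

/-- (D) in the middle: `CH_m(M_{2m})_hom = 0` for the varieties of dimension `2m` in `V` over
algebraically closed fields. -/
def MiddleD (V : G.Class) (m : ℕ) : Prop :=
  ∀ (k : G.Fld) (P : Pol (G.th k).C), G.Closed k → V k P → P.n = 2 * m →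
    ∀ e : LCK (G.th k).K P, e.MurreD m

/-- `CH_m(M_{2m})_hom = 0` for one Chow-Kuenneth decomposition of the varieties of dimension `2m` in
`V` over algebraically closed fields. -/
def MiddleCK (V : G.Class) (m : ℕ) : Prop :=
  ∀ (k : G.Fld) (P : Pol (G.th k).C), G.Closed k → V k P → P.n = 2 * m →
    ∃ e : CK (G.th k).K P.X, e.MurreD m

/-- Local nilpotence in the middle: if `X ∈ V` is of dimension `2m` over an algebraically closed
field, and `θ` is a correspondence of degree 0 which acts as zero on `H_j(X)` for `j ≠ 2m`, then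
`θ` is locally nilpotent on `CH_m(X)_hom`. -/
def MiddleNil (V : G.Class) (m : ℕ) : Prop :=
  ∀ (k : G.Fld) (P : Pol (G.th k).C), G.Closed k → V k P → P.n = 2 * m →
    MidNil (G.th k).K P.X m

/-- (B) in the middle: `CH_{m+1}(M_{2m+1}) = 0` for the varieties of dimension `2m + 1` in `V` over
algebraically closed fields. -/
def MiddleB (V : G.Class) (m : ℕ) : Prop :=
  ∀ (k : G.Fld) (P : Pol (G.th k).C), G.Closed k → V k P → P.n = 2 * m + 1 →
    ∀ e : LCK (G.th k).K P, Zero e.toCK (m + 1) (2 * m + 1)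

/-- Murre's conjectures for the motives `(X, f, r)` with `X ∈ V`. -/
def MurreFor (V : G.Class) : Prop :=
  ∀ (k : G.Fld) (P : Pol (G.th k).C), V k P → ∀ M : Mot (G.th k).K, M.X = P.X → M.Murre

/-- Murre's conjectures for the motives `(X, f, r)` with `X ∈ V`, with (B) and (D) for every
Chow-Kuenneth decomposition. -/
def MurreAllFor (V : G.Class) : Prop :=
  ∀ (k : G.Fld) (P : Pol (G.th k).C), V k P → ∀ M : Mot (G.th k).K, M.X = P.X → M.MurreAll

/-- The varieties of dimension `≤ m` in `V`. -/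
def Small (V : G.Class) (m : ℕ) : G.Class := fun k P => V k P ∧ P.n ≤ m

/-- Every variety in `V` has an LCK. -/
def HasLCK (V : G.Class) : Prop :=
  ∀ (k : G.Fld) (P : Pol (G.th k).C), V k P → Nonempty (LCK (G.th k).K P)

end Fields

end Pool.Agent.LckM
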