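import Pool.Agent.LckM.Compat
import Pool.Agent.LefCK.Basic

/-!
# The transposed decomposition
-/

set_option autoImplicit false

open CategoryTheory MonoidalCategory
open Pool.Agent.LefCK

universe w v u

namespace Pool.Agent.LckM

variable {C : Type u} [Category.{v} C] [Preadditive C] [Linear ℚ C]
  [MonoidalCategory C] {F : Type w} [Field F]
  {K : Correspondences C F} {D : Divisors K} {P : Pol C}

namespace Duality

variable (T : Duality K D) (e : LCK K P) (hn : D.dim P.X = P.n)

/-- the transposed projectors -/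
def tp (i : ℤ) : P.X ⟶ P.X := T.t (e.p (2 * P.n - i))

theorem t_mem0 {X : C} {d : ℤ} {f : X ⟶ X} (hf : f ∈ K.deg X X d) : T.t f ∈ K.deg X X d := by
  have h1 := T.t_mem hf
  rwa [add_sub_cancel_right] at h1

theorem t_comp3 {X Y Z W : C} (f : X ⟶ Y) (g : Y ⟶ Z) (h : Z ⟶ W) :
    T.t h ≫ T.t g ≫ T.t f = T.t (f ≫ g ≫ h) := by
  rw [T.t_comp, T.t_comp, Category.assoc]

include hn in
theorem exists_tck : ∃ E : CK K P.X, ∀ i, E.p i = T.tp e i := by
  classical
  obtain ⟨s, hs0, hs1⟩ := e.toCK.exists_finset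
  refine ⟨CK.ofFinset (s.image fun i => 2 * P.n - i) (T.tp e) ?_ (fun i => T.t_mem0 (e.mem _))
    (fun i => ?_) (fun i j hij => ?_) ?_ ?_, fun i => rfl⟩
  · intro i hi
    unfold tp
    rw [hs0, map_zero]
    intro h
    apply hi
    rw [Finset.mem_image]
    exact ⟨2 * P.n - i, h, by ring⟩
  · unfold tp
    rw [← T.t_comp, e.idem]
  · unfold tp
    rw [← T.t_comp, e.orth _ _ (by omega), map_zero]
  · rw [Finset.sum_image (by
      intro a _ b _ hab
      simpa using hab)]
    unfold tp
    have h1 : ∀ i ∈ s, T.t (e.p (2 * P.n - (2 * P.n - i))) = T.t (e.p i) := by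
      intro i _
      rw [sub_sub_cancel]
    rw [Finset.sum_congr rfl h1, ← map_sum, hs1, T.t_id]
  · intro i j x hx
    have h1 : ∀ y ∈ K.gr P.X (2 * P.n - j), (K.H.map (e.p (2 * P.n - i))).hom y =
        (if j = i then (1 : F) else 0) • y := by
      intro y hy
      rw [e.homology _ _ y hy]
      by_cases h : j = i
      · rw [if_pos (by omega), if_pos h, one_smul]
      · rw [if_neg (by omega), if_neg h, zero_smul]
    have h2 := T.t_act (e.mem (2 * P.n - i)) (2 * P.n - j) _ h1 x (by
      rw [hn, sub_sub_cancel]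
      exact hx)
    show (K.H.map (T.t (e.p (2 * P.n - i)))).hom x = _
    rw [h2]
    split_ifs
    · rw [one_smul]
    · rw [zero_smul]

theorem tp_idem (i : ℤ) : T.tp e i ≫ T.tp e i = T.tp e i := by
  unfold tp
  rw [← T.t_comp, e.idem]

/-- the leading components of transposed correspondences -/
theorem lead_t (l : List (ℕ × (P.X ⟶ P.X))) : ∀ w w' : ℤ, w' = 2 * P.n - w + 2 * total l →
    lead (T.tp e) w (l.map fun a => (a.1, T.t a.2)) = T.t (lead e.p w' l.reverse) := by
  induction l with
  | nil =>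
    intro w w' h
    rw [total_nil, mul_zero, add_zero] at h
    rw [h]
    rfl
  | cons a l ih =>
    intro w w' h
    rw [total_cons] at h
    have ht : total l.reverse = total l := by
      unfold total
      rw [List.map_reverse, List.sum_reverse]
    have h1 := ih (w - 2 * (a.1 : ℤ)) w' (by rw [h]; ring)
    rw [List.map_cons, lead_cons, h1, List.reverse_cons,
      lead_append e.idem w' (2 * P.n - w + 2 * (a.1 : ℤ)) _ _ (by rw [ht, h]; ring), lead_cons,
      lead_nil]
    have h2 : 2 * P.n - w + 2 * (a.1 : ℤ) - 2 * (a.1 : ℤ) = 2 * P.n - w := by ring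
    have h3 : lead e.p w' l.reverse = lead e.p w' l.reverse ≫ e.p (2 * P.n - w + 2 * (a.1 : ℤ)) := by
      rw [lead_p e.idem _ _ _ (by rw [ht, h]; ring)]
    rw [h2, T.t_comp, T.t_comp, T.t_comp, Category.assoc, Category.assoc]
    conv_lhs => rw [h3, T.t_comp]
    rfl

include hn in
/-- **the transposed LCK** -/
theorem exists_dual : ∃ E : LCK K (T.pol P), ∀ i, E.p i = T.tp e i := by
  obtain ⟨E, hE⟩ := T.exists_tck e hn
  have hE' : E.p = T.tp e := funext hE
  have key : ∀ l : List (ℕ × (P.X ⟶ P.X)), l ≠ [] →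
      (∀ a ∈ l, 0 < a.1 ∧ ∃ L ∈ P.L a.1, a.2 = T.t L) → ∃ G ∈ K.deg P.X P.X (-total l),
        lead E.p (P.n + total l) l ≫ G = E.p (P.n + total l) ∧
          G ≫ lead E.p (P.n + total l) l = E.p (P.n - total l) := by
    intro l hl hl'
    obtain ⟨l', rfl, hl''⟩ : ∃ l' : List (ℕ × (P.X ⟶ P.X)),
        l = l'.map (fun a => (a.1, T.t a.2)) ∧ ∀ a ∈ l', 0 < a.1 ∧ a.2 ∈ P.L a.1 := by
      clear hl
      induction l with
      | nil => exact ⟨[], rfl, by simp⟩
      | cons a l ih =>
        obtain ⟨l', h1, h2⟩ := ih fun b hb => hl' b (List.mem_cons_of_mem _ hb)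
        obtain ⟨h3, L, hL, h4⟩ := hl' a (by simp)
        refine ⟨(a.1, L) :: l', ?_, ?_⟩
        · rw [List.map_cons, ← h1, ← h4]
        · intro b hb
          rcases List.mem_cons.1 hb with rfl | hb
          · exact ⟨h3, hL⟩
          · exact h2 b hb
    have ht : total (l'.map fun a => (a.1, T.t a.2)) = total l' := by
      unfold total
      rw [List.map_map]
      rfl
    have htr : total l'.reverse = total l' := by
      unfold total
      rw [List.map_reverse, List.sum_reverse]
    obtain ⟨G, hG, h1, h2⟩ := e.hard l'.reverse (by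
      intro h
      rw [List.reverse_eq_nil_iff] at h
      exact hl (by rw [h]; rfl)) (fun a ha => hl'' a (List.mem_reverse.1 ha))
    rw [htr] at hG h1 h2
    rw [ht, hE', T.lead_t e l' (P.n + total l') (P.n + total l') (by ring)]
    refine ⟨T.t G, T.t_mem0 hG, ?_, ?_⟩
    · rw [← T.t_comp, h2, tp]
      congr 2
      ring
    · rw [← T.t_comp, h1, tp]
      congr 2
      ring
  refine ⟨{ toCK := E, mem_L := ?_, nonneg := ?_, hard := ?_ }, hE⟩
  · rintro c g ⟨L, hL, rfl⟩
    exact T.t_mem0 (e.mem_L c L hL)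
  · rintro c g ⟨L, hL, rfl⟩ i j hij
    show E.p j ≫ T.t L ≫ E.p i = 0
    rw [hE, hE, tp, tp, T.t_comp3, e.nonneg c L hL _ _ (by omega), map_zero]
  · intro l hl hl'
    exact key l hl hl'

end Duality

end Pool.Agent.LckM
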