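import Mathlib

/-!
# Idempotents in a triangular ring (module LckM-Tri)
-/

set_option autoImplicit false

namespace Pool.Agent.LckM

/-- a finite complete system of orthogonal idempotents -/
structure OrthSys {R : Type*} [Ring R] (S : Finset ℤ) (P : ℤ → R) : Prop where
  zero : ∀ i, i ∉ S → P i = 0
  idem : ∀ i, P i * P i = P i
  orth : ∀ i j, i ≠ j → P i * P j = 0
  sum : ∑ i ∈ S, P i = 1

variable {R : Type*} [Ring R] {S : Finset ℤ} {P : ℤ → R}

theorem OrthSys.ext (h : OrthSys S P) {x : R} (hx : ∀ i j, P i * x * P j = 0) : x = 0 := by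
  have h1 : x = (∑ i ∈ S, P i) * x * ∑ j ∈ S, P j := by rw [h.sum, one_mul, mul_one]
  rw [h1, Finset.sum_mul, Finset.sum_mul]
  refine Finset.sum_eq_zero fun i _ => ?_
  rw [Finset.mul_sum]
  exact Finset.sum_eq_zero fun j _ => hx i j

/-- insert `1 = ∑ P k` -/
theorem OrthSys.insert (h : OrthSys S P) (x y : R) :
    x * y = ∑ k ∈ S, x * P k * (P k * y) := by
  have h1 : ∀ k, x * P k * (P k * y) = x * P k * y := by
    intro k
    rw [mul_assoc x, ← mul_assoc (P k) (P k), h.idem, ← mul_assoc]
  rw [Finset.sum_congr rfl fun k _ => h1 k, ← Finset.sum_mul, ← Finset.mul_sum, h.sum, mul_one]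

/-- `x` raises the weights by at least `c` -/
def Raise (P : ℤ → R) (c : ℤ) (x : R) : Prop := ∀ i j : ℤ, i < j + c → P i * x * P j = 0

theorem Raise.mul (h : OrthSys S P) {c d : ℤ} {x y : R} (hx : Raise P c x) (hy : Raise P d y) :
    Raise P (c + d) (x * y) := by
  intro i j hij
  have h1 : P i * (x * y) * P j = (P i * x) * (y * P j) := by simp only [mul_assoc]
  rw [h1, h.insert]
  refine Finset.sum_eq_zero fun k _ => ?_
  rcases lt_or_ge i (k + c) with hk | hk
  · rw [hx i k hk, zero_mul]
  · rw [← mul_assoc (P k), hy k j (by omega), mul_zero]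

theorem Raise.add {c : ℤ} {x y : R} (hx : Raise P c x) (hy : Raise P c y) :
    Raise P c (x + y) := by
  intro i j hij
  rw [mul_add, add_mul, hx i j hij, hy i j hij, add_zero]

theorem Raise.neg {c : ℤ} {x : R} (hx : Raise P c x) : Raise P c (-x) := by
  intro i j hij
  rw [mul_neg, neg_mul, hx i j hij, neg_zero]

theorem Raise.sub {c : ℤ} {x y : R} (hx : Raise P c x) (hy : Raise P c y) :
    Raise P c (x - y) := by
  rw [sub_eq_add_neg]
  exact hx.add hy.neg

theorem OrthSys.raise_one (h : OrthSys S P) : Raise P 0 (1 : R) := by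
  intro i j hij
  rw [mul_one, h.orth i j (by omega)]

theorem Raise.pow (h : OrthSys S P) {x : R} (hx : Raise P 1 x) (k : ℕ) : Raise P k (x ^ k) := by
  induction k with
  | zero => simpa using h.raise_one
  | succ k ih =>
    rw [pow_succ]
    have h1 := ih.mul h hx
    have h2 : ((k + 1 : ℕ) : ℤ) = (k : ℤ) + 1 := by push_cast; rfl
    rwa [h2]

theorem Raise.nilpotent (h : OrthSys S P) {x : R} (hx : Raise P 1 x) : IsNilpotent x := by
  classical
  obtain ⟨a, ha⟩ := S.bddBelow
  obtain ⟨b, hb⟩ := S.bddAbove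
  refine ⟨(b - a).toNat + 1, h.ext fun i j => ?_⟩
  by_cases hi : i ∈ S
  · by_cases hj : j ∈ S
    · refine hx.pow h _ i j ?_
      have h1 := hb hi
      have h2 := ha hj
      have h3 := Int.self_le_toNat (b - a)
      push_cast
      omega
    · rw [h.zero j hj, mul_zero]
  · rw [h.zero i hi, zero_mul, zero_mul]

/-- the diagonal part -/
def diagPart (S : Finset ℤ) (P : ℤ → R) (x : R) : R := ∑ i ∈ S, P i * x * P i

theorem OrthSys.P_diag (h : OrthSys S P) (x : R) (i : ℤ) : P i * diagPart S P x = P i * x * P i := by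
  unfold diagPart
  rw [Finset.mul_sum]
  by_cases hi : i ∈ S
  · rw [Finset.sum_eq_single_of_mem i hi]
    · rw [← mul_assoc, ← mul_assoc, h.idem]
    · intro j _ hj
      rw [← mul_assoc, ← mul_assoc, h.orth i j (Ne.symm hj), zero_mul, zero_mul]
  · rw [h.zero i hi, zero_mul, zero_mul]
    exact Finset.sum_eq_zero fun j _ => by rw [zero_mul]

theorem OrthSys.diag_P (h : OrthSys S P) (x : R) (i : ℤ) : diagPart S P x * P i = P i * x * P i := by
  unfold diagPart
  rw [Finset.sum_mul]
  by_cases hi : i ∈ S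
  · rw [Finset.sum_eq_single_of_mem i hi]
    · rw [mul_assoc, h.idem]
    · intro j _ hj
      rw [mul_assoc, h.orth j i hj, mul_zero]
  · rw [h.zero i hi, mul_zero]
    exact Finset.sum_eq_zero fun j _ => by rw [mul_zero]

theorem OrthSys.raise_sub_diag (h : OrthSys S P) {x : R} (hx : Raise P 0 x) :
    Raise P 1 (x - diagPart S P x) := by
  intro i j hij
  rw [mul_sub, sub_mul, h.P_diag]
  rcases lt_or_eq_of_le (show i ≤ j by omega) with hlt | rfl
  · rw [hx i j (by omega), mul_assoc (P i * x), h.orth i j hlt.ne, mul_zero, sub_zero]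
  · rw [mul_assoc (P i * x), h.idem, sub_self]

/-- a triangular idempotent `f` is conjugate to its diagonal part by `1 + ` (strictly triangular) -/
theorem OrthSys.conj (h : OrthSys S P) {f : R} (hf : f * f = f) (ht : Raise P 0 f) :
    (∀ i, (P i * f * P i) * (P i * f * P i) = P i * f * P i) ∧
    ∃ N u v : R, Raise P 1 N ∧ u = 1 + N ∧ u * v = 1 ∧ v * u = 1 ∧
      f = u * diagPart S P f * v := by
  have hi : ∀ i, (P i * f * P i) * (P i * f * P i) = P i * f * P i := by
    intro i
    have h1 : P i * f * P i = (P i * f) * (f * P i) := by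
      rw [← mul_assoc, mul_assoc (P i) f f, hf]
    have h2 : (P i * f) * (f * P i) = (P i * f * P i) * (P i * (f * P i)) := by
      rw [h.insert (P i * f) (f * P i)]
      by_cases hiS : i ∈ S
      · refine Finset.sum_eq_single_of_mem i hiS ?_
        intro k _ hk
        rcases lt_or_gt_of_ne hk with hk | hk
        · rw [← mul_assoc (P k), ht k i (by omega), mul_zero]
        · rw [ht i k (by omega), zero_mul]
      · rw [h.zero i hiS]
        simp
    rw [← mul_assoc (P i) f (P i)] at h2
    rw [← h2, ← h1]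
  obtain ⟨d, hd⟩ : ∃ d, d = diagPart S P f := ⟨_, rfl⟩
  have hdd : d * d = d := by
    have h1 : d * d - d = 0 := by
      apply h.ext
      intro i j
      have h2 : P i * (d * d) * P j = (P i * d) * (d * P j) := by simp only [mul_assoc]
      rw [mul_sub, sub_mul, h2, hd, h.P_diag, h.diag_P]
      by_cases hij : i = j
      · subst hij
        rw [hi, mul_assoc (P i * f) (P i) (P i), h.idem, sub_self]
      · have h3 : (P i * f * P i) * (P j * f * P j) = 0 := by
          have h4 : (P i * f * P i) * (P j * f * P j) = P i * f * (P i * P j) * f * P j := by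
            simp only [mul_assoc]
          rw [h4, h.orth i j hij, mul_zero, zero_mul, zero_mul]
        rw [h3, mul_assoc (P i * f), h.orth i j hij, mul_zero, sub_zero]
    exact sub_eq_zero.1 h1
  have hn := h.raise_sub_diag ht
  rw [← hd] at hn
  obtain ⟨n, hn'⟩ : ∃ n, n = f - d := ⟨_, rfl⟩
  rw [← hn'] at hn
  have hfd : f = d + n := by rw [hn']; abel
  have hd0 : Raise P 0 d := by
    intro i j hij
    rw [hd, h.P_diag, mul_assoc (P i * f), h.orth i j (by omega), mul_zero]
  obtain ⟨N, hN⟩ : ∃ N, N = -n + (n * d + n * d) := ⟨_, rfl⟩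
  have hNr : Raise P 1 N := by
    rw [hN]
    have h1 : Raise P 1 (n * d) := by simpa using hn.mul h hd0
    exact hn.neg.add (h1.add h1)
  have hu : f * d + (1 - f) * (1 - d) = 1 + N := by
    have h1 : f * d + (1 - f) * (1 - d) = 1 - f - d + (f * d + f * d) := by noncomm_ring
    rw [h1, hN, hfd, add_mul, hdd]
    abel
  obtain ⟨v, hv⟩ := (hNr.nilpotent h).isUnit_one_add
  refine ⟨hi, N, 1 + N, ((v⁻¹ : Rˣ) : R), hNr, rfl, ?_, ?_, ?_⟩
  · rw [← hv, Units.mul_inv]
  · rw [← hv, Units.inv_mul]
  · have h1 : (1 + N) * d = f * (1 + N) := by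
      rw [← hu, add_mul, mul_add]
      have hd1 : (1 - d) * d = 0 := by rw [sub_mul, one_mul, hdd, sub_self]
      have hf1 : f * (1 - f) = 0 := by rw [mul_sub, mul_one, hf, sub_self]
      have h2 : (1 - f) * (1 - d) * d = 0 := by rw [mul_assoc, hd1, mul_zero]
      have h3 : f * ((1 - f) * (1 - d)) = 0 := by rw [← mul_assoc, hf1, zero_mul]
      rw [h2, h3, add_zero, add_zero, mul_assoc, hdd, ← mul_assoc, hf]
    rw [← hd, h1, ← hv, mul_assoc, Units.mul_inv, mul_one]

end Pool.Agent.LckM
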