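import Pool.Agent.LckM.Mot
import Pool.Agent.LckM.Tri

/-!
# (A) for the motives `(X, f, r)` (module LckM-MotA)
-/

set_option autoImplicit false

open CategoryTheory MonoidalCategory
open Pool.Agent.LefCK

universe w v u

namespace Pool.Agent.LckM

variable {C : Type u} [Category.{v} C] [Preadditive C] [Linear ℚ C]
  [MonoidalCategory C] {F : Type w} [Field F] {K : Correspondences C F}

private def mor {X : C} (a : K.zeroRing X) : X ⟶ X := a.1

private theorem mor_ext {X : C} {a b : K.zeroRing X} (h : mor a = mor b) : a = b := Subtype.ext h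

private theorem mor_mul {X : C} (a b : K.zeroRing X) : mor (a * b) = mor b ≫ mor a := rfl

private theorem mor_zero {X : C} : mor (0 : K.zeroRing X) = 0 := rfl

private theorem mor_one {X : C} : mor (1 : K.zeroRing X) = 𝟙 X := rfl

private theorem mor_add {X : C} (a b : K.zeroRing X) : mor (a + b) = mor a + mor b := rfl

private theorem mor_mem {X : C} (a : K.zeroRing X) : mor a ∈ K.deg X X 0 := a.2

private theorem mor_sum {X : C} {ι : Type*} (s : Finset ι) (f : ι → K.zeroRing X) :
    mor (∑ i ∈ s, f i) = ∑ i ∈ s, mor (f i) := by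
  classical
  induction s using Finset.induction_on with
  | empty => simp [mor_zero]
  | insert a s ha ih =>
    rw [Finset.sum_insert ha, Finset.sum_insert ha, ← ih]
    rfl

/-- a correspondence of degree 0 with zero diagonal components acts as zero on the homology -/
private theorem hom_of_diag {X : C} (e : CK K X) {g : X ⟶ X} (hg : g ∈ K.deg X X 0)
    (h : ∀ m, e.p m ≫ g ≫ e.p m = 0) (x : K.H.obj X) : (K.H.map g).hom x = 0 := by
  have := K.additive
  induction x using K.gr_induction with
  | zero => rw [map_zero]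
  | mem m x hx =>
    have h1 : (K.H.map (e.p m ≫ g ≫ e.p m)).hom x = 0 := by
      rw [h m, K.map_zero_apply]
    rw [K.map_comp_apply, K.map_comp_apply, e.homology_self hx] at h1
    have h2 : (K.H.map g).hom x ∈ K.gr X m := by
      have := K.map_gr hg m x hx
      simpa using this
    rwa [e.homology_self h2] at h1
  | add x y hx hy => rw [map_add, hx, hy, add_zero]

theorem exists_motCK {M : Mot K} (e : CK K M.X)
    (tri : ∀ f ∈ K.deg M.X M.X 0, ∀ i j : ℤ, i < j → e.p j ≫ f ≫ e.p i = 0) :
    Nonempty M.CK := by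
  classical
  have := K.additive
  obtain ⟨S, hS, hsum⟩ := e.exists_finset
  obtain ⟨P, hP⟩ : ∃ P : ℤ → K.zeroRing M.X, ∀ i, mor (P i) = e.p i :=
    ⟨fun i => ⟨e.p i, e.mem i⟩, fun i => rfl⟩
  obtain ⟨f, hf⟩ : ∃ f : K.zeroRing M.X, mor f = M.f := ⟨⟨M.f, M.mem⟩, rfl⟩
  have hO : OrthSys S P := by
    refine ⟨fun i hi => mor_ext ?_, fun i => mor_ext ?_, fun i j hij => mor_ext ?_, mor_ext ?_⟩
    · rw [hP, hS i hi, mor_zero]
    · rw [mor_mul, hP, e.idem]
    · rw [mor_mul, hP, hP, e.orth j i (Ne.symm hij), mor_zero]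
    · rw [mor_sum, mor_one, ← hsum]
      exact Finset.sum_congr rfl fun i _ => hP i
  have hff : f * f = f := mor_ext (by rw [mor_mul, hf, M.idem])
  have ht : Raise P 0 f := by
    intro i j hij
    apply mor_ext
    rw [mor_mul, mor_mul, hP, hP, mor_zero]
    exact tri _ (mor_mem f) i j (by omega)
  obtain ⟨hi, N, u, v, hN, hu, huv, hvu, hfd⟩ := hO.conj hff ht
  have hNH : ∀ x, (K.H.map (mor N)).hom x = 0 := by
    intro x
    refine hom_of_diag e (mor_mem N) (fun m => ?_) x
    have h1 := congrArg mor (hN m m (by omega))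
    rw [mor_mul, mor_mul, hP, mor_zero] at h1
    exact h1
  have huH : ∀ x, (K.H.map (mor u)).hom x = x := by
    intro x
    rw [hu, mor_add, mor_one, K.map_add_apply, K.map_id_apply, hNH, add_zero]
  have hvH : ∀ x, (K.H.map (mor v)).hom x = x := by
    intro x
    have h1 : (K.H.map (mor (u * v))).hom x = x := by rw [huv, mor_one, K.map_id_apply]
    rw [mor_mul, K.map_comp_apply, huH] at h1
    exact h1
  obtain ⟨q, hq⟩ : ∃ q : ℤ → K.zeroRing M.X, ∀ s, q s = P s * f * P s := ⟨_, fun s => rfl⟩
  have hqq : ∀ s, q s * q s = q s := fun s => by rw [hq, hi]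
  have hqo : ∀ s t, s ≠ t → q s * q t = 0 := by
    intro s t hst
    rw [hq, hq]
    have h4 : (P s * f * P s) * (P t * f * P t) = P s * f * (P s * P t) * f * P t := by
      simp only [mul_assoc]
    rw [h4, hO.orth s t hst, mul_zero, zero_mul, zero_mul]
  have hqz : ∀ s, s ∉ S → q s = 0 := fun s hs => by rw [hq, hO.zero s hs, mul_zero]
  have hqs : u * (∑ s ∈ S, q s) * v = f := by
    rw [hfd]
    congr 2
    exact Finset.sum_congr rfl fun s _ => hq s
  refine ⟨{ p := fun w => mor (u * q (w - 2 * M.r) * v), mem := fun w => mor_mem _,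
            idem := ?_, orth := ?_, finite := ?_, sum := ?_, hom_act := ?_ }⟩
  · intro w
    rw [← mor_mul]
    congr 1
    calc u * q (w - 2 * M.r) * v * (u * q (w - 2 * M.r) * v)
        = u * q (w - 2 * M.r) * (v * u) * q (w - 2 * M.r) * v := by simp only [mul_assoc]
      _ = u * (q (w - 2 * M.r) * q (w - 2 * M.r)) * v := by
          rw [hvu, mul_one]
          simp only [mul_assoc]
      _ = u * q (w - 2 * M.r) * v := by rw [hqq]
  · intro w w' hw
    rw [← mor_mul]
    refine (congrArg mor ?_).trans mor_zero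
    calc u * q (w' - 2 * M.r) * v * (u * q (w - 2 * M.r) * v)
        = u * q (w' - 2 * M.r) * (v * u) * q (w - 2 * M.r) * v := by simp only [mul_assoc]
      _ = u * (q (w' - 2 * M.r) * q (w - 2 * M.r)) * v := by
          rw [hvu, mul_one]
          simp only [mul_assoc]
      _ = 0 := by rw [hqo _ _ (by omega), mul_zero, zero_mul]
  · refine ((S.image (fun s => s + 2 * M.r)).finite_toSet).subset fun w hw => ?_
    by_contra h
    apply hw
    change mor (u * q (w - 2 * M.r) * v) = 0
    rw [hqz, mul_zero, zero_mul, mor_zero]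
    intro hs
    exact h (by
      rw [Finset.mem_coe, Finset.mem_image]
      exact ⟨_, hs, by ring⟩)
  · rw [finsum_eq_sum_of_support_subset (s := S.image (fun s => s + 2 * M.r))]
    · rw [Finset.sum_image (fun a _ b _ hab => by
        have : a + 2 * M.r = b + 2 * M.r := hab
        omega), ← hf, ← hqs, ← mor_sum]
      congr 1
      rw [Finset.mul_sum, Finset.sum_mul]
      refine Finset.sum_congr rfl fun s _ => ?_
      rw [add_sub_cancel_right]
    · intro w hw
      by_contra h
      apply hw
      change mor (u * q (w - 2 * M.r) * v) = 0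
      rw [hqz, mul_zero, zero_mul, mor_zero]
      intro hs
      exact h (by
        rw [Finset.mem_coe, Finset.mem_image]
        exact ⟨_, hs, by ring⟩)
  · intro w m x hx
    show (K.H.map (mor (u * q (w - 2 * M.r) * v))).hom x =
      if m = w then (K.H.map M.f).hom x else 0
    have h1 : (K.H.map (mor (u * q (w - 2 * M.r) * v))).hom x =
        (K.H.map (mor (q (w - 2 * M.r)))).hom x := by
      rw [mor_mul, mor_mul, K.map_comp_apply, K.map_comp_apply, hvH, huH]
    rw [h1, hq, mor_mul, mor_mul, hP, hf, K.map_comp_apply, K.map_comp_apply]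
    by_cases hm : m = w
    · subst hm
      rw [if_pos rfl, e.homology_self hx]
      have h2 : (K.H.map M.f).hom x ∈ K.gr M.X (m - 2 * M.r) := by
        have := K.map_gr M.mem _ x hx
        simpa using this
      rw [e.homology_self h2]
    · rw [if_neg hm, e.homology_ne (by omega) hx, map_zero, map_zero]

theorem Good.murreAll {M : Mot K} {e : CK K M.X} (hg : Good e) : M.MurreAll :=
  ⟨exists_motCK e hg.tri, hg.murreC, fun π => ⟨hg.allB π, hg.allD π⟩⟩

/-- `(A)`, `(C)`, `(D)` for one decomposition of `h(X)` imply `(D)` for every decomposition -/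
theorem murreD_of_murre {X : C} (h : (Mot.mk X (𝟙 X) 0 (K.id_mem X) (Category.id_comp _) :
    Mot K).Murre) (e : CK K X) (l : ℤ) : e.MurreD l := by
  have := K.additive
  obtain ⟨hC, π, hB, hD⟩ := h
  intro x hx h0
  obtain ⟨π', hπ'⟩ : ∃ π' : (Mot.mk X (𝟙 X) 0 (K.id_mem X) (Category.id_comp _) : Mot K).CK,
      ∀ i, π'.p i = e.p i :=
    ⟨{ p := e.p, mem := e.mem, idem := e.idem, orth := e.orth, finite := e.finite,
       sum := e.sum,
       hom_act := fun i j x hx => by
        show (K.H.map (e.p i)).hom x = if j = i then (K.H.map (𝟙 X)).hom x else 0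
        rw [e.homology i j x (by simpa using hx)]
        rw [K.map_id_apply] }, fun i => rfl⟩
  have hx' : x ∈ (Mot.mk X (𝟙 X) 0 (K.id_mem X) (Category.id_comp _) : Mot K).CH l :=
    ⟨by simpa using hx, Category.comp_id x⟩
  have h1 : π.Fil 1 l x := by
    refine ⟨hx', fun i hi => ?_⟩
    rcases lt_or_eq_of_le (show i ≤ 2 * l by omega) with hi | rfl
    · exact hB l x hx' i hi
    · exact hD l x hx' h0
  have h2 := ((hC π π' 1 l x).1 h1).2 (2 * l) (by omega)
  rwa [hπ'] at h2

end Pool.Agent.LckM
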