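import Pool.Agent.LckM.ProdC
import Pool.Agent.LckM.MotA

/-!
# From Murre's conjectures to Lefschetz-Chow-Kuenneth decompositions and nilpotence
-/

set_option autoImplicit false

open CategoryTheory MonoidalCategory
open Pool.Agent.LefCK

universe w v u

namespace Pool.Agent.LckM

variable {C : Type u} [Category.{v} C] [Preadditive C] [Linear ℚ C]
  [MonoidalCategory C] {F : Type w} [Field F] {K : Correspondences C F}

/-- Murre's conjectures for `(X, 1, 0)` imply (B) and (D) for every decomposition of `h(X)`. -/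
theorem all_of_murre {X : C} (h : (Mot.mk X (𝟙 X) 0 (K.id_mem X) (Category.id_comp _) :
    Mot K).Murre) (e : CK K X) (l : ℤ) : e.MurreB l ∧ e.MurreD l := by
  refine ⟨?_, murreD_of_murre h e l⟩
  have := K.additive
  obtain ⟨hC, π, hB, hD⟩ := h
  intro x hx i hi
  obtain ⟨π', hπ'⟩ : ∃ π' : (Mot.mk X (𝟙 X) 0 (K.id_mem X) (Category.id_comp _) : Mot K).CK,
      ∀ i, π'.p i = e.p i :=
    ⟨{ p := e.p, mem := e.mem, idem := e.idem, orth := e.orth, finite := e.finite,
       sum := e.sum,
       hom_act := fun i j x hx => by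
        show (K.H.map (e.p i)).hom x = if j = i then (K.H.map (𝟙 X)).hom x else 0
        rw [e.homology i j x (by simpa using hx)]
        rw [K.map_id_apply] }, fun i => rfl⟩
  have hx' : x ∈ (Mot.mk X (𝟙 X) 0 (K.id_mem X) (Category.id_comp _) : Mot K).CH l :=
    ⟨by simpa using hx, Category.comp_id x⟩
  have h1 : π.Fil 0 l x := ⟨hx', fun i hi => hB l x hx' i (by omega)⟩
  have h2 := ((hC π π' 0 l x).1 h1).2 i (by omega)
  rwa [hπ'] at h2

/-- Murre's conjectures for `(X, 1, 0)` give a decomposition of `h(X)`. -/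
theorem ck_of_murre {X : C} (h : (Mot.mk X (𝟙 X) 0 (K.id_mem X) (Category.id_comp _) :
    Mot K).Murre) : Nonempty (CK K X) := by
  obtain ⟨-, π, -, -⟩ := h
  exact ⟨{
    p := π.p
    mem := π.mem
    idem := π.idem
    orth := π.orth
    finite := π.finite
    sum := π.sum
    homology := fun i j x hx => by
      have h1 := π.homology i j x (by simpa using hx)
      rw [h1]
      change (if j = i then (K.H.map (𝟙 X)).hom x else 0) = if j = i then x else 0
      rw [K.map_id_apply] }⟩

/-- the composition `L₁ ≫ ⋯ ≫ L_r` -/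
def cmp {X : C} : List (ℕ × (X ⟶ X)) → (X ⟶ X)
  | [] => 𝟙 X
  | a :: l => a.2 ≫ cmp l

theorem cmp_mem {X : C} (l : List (ℕ × (X ⟶ X))) (hl : ∀ a ∈ l, a.2 ∈ K.deg X X a.1) :
    cmp l ∈ K.deg X X (total l) := by
  induction l with
  | nil =>
    rw [total_nil]
    exact K.id_mem X
  | cons a l ih =>
    rw [total_cons]
    exact K.comp_mem (hl a (by simp)) (ih fun b hb => hl b (List.mem_cons_of_mem _ hb))

/-- the weights of the correspondences `X → X`: they are not lowered, and a correspondence which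
preserves the weights is determined by its action on the homology -/
structure Weights {X : C} (e : CK K X) : Prop where
  tri : ∀ {d : ℤ} {f : X ⟶ X}, f ∈ K.deg X X d → ∀ i j : ℤ, i < j - 2 * d →
    e.p j ≫ f ≫ e.p i = 0
  diag : ∀ {d : ℤ} {f : X ⟶ X}, f ∈ K.deg X X d → ∀ i j : ℤ, i = j - 2 * d →
    K.H.map (e.p j ≫ f ≫ e.p i) = 0 → e.p j ≫ f ≫ e.p i = 0

theorem Weights.lead_eq {X : C} {e : CK K X} (W : Weights e) (l : List (ℕ × (X ⟶ X)))
    (hl : ∀ a ∈ l, a.2 ∈ K.deg X X a.1) (w : ℤ) :
    lead e.p w l = e.p w ≫ cmp l ≫ e.p (w - 2 * total l) := by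
  induction l generalizing w with
  | nil =>
    rw [total_nil, mul_zero, sub_zero, lead_nil, cmp, Category.id_comp, e.idem]
  | cons a l ih =>
    have hl' : ∀ b ∈ l, b.2 ∈ K.deg X X b.1 := fun b hb => hl b (List.mem_cons_of_mem _ hb)
    have h0 : w - 2 * (a.1 : ℤ) - 2 * total l = w - 2 * total (a :: l) := by
      rw [total_cons]
      ring
    rw [lead_cons, ih hl', h0, cmp]
    have h1 : (e.p w ≫ a.2) ≫ (cmp l ≫ e.p (w - 2 * total (a :: l))) =
        (e.p w ≫ a.2) ≫ e.p (w - 2 * (a.1 : ℤ)) ≫ (cmp l ≫ e.p (w - 2 * total (a :: l))) := by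
      refine e.comp_eq _ _ _ fun k hk => ?_
      rcases lt_or_gt_of_ne hk with hk | hk
      · rw [← Category.assoc, Category.assoc (e.p w), W.tri (hl a (by simp)) k w hk,
          Limits.zero_comp]
      · rw [W.tri (cmp_mem l hl') _ k (by rw [← h0]; omega), Limits.comp_zero]
    simp only [Category.assoc] at h1 ⊢
    exact h1.symm

/-- hard Lefschetz for the Chow motives from the Lefschetz standard conjecture -/
theorem Weights.hard {X : C} {e : CK K X} (W : Weights e) (n : ℤ) (l : List (ℕ × (X ⟶ X)))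
    (hl : ∀ a ∈ l, a.2 ∈ K.deg X X a.1) {G : X ⟶ X} (hG : G ∈ K.deg X X (-total l))
    (h1 : ∀ x ∈ K.gr X (n + total l), (K.H.map (cmp l ≫ G)).hom x = x)
    (h2 : ∀ x ∈ K.gr X (n - total l), (K.H.map (G ≫ cmp l)).hom x = x) :
    ∃ G' ∈ K.deg X X (-total l), lead e.p (n + total l) l ≫ G' = e.p (n + total l) ∧
      G' ≫ lead e.p (n + total l) l = e.p (n - total l) := by
  have := K.additive
  have hw : n + total l - 2 * total l = n - total l := by ring
  have hc := cmp_mem l hl
  refine ⟨e.p (n - total l) ≫ G ≫ e.p (n + total l), ?_, ?_, ?_⟩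
  · exact K.comp_mem' (e.mem _) (K.comp_mem hG (e.mem _)) (by ring)
  · rw [W.lead_eq l hl, hw]
    have h3 : e.p (n + total l) ≫ (cmp l ≫ e.p (n - total l) ≫ G - 𝟙 X) ≫ e.p (n + total l) =
        0 := by
      refine W.diag (d := 0) ?_ _ _ (by ring) ?_
      · refine Submodule.sub_mem _ ?_ (K.id_mem X)
        exact K.comp_mem' hc (K.comp_mem (e.mem _) hG) (by ring)
      · ext x
        change (K.H.map (e.p (n + total l) ≫ (cmp l ≫ e.p (n - total l) ≫ G - 𝟙 X) ≫
          e.p (n + total l))).hom x = 0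
        induction x using K.gr_induction with
        | zero => rw [map_zero]
        | mem m x hx =>
          rw [K.map_comp_apply, K.map_comp_apply]
          by_cases hm : m = n + total l
          · subst hm
            rw [e.homology_self hx, K.map_sub_apply, K.map_comp_apply, K.map_comp_apply,
              K.map_id_apply]
            have h4 := K.map_gr hc _ x hx
            rw [hw] at h4
            rw [e.homology_self h4, ← K.map_comp_apply, h1 x hx, sub_self, map_zero]
          · rw [e.homology_ne hm hx, map_zero, map_zero]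
        | add x y hx hy => rw [map_add, hx, hy, add_zero]
    have h4 : e.p (n + total l) ≫ (cmp l ≫ e.p (n - total l) ≫ G - 𝟙 X) ≫ e.p (n + total l) =
        e.p (n + total l) ≫ cmp l ≫ e.p (n - total l) ≫ G ≫ e.p (n + total l) -
          e.p (n + total l) := by
      simp only [Preadditive.sub_comp, Preadditive.comp_sub, Category.assoc, Category.id_comp]
      rw [e.idem]
    rw [h4, sub_eq_zero] at h3
    refine Eq.trans ?_ h3
    simp only [Category.assoc]
    rw [← Category.assoc (e.p (n - total l)) (e.p (n - total l)), e.idem]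
  · rw [W.lead_eq l hl, hw]
    have h3 : e.p (n - total l) ≫ (G ≫ e.p (n + total l) ≫ cmp l - 𝟙 X) ≫ e.p (n - total l) =
        0 := by
      refine W.diag (d := 0) ?_ _ _ (by ring) ?_
      · refine Submodule.sub_mem _ ?_ (K.id_mem X)
        exact K.comp_mem' hG (K.comp_mem (e.mem _) hc) (by ring)
      · ext x
        change (K.H.map (e.p (n - total l) ≫ (G ≫ e.p (n + total l) ≫ cmp l - 𝟙 X) ≫
          e.p (n - total l))).hom x = 0
        induction x using K.gr_induction with
        | zero => rw [map_zero]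
        | mem m x hx =>
          rw [K.map_comp_apply, K.map_comp_apply]
          by_cases hm : m = n - total l
          · subst hm
            rw [e.homology_self hx, K.map_sub_apply, K.map_comp_apply, K.map_comp_apply,
              K.map_id_apply]
            have h4 := K.map_gr hG _ x hx
            have h5 : n - total l - 2 * -total l = n + total l := by ring
            rw [h5] at h4
            rw [e.homology_self h4, ← K.map_comp_apply, h2 x hx, sub_self, map_zero]
          · rw [e.homology_ne hm hx, map_zero, map_zero]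
        | add x y hx hy => rw [map_add, hx, hy, add_zero]
    have h4 : e.p (n - total l) ≫ (G ≫ e.p (n + total l) ≫ cmp l - 𝟙 X) ≫ e.p (n - total l) =
        e.p (n - total l) ≫ G ≫ e.p (n + total l) ≫ cmp l ≫ e.p (n - total l) -
          e.p (n - total l) := by
      simp only [Preadditive.sub_comp, Preadditive.comp_sub, Category.assoc, Category.id_comp]
      rw [e.idem]
    rw [h4, sub_eq_zero] at h3
    refine Eq.trans ?_ h3
    simp only [Category.assoc]
    rw [← Category.assoc (e.p (n + total l)) (e.p (n + total l)), e.idem]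

/-- an LCK of `P` from the Lefschetz standard conjecture for `P` -/
theorem Weights.exists_lck {P : Pol C} {e : CK K P.X} (W : Weights e)
    (hL : ∀ c : ℕ, ∀ L ∈ P.L c, L ∈ K.deg P.X P.X c)
    (hS : ∀ l : List (ℕ × (P.X ⟶ P.X)), l ≠ [] → (∀ a ∈ l, 0 < a.1 ∧ a.2 ∈ P.L a.1) →
      ∃ G ∈ K.deg P.X P.X (-total l),
        (∀ x ∈ K.gr P.X (P.n + total l), (K.H.map (cmp l ≫ G)).hom x = x) ∧
        ∀ x ∈ K.gr P.X (P.n - total l), (K.H.map (G ≫ cmp l)).hom x = x) :
    ∃ E : LCK K P, E.toCK = e := by
  refine ⟨{ toCK := e, mem_L := hL, nonneg := ?_, hard := ?_ }, rfl⟩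
  · intro c L hLc i j hij
    exact W.tri (hL c L hLc) i j hij
  · intro l hl hl'
    obtain ⟨G, hG, h1, h2⟩ := hS l hl hl'
    exact W.hard P.n l (fun a ha => hL _ _ (hl' a ha).2) hG h1 h2

/-- **nilpotence**: if `Weights e` holds, and there are no correspondences `X → X` of large
degree, then the products of many homologically trivial homogeneous correspondences are zero. -/
theorem Weights.nilpotent {X : C} {e : CK K X} (W : Weights e) (n : ℤ)
    (hn : ∀ d : ℤ, n < d → ∀ f ∈ K.deg X X d, f = 0) : NilpotentIdeal K X := by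
  have := K.additive
  obtain ⟨s, hs, -⟩ := e.exists_finset
  obtain ⟨a, ha⟩ : ∃ a : ℤ, ∀ i < a, e.p i = 0 := by
    obtain ⟨M, hM⟩ := s.bddBelow
    refine ⟨M, fun i hi => hs i fun his => ?_⟩
    have := hM his
    omega
  obtain ⟨b, hb⟩ : ∃ b : ℤ, ∀ i > b, e.p i = 0 := by
    obtain ⟨M, hM⟩ := s.bddAbove
    refine ⟨M, fun i hi => hs i fun his => ?_⟩
    have := hM his
    omega
  have key : ∀ l : List (X ⟶ X),
      (∀ f ∈ l, (∃ d : ℤ, f ∈ K.deg X X d) ∧ K.H.map f = 0) →
      ∃ d : ℤ, l.foldr (· ≫ ·) (𝟙 X) ∈ K.deg X X d ∧ ∀ i j : ℤ, i < j - 2 * d + l.length →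
        e.p j ≫ l.foldr (· ≫ ·) (𝟙 X) ≫ e.p i = 0 := by
    intro l
    induction l with
    | nil =>
      intro _
      refine ⟨0, K.id_mem X, fun i j hij => ?_⟩
      change e.p j ≫ 𝟙 X ≫ e.p i = 0
      rw [Category.id_comp, e.orth j i (by
        rw [List.length_nil] at hij
        push_cast at hij
        omega)]
    | cons f l ih =>
      intro hl
      obtain ⟨d, hd, hz⟩ := ih fun g hg => hl g (List.mem_cons_of_mem _ hg)
      obtain ⟨⟨d', hd'⟩, h0⟩ := hl f (by simp)
      refine ⟨d' + d, ?_, fun i j hij => ?_⟩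
      · rw [List.foldr_cons]
        exact K.comp_mem hd' hd
      · rw [List.foldr_cons]
        have h3 : (e.p j ≫ f) ≫ (l.foldr (· ≫ ·) (𝟙 X) ≫ e.p i) = 0 := by
          refine e.comp_eq_zero _ _ fun k => ?_
          rw [List.length_cons] at hij
          push_cast at hij
          rcases lt_or_ge i (k - 2 * d + l.length) with hk | hk
          · rw [hz i k hk, Limits.comp_zero]
          · have h1 : e.p j ≫ f ≫ e.p k = 0 := by
              rcases lt_or_eq_of_le (show k ≤ j - 2 * d' by omega) with h | h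
              · exact W.tri hd' k j h
              · refine W.diag hd' k j h ?_
                rw [K.H.map_comp, K.H.map_comp, h0, Limits.zero_comp, Limits.comp_zero]
            rw [← Category.assoc, Category.assoc (e.p j), h1, Limits.zero_comp]
        simpa only [Category.assoc] using h3
  refine ⟨(b - a + 2 * n + 1).toNat, fun l hlen hl => ?_⟩
  obtain ⟨d, hd, hz⟩ := key l hl
  rcases lt_or_ge n d with h | h
  · exact hn d h _ hd
  have hlen' : b - a + 2 * n + 1 ≤ (l.length : ℤ) := by
    rw [hlen]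
    exact Int.self_le_toNat _
  generalize l.foldr (· ≫ ·) (𝟙 X) = R at hz ⊢
  have h1 : 𝟙 X ≫ R = 0 := by
    refine e.comp_eq_zero _ _ fun j => ?_
    rw [Category.id_comp]
    have h2 : (e.p j ≫ R) ≫ 𝟙 X = 0 := by
      refine e.comp_eq_zero _ _ fun i => ?_
      rw [Category.comp_id, Category.assoc]
      rcases lt_or_ge i a with hi | hi
      · rw [ha i hi, Limits.comp_zero, Limits.comp_zero]
      rcases lt_or_ge b i with hi' | hi'
      · rw [hb i hi', Limits.comp_zero, Limits.comp_zero]
      rcases lt_or_ge j a with hj | hj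
      · rw [ha j hj, Limits.zero_comp]
      rcases lt_or_ge b j with hj' | hj'
      · rw [hb j hj', Limits.zero_comp]
      exact hz i j (by omega)
    rwa [Category.comp_id] at h2
  rwa [Category.id_comp] at h1

/-- a correspondence of degree 0 which acts as zero on `H_j(X)` for `j ≠ 2m` is nilpotent on
`CH_m(X)_hom` -/
theorem Weights.uniform {X : C} {e : CK K X} (W : Weights e) {m : ℤ}
    (hB : e.MurreB m) (hD : e.MurreD m) : ∃ N : ℕ, ∀ θ ∈ K.deg X X 0,
      (∀ j : ℤ, j ≠ 2 * m → ∀ h ∈ K.gr X j, (K.H.map θ).hom h = 0) →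
      ∀ x ∈ CH K X m, K.H.map x = 0 → x ≫ pow θ N = 0 := by
  have := K.additive
  obtain ⟨s, hs, -⟩ := e.exists_finset
  obtain ⟨b, hb⟩ : ∃ b : ℤ, ∀ i > b, e.p i = 0 := by
    obtain ⟨M, hM⟩ := s.bddAbove
    refine ⟨M, fun i hi => hs i fun his => ?_⟩
    have := hM his
    omega
  refine ⟨(b - 2 * m).toNat, fun θ hθ h0 x hx hx0 => ?_⟩
  have hz : ∀ j : ℤ, j ≠ 2 * m → e.p j ≫ θ ≫ e.p j = 0 := by
    intro j hj
    refine W.diag hθ j j (by ring) ?_
    ext y
    change (K.H.map (e.p j ≫ θ ≫ e.p j)).hom y = 0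
    rw [K.map_comp_apply, K.map_comp_apply, h0 j hj _ (e.map_p_mem j y), map_zero]
  have key : ∀ N : ℕ, ∀ i : ℤ, i ≤ 2 * m + N → (x ≫ pow θ N) ≫ e.p i = 0 := by
    intro N
    induction N with
    | zero =>
      intro i hi
      rw [pow, Category.comp_id]
      rcases lt_or_eq_of_le hi with h | h
      · exact hB x hx i (by push_cast at h; omega)
      · have h1 := hD x hx hx0
        have h2 : i = 2 * m := by push_cast at h; omega
        rwa [h2]
    | succ N ih =>
      intro i hi
      have h1 : (x ≫ pow θ N) ≫ (θ ≫ e.p i) = 0 := by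
        refine e.comp_eq_zero _ _ fun k => ?_
        rcases le_or_gt k (2 * m + N) with hk | hk
        · rw [← Category.assoc, ih k hk, Limits.zero_comp]
        · push_cast at hi
          rcases lt_or_eq_of_le (show i ≤ k by omega) with h | rfl
          · rw [W.tri hθ i k (by omega), Limits.comp_zero]
          · rw [hz i (by omega), Limits.comp_zero]
      rw [pow]
      simpa only [Category.assoc] using h1
  apply eq_zero_of_all e
  intro i
  rcases le_or_gt i (2 * m + (b - 2 * m).toNat) with hi | hi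
  · exact key _ i hi
  · rw [hb i (by have := Int.self_le_toNat (b - 2 * m); omega), Limits.comp_zero]

theorem Weights.locally_nilpotent {X : C} {e : CK K X} (W : Weights e) {m : ℤ}
    (hB : e.MurreB m) (hD : e.MurreD m) {θ : X ⟶ X} (hθ : θ ∈ K.deg X X 0)
    (h0 : ∀ j : ℤ, j ≠ 2 * m → ∀ h ∈ K.gr X j, (K.H.map θ).hom h = 0) {x : 𝟙_ C ⟶ X}
    (hx : x ∈ CH K X m) (hx0 : K.H.map x = 0) : ∃ N : ℕ, x ≫ pow θ N = 0 := by
  obtain ⟨N, hN⟩ := W.uniform hB hD
  exact ⟨N, hN θ hθ h0 x hx hx0⟩

variable [MonoidalPreadditive C] {D : Divisors K}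

/-- **from Murre's conjectures for `X × X`** -/
theorem Duality.weights_of_murre (T : Duality K D) {X : C} (h : (Mot.mk (X ⊗ X) (𝟙 (X ⊗ X)) 0
    (K.id_mem _) (Category.id_comp _) : Mot K).Murre) (e : CK K X) : Weights e := by
  obtain ⟨q, h1, h2⟩ := T.exists_prod e e
  exact ⟨h1 fun l => (all_of_murre h q l).1, h2 fun l => (all_of_murre h q l).2⟩

end Pool.Agent.LckM
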