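import Pool.Agent.LckM.Pen

/-!
# The levels
-/

set_option autoImplicit false

open CategoryTheory MonoidalCategory
open Pool.Agent.LefCK

universe w v u

namespace Pool.Agent.LckM

variable {F : Type w} [Field F] {G : Fields.{w, v, u} F} {V : G.Class}

theorem dTop (hV : G.Pencils V) {n l : ℤ} (hl : n ≤ l) : DAt V n l := by
  rintro k P hk hP rfl e x hx h0
  rcases lt_or_eq_of_le hl with h | h
  · rw [(G.th k).D.high P.X l (by rw [hV.dim_eq hP]; exact h) x hx, Limits.zero_comp]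
  · rw [(G.th k).D.fund P.X x (by rw [hV.dim_eq hP, h]; exact hx) h0, Limits.zero_comp]

theorem bTop (hV : G.Pencils V) {n l : ℤ} (hl : n ≤ l) : BAt V n l := by
  rintro k P hk hP rfl e x hx i hi
  exact top_zero hV hP hl e.toCK hx hi

theorem bNeg {n l : ℤ} (hl : l < 0) : BAt V n l := by
  rintro k P hk hP rfl e x hx i hi
  rw [(G.th k).D.low P.X l hl x hx, Limits.zero_comp]

theorem dNeg {n l : ℤ} (hl : l < 0) : DAt V n l := by
  rintro k P hk hP rfl e x hx h0
  rw [(G.th k).D.low P.X l hl x hx, Limits.zero_comp]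

theorem middle_zero (hV : G.Pencils V) : G.MiddleD V 0 := by
  intro k P hk hP hn e
  exact dTop hV (n := P.n) (l := ((0 : ℕ) : ℤ)) (by rw [hn]; simp) k P hk hP rfl e

theorem middle_one (hV : G.Pencils V) : G.MiddleD V 1 := by
  intro k P hk hP hn e x hx h0
  have hd : (G.th k).D.dim P.X = 2 := by rw [hV.dim_eq hP, hn]; rfl
  refine (G.th k).D.picard P.X P.X (e.p (2 * ((1 : ℕ) : ℤ))) ?_ ?_ x ?_ h0
  · rw [sub_self]
    exact e.mem _
  · intro h hh
    refine e.toCK.homology_ne ?_ hh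
    rw [hd]
    norm_num
  · rw [hd]
    exact hx

theorem range (hV : G.Pencils V) {m : ℕ} (hM : ∀ j ≤ m, G.MiddleD V j) (N : ℕ) :
    (∀ l : ℤ, (l ≤ m + 1 ∨ (N : ℤ) ≤ l + m) → BAt V N l) ∧
      (∀ l : ℤ, (l ≤ m ∨ (N : ℤ) ≤ l + m) → DAt V N l) := by
  induction N with
  | zero =>
    constructor
    · intro l _
      rcases lt_or_ge l 0 with h | h
      · exact bNeg h
      · exact bTop hV (by exact_mod_cast h)
    · intro l _
      rcases lt_or_ge l 0 with h | h
      · exact dNeg h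
      · exact dTop hV (by exact_mod_cast h)
  | succ N ih =>
    obtain ⟨hB, hD⟩ := ih
    have hN : ((N + 1 : ℕ) : ℤ) - 1 = (N : ℤ) := by push_cast; ring
    have hN' : ((N + 1 : ℕ) : ℤ) = (N : ℤ) + 1 := by push_cast; ring
    constructor
    · intro l hl
      rcases le_or_gt (2 * l) ((N + 1 : ℕ) : ℤ) with h | h
      · refine bLow hV (by omega) h ?_
        rw [hN]
        exact hB l (by omega)
      · refine bHigh hV (by omega) h ?_ ?_ ?_
        · rw [hN]
          exact hB (l - 1) (by omega)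
        · rw [hN]
          exact hD (l - 1) (by omega)
        · rw [hN]
          exact hB l (by omega)
    · intro l hl
      rcases lt_trichotomy (2 * l) ((N + 1 : ℕ) : ℤ) with h | h | h
      · refine dLow hV (by omega) h ?_ ?_
        · rw [hN]
          exact hB l (by omega)
        · rw [hN]
          exact hD l (by omega)
      · obtain ⟨j, hj⟩ : ∃ j : ℕ, (j : ℤ) = l := ⟨l.toNat, Int.toNat_of_nonneg (by omega)⟩
        intro k P hk hP hn e
        have h1 := hM j (by omega) k P hk hP (by rw [hn, hj, h]) e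
        rwa [hj] at h1
      · refine dHigh hV (by omega) h ?_
        rw [hN]
        exact hD (l - 1) (by omega)

/-- descent from the algebraic closure -/
theorem murreB_of_map {S S' : Theory.{w, v, u} F} (B : BaseChange S.K S'.K) {P : Pol S.C}
    (e : LCK S.K P) {l : ℤ} (h : ∀ e' : LCK S'.K (B.pol P), e'.MurreB l) : e.MurreB l := by
  obtain ⟨e', he'⟩ := B.exists_lck e
  intro x hx i hi
  have h1 := h e' (B.cyc x) (B.cyc_mem hx) i hi
  apply B.cyc_inj
  rw [B.cyc_comp, ← he']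
  exact h1

theorem murreD_of_map {S S' : Theory.{w, v, u} F} (B : BaseChange S.K S'.K) {P : Pol S.C}
    (e : LCK S.K P) {l : ℤ} (h : ∀ e' : LCK S'.K (B.pol P), e'.MurreD l) : e.MurreD l := by
  obtain ⟨e', he'⟩ := B.exists_lck e
  intro x hx h0
  have h1 := h e' (B.cyc x) (B.cyc_mem hx) (B.cyc_hom h0)
  apply B.cyc_inj
  rw [B.cyc_comp, ← he']
  exact h1

/-- (B) for the cycles of dimension `≤ m + 1` or of codimension `≤ m`, over algebraically closed
fields -/
def BRange (V : G.Class) (m : ℕ) : Prop :=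
  ∀ (N : ℕ) (l : ℤ), (l ≤ m + 1 ∨ (N : ℤ) ≤ l + m) → BAt V N l

/-- the piece `CH_l(M_i)` -/
def PAt (V : G.Class) (n l i : ℤ) : Prop :=
  ∀ (k : G.Fld) (P : Pol (G.th k).C), G.Closed k → V k P → P.n = n →
    ∀ e : LCK (G.th k).K P, ∀ x ∈ CH (G.th k).K P.X l, x ≫ e.p i = 0

section one

variable {C : Type u} [Category.{v} C] [Preadditive C] [Linear ℚ C]
  [MonoidalCategory C] {K : Correspondences C F} {P : Pol C}
  {e : LCK K P} {Z : ZeroLocus K P} {q : CK K Z.Y}

theorem Adapted.piece (A : Adapted e Z q) (hc : Z.c = 1) {l i : ℤ} (hi : i < P.n)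
    (h : ∀ y ∈ CH K Z.Y l, y ≫ q.p i = 0) {x : 𝟙_ C ⟶ P.X} (hx : x ∈ CH K P.X l) :
    x ≫ e.p i = 0 := by
  obtain ⟨t, ht, h1⟩ := exists_left e Z i (by rw [hc]; push_cast; omega)
  obtain ⟨σ, hσ⟩ : ∃ σ, σ = t ≫ e.p (i + 2 * (Z.c : ℤ)) ≫ Z.pull := ⟨_, rfl⟩
  have hσm : σ ∈ K.deg P.X Z.Y 0 := by
    rw [hσ]
    exact K.comp_mem' ht (K.comp_mem' (e.mem _) Z.pull_mem (zero_add _)) (by ring)
  have hσ1 : σ ≫ Z.push ≫ e.p i = e.p i := by
    rw [hσ]
    simpa only [Category.assoc] using h1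
  have hσ2 : ∀ j < i, σ ≫ q.p j = 0 := by
    intro j hj
    have h2 := A.pull j (i + 2 * (Z.c : ℤ)) (by omega)
    rw [hσ]
    simp only [Category.assoc]
    rw [h2, Limits.comp_zero]
  have h3 : (x ≫ σ) ≫ Z.push ≫ e.p i = 0 := by
    refine q.comp_eq_zero _ _ fun j => ?_
    rcases lt_trichotomy j i with hj | rfl | hj
    · rw [← Category.assoc, Category.assoc x, hσ2 j hj, Limits.comp_zero, Limits.zero_comp]
    · rw [← Category.assoc, h _ (K.comp_mem' hx hσm (add_zero _)), Limits.zero_comp]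
    · rw [A.push i j hj, Limits.comp_zero]
  rw [← hσ1, ← h3]
  simp only [Category.assoc]

end one

theorem pStep (hV : G.Pencils V) {n l i : ℤ} (hn : 0 < n) (hi : i < n)
    (h : PAt V (n - 1) l i) : PAt V n l i := by
  rintro k P hk hP rfl e x hx
  obtain ⟨L, k', B, Z, -, hk', -, hc, -, hVZ, -⟩ := hV.pencil hk hP hn
  obtain ⟨e', he'⟩ := B.exists_lck e
  obtain ⟨q, A⟩ := exists_adapted e' Z
  obtain ⟨L', hL', hVZ'⟩ := hVZ
  obtain ⟨q', hq'⟩ := LCK_restrict q hL'
  have h1 := A.piece hc (l := l) (i := i) hi (fun y hy => by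
    rw [← hq']
    exact h k' _ hk' hVZ' (by
      change P.n - (Z.c : ℤ) = P.n - 1
      rw [hc]
      rfl) q' y hy) (x := B.cyc x) (B.cyc_mem hx)
  apply B.cyc_inj
  rw [B.cyc_comp, ← he']
  exact h1

theorem pieces (hV : G.Pencils V) {m : ℕ} (h : BRange V m) {l i : ℤ} (hil : i < 2 * l)
    (hi : i ≤ l + m) (N : ℕ) : PAt V N l i := by
  have hB : ∀ {N : ℕ}, BAt V N l → PAt V N l i := fun hB k P hk hP hn e x hx =>
    hB k P hk hP hn e x hx i hil
  induction N with
  | zero => exact hB (h 0 l (by omega))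
  | succ N ih =>
    rcases lt_or_ge i ((N + 1 : ℕ) : ℤ) with h1 | h1
    · refine pStep hV (by omega) h1 ?_
      have h2 : ((N + 1 : ℕ) : ℤ) - 1 = (N : ℤ) := by push_cast; ring
      rwa [h2]
    · exact hB (h (N + 1) l (Or.inr (by omega)))

theorem rangeB_of (hV : G.Pencils V) {m : ℕ} (h : BRange V m) : G.RangeB V m := by
  intro k P hP e l i hil hi x hx
  obtain ⟨k', B, hk', L', hL', hP'⟩ := hV.closure hP
  obtain ⟨N, hN⟩ : ∃ N : ℕ, (N : ℤ) = P.n :=
    ⟨P.n.toNat, Int.toNat_of_nonneg (hV.dim_nonneg hP)⟩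
  obtain ⟨e', he'⟩ := B.exists_lck e
  obtain ⟨e'', he''⟩ := LCK_restrict e' hL'
  have h1 : B.cyc x ≫ e''.p i = 0 := by
    rcases hi with hi | hi
    · exact pieces hV h hil hi N k' _ hk' hP' hN.symm e'' _ (B.cyc_mem hx)
    · exact h N l (Or.inr (by rw [hN]; exact hi)) k' _ hk' hP' hN.symm e'' _ (B.cyc_mem hx) i hil
  apply B.cyc_inj
  rw [B.cyc_comp, ← he', ← he'']
  exact h1

theorem level (hV : G.Pencils V) (m : ℕ) :
    (G.RangeB V m ∧ G.RangeD V m) ↔ ∀ j ≤ m, G.MiddleD V j := by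
  constructor
  · rintro ⟨-, h⟩ j hj k P _ hP _ e
    exact h k P hP e j (Or.inl (by exact_mod_cast hj))
  · intro hM
    refine ⟨rangeB_of hV fun N l hl => (range hV hM N).1 l hl, ?_⟩
    intro k P hP e l hl
    obtain ⟨k', B, hk', hP'⟩ := hV.closure hP
    obtain ⟨N, hN⟩ : ∃ N : ℕ, (N : ℤ) = P.n :=
      ⟨P.n.toNat, Int.toNat_of_nonneg (hV.dim_nonneg hP)⟩
    exact murreD_of_map B e fun e' =>
      has_d ((range hV hM N).2 l (by rw [hN]; exact hl)) hk' hP' hN.symm e'

theorem all_murre (hV : G.Pencils V) (hM : ∀ j, G.MiddleD V j) {k : G.Fld}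
    {P : Pol (G.th k).C} (hP : V k P) (e : LCK (G.th k).K P) (l : ℤ) :
    e.MurreB l ∧ e.MurreD l := by
  have hl := Int.self_le_toNat l
  have hn := Int.self_le_toNat P.n
  refine ⟨fun x hx i hi => ?_, ?_⟩
  · obtain ⟨hB, -⟩ := (level hV (l.toNat + P.n.toNat + 1)).2 (fun j _ => hM j)
    rcases lt_or_ge l 0 with h | h
    · rw [(G.th k).D.low P.X l h x hx, Limits.zero_comp]
    · exact hB k P hP e l i hi (Or.inr (by push_cast; omega)) x hx
  · obtain ⟨-, hD⟩ := (level hV l.toNat).2 (fun j _ => hM j)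
    exact hD k P hP e l (Or.inl hl)

end Pool.Agent.LckM
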