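import Pool.Agent.LckM.Fro
import Pool.Agent.LckM.Level

/-!
# From Murre's conjectures to Lefschetz-Chow-Kuenneth decompositions, nilpotence
-/

set_option autoImplicit false

open CategoryTheory MonoidalCategory
open Pool.Agent.LefCK

universe w v u

namespace Pool.Agent.LckM

section one

variable {C : Type u} [Category.{v} C] [Preadditive C] [Linear ℚ C]
  [MonoidalCategory C] {F : Type w} [Field F] {K : Correspondences C F}

theorem pow_comm {X : C} (L : X ⟶ X) (s : ℕ) : L ≫ pow L s = pow L (s + 1) := by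
  have h1 := pow_add' L 1 s
  have h2 : pow L 1 = L := by
    change 𝟙 X ≫ L = L
    exact Category.id_comp L
  rw [h2] at h1
  rw [h1, Nat.add_comm]

theorem cmp_smul {X : C} {L : X ⟶ X} (l : List (ℕ × (X ⟶ X)))
    (hl : ∀ a ∈ l, a.1 = 1 ∧ ∃ q : ℚ, 0 < q ∧ a.2 = q • L) :
    (∃ q : ℚ, 0 < q ∧ cmp l = q • pow L l.length) ∧ total l = l.length := by
  induction l with
  | nil =>
    refine ⟨⟨1, one_pos, ?_⟩, total_nil⟩
    rw [one_smul]
    rfl
  | cons a l ih =>
    obtain ⟨⟨q, hq, h1⟩, h2⟩ := ih fun b hb => hl b (List.mem_cons_of_mem _ hb)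
    obtain ⟨h3, q', hq', h4⟩ := hl a (by simp)
    refine ⟨⟨q' * q, mul_pos hq' hq, ?_⟩, ?_⟩
    · change a.2 ≫ cmp l = _
      rw [h1, h4, Linear.smul_comp, Linear.comp_smul, smul_smul, pow_comm, List.length_cons]
    · rw [total_cons, h2, h3, List.length_cons]
      push_cast
      ring

/-- an LCK from the standard conjecture of Lefschetz type and the weights -/
theorem Weights.lck_of_standard {P : Pol C} {e : CK K P.X} (W : Weights e)
    (hS : Standard K P) : ∃ E : LCK K P, E.toCK = e := by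
  have := K.additive
  obtain ⟨L, hL, hP, hΛ⟩ := hS.lefschetz
  refine W.exists_lck ?_ ?_
  · intro c g hg
    obtain ⟨rfl, q, -, rfl⟩ := (hP c g).1 hg
    exact Submodule.smul_mem _ q hL
  · intro l hl hl'
    have h1 : ∀ a ∈ l, a.1 = 1 ∧ ∃ q : ℚ, 0 < q ∧ a.2 = q • L := fun a ha =>
      (hP _ _).1 (hl' a ha).2
    obtain ⟨⟨q, hq, h2⟩, h3⟩ := cmp_smul l h1
    have hpos : 0 < l.length := List.length_pos_of_ne_nil hl
    obtain ⟨Λ, hΛm, h4, h5⟩ := hΛ l.length hpos
    rw [h3, h2]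
    refine ⟨q⁻¹ • Λ, Submodule.smul_mem _ _ hΛm, ?_, ?_⟩
    · intro x hx
      rw [Linear.smul_comp, Linear.comp_smul, smul_smul, mul_inv_cancel₀ hq.ne', one_smul]
      exact h4 x hx
    · intro x hx
      rw [Linear.smul_comp, Linear.comp_smul, smul_smul, inv_mul_cancel₀ hq.ne', one_smul]
      exact h5 x hx

end one

variable {F : Type w} [Field F] {G : Fields.{w, v, u} F} {V : G.Class}

/-- **Murre's conjectures for the motives `(X, f, r)`, `X ∈ V`, imply that every Chow-Kuenneth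
decomposition has the property `Weights`** -/
theorem weights_of_allMurre (hPC : G.ProductClosed V)
    (h : ∀ (k : G.Fld) (P : Pol (G.th k).C), V k P → ∀ M : Mot (G.th k).K, M.X = P.X → M.Murre)
    {k : G.Fld} {P : Pol (G.th k).C} (hP : V k P) (e : CK (G.th k).K P.X) : Weights e := by
  obtain ⟨L, _, L', _, L'', _, hV⟩ := hPC k P P hP hP
  exact (G.th k).T.weights_of_murre
    (h k ⟨(prodPol ((G.th k).T.pol P) P L L').X, _, L''⟩ hV (Mot.mk (P.X ⊗ P.X) (𝟙 (P.X ⊗ P.X)) 0
      ((G.th k).K.id_mem _) (Category.id_comp _)) rfl) e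

theorem ck_of_allMurre
    (h : ∀ (k : G.Fld) (P : Pol (G.th k).C), V k P → ∀ M : Mot (G.th k).K, M.X = P.X → M.Murre)
    {k : G.Fld} {P : Pol (G.th k).C} (hP : V k P) : ∃ e : CK (G.th k).K P.X,
      ∀ l : ℤ, e.MurreB l ∧ e.MurreD l := by
  have h1 := h k P hP (Mot.mk P.X (𝟙 P.X) 0 ((G.th k).K.id_mem _) (Category.id_comp _)) rfl
  obtain ⟨e⟩ := ck_of_murre h1
  exact ⟨e, all_of_murre h1 e⟩

/-- Murre's conjectures and the standard conjecture of Lefschetz type give LCKs. -/
theorem lck_of_allMurre (hPC : G.ProductClosed V)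
    (h : ∀ (k : G.Fld) (P : Pol (G.th k).C), V k P → ∀ M : Mot (G.th k).K, M.X = P.X → M.Murre)
    {k : G.Fld} {P : Pol (G.th k).C} (hP : V k P) (hS : Standard (G.th k).K P) :
    Nonempty (LCK (G.th k).K P) := by
  obtain ⟨e, -⟩ := ck_of_allMurre h hP
  obtain ⟨E, -⟩ := (weights_of_allMurre hPC h hP e).lck_of_standard hS
  exact ⟨E⟩

/-- **the weights from (D) in the middle** -/
theorem weights_of_middle (hV : G.Pencils V) (hPC : G.ProductClosed V)
    (hM : ∀ j, G.MiddleD V j) {k : G.Fld} {P : Pol (G.th k).C} (hP : V k P)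
    (e : LCK (G.th k).K P) : Weights e.toCK := by
  obtain ⟨L, hL, L', hL', L'', hs, hQ⟩ := hPC k P P hP hP
  have hB : ∀ (E : LCK (G.th k).K (prodPol ((G.th k).T.pol P) P L L')) (l : ℤ),
      E.MurreB l := by
    intro E l
    obtain ⟨E', hE'⟩ := LCK_restrict E hs
    intro x hx i hi
    rw [← hE']
    exact (all_murre hV hM hQ E' l).1 x hx i hi
  have hD : ∀ (E : LCK (G.th k).K (prodPol ((G.th k).T.pol P) P L L')) (l : ℤ),
      E.MurreD l := by
    intro E l
    obtain ⟨E', hE'⟩ := LCK_restrict E hs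
    intro x hx h0
    rw [← hE']
    exact (all_murre hV hM hQ E' l).2 x hx h0
  exact ⟨fun hf => (hom_zero (G.th k).T e e (hV.dim_eq hP) hL hL' hB hD hf).1,
    fun hf => (hom_zero (G.th k).T e e (hV.dim_eq hP) hL hL' hB hD hf).2⟩

/-- there are no correspondences `X → X` of degree `> dim X` -/
theorem deg_large {k : G.Fld} (X : (G.th k).C) (d : ℤ) (hd : (G.th k).D.dim X < d)
    (f : X ⟶ X) (hf : f ∈ (G.th k).K.deg X X d) : f = 0 := by
  apply (G.th k).T.graph_inj
  exact (G.th k).D.low _ _ (by omega) _ ((G.th k).T.graph_mem hf)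

/-- **nilpotence** -/
theorem nilpotentIdeal_of_middle (hV : G.Pencils V) (hPC : G.ProductClosed V)
    (hM : ∀ j, G.MiddleD V j) {k : G.Fld} {P : Pol (G.th k).C} (hP : V k P)
    (e : LCK (G.th k).K P) : NilpotentIdeal (G.th k).K P.X :=
  (weights_of_middle hV hPC hM hP e).nilpotent _ (deg_large P.X)

theorem nilpotentIdeal_of_allMurre (hPC : G.ProductClosed V)
    (h : ∀ (k : G.Fld) (P : Pol (G.th k).C), V k P → ∀ M : Mot (G.th k).K, M.X = P.X → M.Murre)
    {k : G.Fld} {P : Pol (G.th k).C} (hP : V k P) : NilpotentIdeal (G.th k).K P.X := by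
  obtain ⟨e, -⟩ := ck_of_allMurre h hP
  exact (weights_of_allMurre hPC h hP e).nilpotent _ (deg_large P.X)

/-- **local nilpotence in the middle** -/
theorem middleNil_of_middleD (hV : G.Pencils V) (hPC : G.ProductClosed V)
    (hl : ∀ k P, V k P → Nonempty (LCK (G.th k).K P))
    (hM : ∀ j, G.MiddleD V j) (m : ℕ) : G.MiddleNil V m := by
  intro k P hk hP hn θ hθ h0 x hx hx0
  obtain ⟨e⟩ := hl k P hP
  obtain ⟨hB, hD⟩ := all_murre hV hM hP e (m : ℤ)
  exact (weights_of_middle hV hPC hM hP e).locally_nilpotent hB hD hθ h0 hx hx0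

theorem middleNil_of_allMurre (hPC : G.ProductClosed V)
    (h : ∀ (k : G.Fld) (P : Pol (G.th k).C), V k P → ∀ M : Mot (G.th k).K, M.X = P.X → M.Murre)
    (m : ℕ) : G.MiddleNil V m := by
  intro k P hk hP hn θ hθ h0 x hx hx0
  obtain ⟨e, he⟩ := ck_of_allMurre h hP
  exact (weights_of_allMurre hPC h hP e).locally_nilpotent (he m).1 (he m).2 hθ h0 hx hx0

/-- local nilpotence in the middle implies (D) in the middle, for every decomposition -/
theorem murreD_of_middleNil {m : ℕ} (h : G.MiddleNil V m) {k : G.Fld} {P : Pol (G.th k).C}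
    (hk : G.Closed k) (hP : V k P) (hn : P.n = 2 * m) (e : CK (G.th k).K P.X) :
    e.MurreD m := by
  intro x hx h0
  obtain ⟨N, hN⟩ := h k P hk hP hn (e.p (2 * m)) (e.mem _)
    (fun j hj y hy => e.homology_ne hj hy) x hx h0
  cases N with
  | zero =>
    change x ≫ 𝟙 _ = 0 at hN
    rw [Category.comp_id] at hN
    rw [hN, Limits.zero_comp]
  | succ N =>
    have h1 : ∀ N : ℕ, pow (e.p (2 * (m : ℤ))) (N + 1) = e.p (2 * (m : ℤ)) := by
      intro N
      induction N with
      | zero => exact Category.id_comp _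
      | succ N ih =>
        change pow (e.p (2 * (m : ℤ))) (N + 1) ≫ e.p (2 * (m : ℤ)) = _
        rw [ih, e.idem]
    rwa [h1] at hN

theorem middleD_of_middleNil {m : ℕ} (h : G.MiddleNil V m) : G.MiddleD V m :=
  fun _ _ hk hP hn e => murreD_of_middleNil h hk hP hn e.toCK

end Pool.Agent.LckM
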