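import Pool.Agent.LckM.Conj

/-!
# Lifting the Kuenneth projectors
-/

set_option autoImplicit false

open CategoryTheory MonoidalCategory
open Pool.Agent.LefCK

universe w v u

namespace Pool.Agent.LckM

variable {C : Type u} [Category.{v} C] [Preadditive C] [Linear ℚ C]
  [MonoidalCategory C] {F : Type w} [Field F]

/-- the action of the correspondences of degree 0 on the homology -/
def actZero (K : Correspondences C F) (X : C) : K.zeroRing X →+* Module.End F (K.H.obj X) where
  toFun f := (K.H.map (show X ⟶ X from (f : End X))).hom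
  map_one' := by
    ext x
    exact K.map_id_apply x
  map_mul' f g := by
    ext x
    exact K.map_comp_apply _ _ x
  map_zero' := by
    ext x
    exact K.map_zero_apply x
  map_add' f g := by
    ext x
    exact K.map_add_apply _ _ x

variable {K : Correspondences C F} {P : Pol C}

theorem actZero_apply {X : C} (f : K.zeroRing X) (x : K.H.obj X) :
    actZero K X f x = (K.H.map (show X ⟶ X from (f : End X))).hom x := rfl

/-- **lifting of the Kuenneth projectors** -/
theorem exists_ck_of_standard (hS : Standard K P) (h : NilHom K P.X) :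
    Nonempty (CK K P.X) := by
  classical
  have := K.additive
  choose π hπ hπH using hS.kunneth
  obtain ⟨s, hsd⟩ : ∃ s : Finset ℤ, s = Finset.Icc 0 (2 * P.n) := ⟨_, rfl⟩
  have hs : ∀ j : ℤ, j ∉ s → ∀ x ∈ K.gr P.X j, x = 0 := by
    intro j hj x hx
    refine hS.bounded j ?_ x hx
    rw [hsd, Finset.mem_Icc] at hj
    omega
  obtain ⟨ε, hε⟩ : ∃ ε : s → Module.End F (K.H.obj P.X),
      ∀ i, ε i = actZero K P.X ⟨π i, hπ i⟩ := ⟨_, fun i => rfl⟩
  have hεx : ∀ (i : s) (j : ℤ) (x : K.H.obj P.X), x ∈ K.gr P.X j →
      ε i x = if j = i then x else 0 := by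
    intro i j x hx
    rw [hε]
    exact hπH i j x hx
  have hc : CompleteOrthogonalIdempotents ε := by
    refine ⟨⟨fun i => ?_, fun i j hij => ?_⟩, ?_⟩
    · ext x
      change ε i (ε i x) = ε i x
      induction x using K.gr_induction with
      | zero => rw [map_zero, map_zero]
      | mem m x hx =>
        rw [hεx i m x hx]
        split_ifs with hm
        · rw [hεx i m x hx, if_pos hm]
        · rw [map_zero]
      | add x y hx hy => rw [map_add, map_add, hx, hy]
    · ext x
      change ε i (ε j x) = 0
      induction x using K.gr_induction with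
      | zero => rw [map_zero, map_zero]
      | mem m x hx =>
        rw [hεx j m x hx]
        split_ifs with hm
        · rw [hεx i m x hx, if_neg]
          intro hm'
          exact hij (Subtype.ext (hm'.symm.trans hm))
        · rw [map_zero]
      | add x y hx hy => rw [map_add, map_add, hx, hy, add_zero]
    · ext x
      rw [LinearMap.sum_apply]
      change ∑ i, ε i x = x
      induction x using K.gr_induction with
      | zero => exact Finset.sum_eq_zero fun i _ => map_zero _
      | mem m x hx =>
        by_cases hm : m ∈ s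
        · rw [Finset.sum_eq_single_of_mem (⟨m, hm⟩ : s) (Finset.mem_univ _)]
          · rw [hεx _ m x hx, if_pos rfl]
          · intro i _ hi
            rw [hεx _ m x hx, if_neg]
            intro h1
            exact hi (Subtype.ext h1.symm)
        · rw [hs m hm x hx]
          exact Finset.sum_eq_zero fun i _ => map_zero _
      | add x y hx hy =>
        have h1 : ∀ i : s, ε i (x + y) = ε i x + ε i y := fun i => map_add _ _ _
        rw [Finset.sum_congr rfl fun i _ => h1 i, Finset.sum_add_distrib, hx, hy]
  obtain ⟨e', he', hl⟩ := CompleteOrthogonalIdempotents.lift_of_isNilpotent_ker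
    (f := actZero K P.X) (by
      intro f hf
      have h1 : K.H.map (show P.X ⟶ P.X from (f : End P.X)) = 0 := by
        ext x
        have h2 := LinearMap.congr_fun (show actZero K P.X f = 0 from hf) x
        exact h2
      exact h.isNilpotent f.2 h1) hc (fun i => ⟨_, (hε i).symm⟩)
  obtain ⟨p, hp⟩ : ∃ p : ℤ → K.zeroRing P.X, ∀ i, p i = if hi : i ∈ s then e' ⟨i, hi⟩ else 0 :=
    ⟨_, fun i => rfl⟩
  have hp1 : ∀ i (hi : i ∈ s), p i = e' ⟨i, hi⟩ := fun i hi => by rw [hp, dif_pos hi]
  have hp0 : ∀ i, i ∉ s → p i = 0 := fun i hi => by rw [hp, dif_neg hi]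
  have hidem : ∀ i, p i * p i = p i := by
    intro i
    by_cases hi : i ∈ s
    · rw [hp1 i hi]
      exact he'.idem _
    · rw [hp0 i hi, mul_zero]
  have horth : ∀ i j, i ≠ j → p j * p i = 0 := by
    intro i j hij
    by_cases hi : i ∈ s
    · by_cases hj : j ∈ s
      · rw [hp1 i hi, hp1 j hj]
        exact he'.ortho (fun h1 => hij (congrArg Subtype.val h1).symm)
      · rw [hp0 j hj, zero_mul]
    · rw [hp0 i hi, mul_zero]
  have hsum : ∑ i ∈ s, p i = 1 := by
    rw [← he'.complete, ← Finset.sum_coe_sort s p]
    refine Finset.sum_congr rfl fun i _ => ?_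
    rw [hp1 i.1 i.2]
  have hcoe : ∀ t : Finset ℤ, ((∑ i ∈ t, p i : K.zeroRing P.X) : End P.X) =
      ∑ i ∈ t, (show P.X ⟶ P.X from (p i : End P.X)) := by
    intro t
    induction t using Finset.induction_on with
    | empty => rfl
    | insert a t ha ih =>
      rw [Finset.sum_insert ha, Finset.sum_insert ha, ← ih]
      rfl
  refine ⟨CK.ofFinset s (fun i => (show P.X ⟶ P.X from (p i : End P.X))) ?_ ?_ ?_ ?_ ?_ ?_⟩
  · intro i hi
    rw [hp0 i hi]
    rfl
  · intro i
    exact (p i).2
  · intro i
    exact congrArg (fun t : K.zeroRing P.X => (t : End P.X)) (hidem i)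
  · intro i j hij
    exact congrArg (fun t : K.zeroRing P.X => (t : End P.X)) (horth i j hij)
  · rw [← hcoe, hsum]
    rfl
  · intro i j x hx
    by_cases hi : i ∈ s
    · have h1 : actZero K P.X (p i) x = ε ⟨i, hi⟩ x := by
        rw [hp1 i hi]
        exact LinearMap.congr_fun (congrFun hl ⟨i, hi⟩) x
      change actZero K P.X (p i) x = _
      rw [h1, hεx _ j x hx]
    · have h1 : actZero K P.X (p i) x = 0 := by
        rw [hp0 i hi, map_zero]
        rfl
      change actZero K P.X (p i) x = _
      rw [h1]
      split_ifs with h2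
      · exact (hs i hi x (h2 ▸ hx)).symm
      · rfl

end Pool.Agent.LckM
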