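import Pool.Agent.LckM.NilM

/-!
# Nilpotence and (D) in the middle: the induction (module LckM-NilC)
-/

set_option autoImplicit false

open CategoryTheory MonoidalCategory
open Pool.Agent.LefCK

universe w v u

namespace Pool.Agent.LckM

section base

variable {F : Type w} [Field F] {S S' : Theory.{w, v, u} F} (B : BaseChange S.K S'.K)

theorem BaseChange.gr_lift {X : S.C} {j : ℤ} {y : S'.K.H.obj (B.Φ.obj X)}
    (hy : y ∈ S'.K.gr (B.Φ.obj X) j) : ∃ x ∈ S.K.gr X j, B.H X x = y := by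
  obtain ⟨x, rfl⟩ := (B.H X).surjective y
  have h1 : x ∈ S.K.gr X j ⊔ ⨆ i, ⨆ (_ : i ≠ j), S.K.gr X i := by
    rw [← iSup_split_single (S.K.gr X) j, (S.K.isInternal X).submodule_iSup_eq_top]
    trivial
  obtain ⟨a, ha, r, hr, har⟩ := Submodule.mem_sup.1 h1
  have h2 : B.H X r ∈ ⨆ i, ⨆ (_ : i ≠ j), S'.K.gr (B.Φ.obj X) i := by
    have h3 : (⨆ i, ⨆ (_ : i ≠ j), S.K.gr X i) ≤
        (⨆ i, ⨆ (_ : i ≠ j), S'.K.gr (B.Φ.obj X) i).comap (B.H X).toLinearMap := by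
      refine iSup₂_le fun i hi z hz => ?_
      exact Submodule.mem_iSup_of_mem i (Submodule.mem_iSup_of_mem hi (B.H_gr X i z hz))
    exact h3 hr
  have h4 : B.H X r ∈ S'.K.gr (B.Φ.obj X) j := by
    have h5 : B.H X r = B.H X x - B.H X a := by
      rw [← har, (B.H X).map_add, add_sub_cancel_left]
    rw [h5]
    exact Submodule.sub_mem _ hy (B.H_gr X j a ha)
  have h6 : B.H X r = 0 :=
    Submodule.disjoint_def.1 ((S'.K.isInternal (B.Φ.obj X)).submodule_iSupIndep j) _ h4 h2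
  exact ⟨a, ha, by rw [← har, (B.H X).map_add, h6, add_zero]⟩

theorem BaseChange.map_pow {X : S.C} (f : X ⟶ X) (N : ℕ) :
    B.Φ.map (pow f N) = pow (B.Φ.map f) N := by
  induction N with
  | zero => exact B.Φ.map_id X
  | succ N ih =>
    show B.Φ.map (pow f N ≫ f) = pow (B.Φ.map f) N ≫ B.Φ.map f
    rw [B.Φ.map_comp, ih]

theorem Lef.map {X : S.C} {n : ℤ} {L : X ⟶ X} (h : Lef S.K n L) : Lef S'.K n (B.Φ.map L) := by
  refine ⟨B.mem h.mem, fun s hs => ?_⟩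
  obtain ⟨l, h1, h2, h3⟩ := h.inv s hs
  refine ⟨B.Φ.map l, B.mem h1, fun y hy => ?_, fun y hy => ?_⟩
  · obtain ⟨x, hx, rfl⟩ := B.gr_lift hy
    rw [← B.map_pow, ← B.Φ.map_comp, B.H_map, h2 x hx]
  · obtain ⟨x, hx, rfl⟩ := B.gr_lift hy
    rw [← B.map_pow, ← B.Φ.map_comp, B.H_map, h3 x hx]

theorem Trunc.map {X : S.C} {g : X ⟶ X} {r : ℤ} (h : Trunc S.K g r) :
    Trunc S'.K (B.Φ.map g) r := by
  refine ⟨B.mem h.mem, fun j hj y hy => ?_, fun j hj y hy => ?_⟩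
  · obtain ⟨x, hx, rfl⟩ := B.gr_lift hy
    rw [B.H_map, h.one j hj x hx]
  · obtain ⟨x, hx, rfl⟩ := B.gr_lift hy
    rw [B.H_map, h.zero j hj x hx, map_zero]

theorem NilHom.of_map {X : S.C} (h : NilHom S'.K (B.Φ.obj X)) : NilHom S.K X := by
  intro θ hθ h0
  obtain ⟨N, hN⟩ := h (B.Φ.map θ) (B.mem hθ) (B.map_hom h0)
  exact ⟨N, B.faithful _ (by rw [B.map_pow, hN])⟩

/-- nilpotence from `X × X` -/
theorem nilHom_of_graph (S : Theory.{w, v, u} F) {X : S.C}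
    (h : ∀ θ ∈ S.K.deg (X ⊗ X) (X ⊗ X) 0, (∀ w, (S.K.H.map θ).hom w = 0) →
      ∀ x ∈ CH S.K (X ⊗ X) (S.D.dim X), S.K.H.map x = 0 → ∃ N : ℕ, x ≫ pow θ N = 0) :
    NilHom S.K X := by
  have := S.K.additive
  intro θ hθ h0
  obtain ⟨N, h1⟩ := h (𝟙 X ⊗ₘ θ)
    (S.K.mem_cast (S.K.tensor_mem (S.K.id_mem X) hθ) (add_zero 0)) (by
    intro w
    obtain ⟨t, rfl⟩ := (S.K.kunneth X X).surjective w
    induction t using TensorProduct.induction_on with
    | zero => rw [map_zero, map_zero]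
    | tmul x y =>
      rw [S.K.kunneth_map, h0]
      change S.K.kunneth X X (TensorProduct.tmul F _ (0 : S.K.H.obj X)) = 0
      rw [TensorProduct.tmul_zero, map_zero]
    | add x y hx hy => rw [map_add, map_add, hx, hy, add_zero])
    (S.T.graph θ) (by
      have h2 := S.T.graph_mem hθ
      rwa [sub_zero] at h2) (S.T.graph_hom θ h0)
  have h2 : ∀ n : ℕ, pow (𝟙 X ⊗ₘ θ) n = (𝟙 X ⊗ₘ pow θ n) := by
    intro n
    induction n with
    | zero => exact (MonoidalCategory.id_tensorHom_id X X).symm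
    | succ n ih =>
      change pow (𝟙 X ⊗ₘ θ) n ≫ (𝟙 X ⊗ₘ θ) = (𝟙 X ⊗ₘ pow θ n ≫ θ)
      rw [ih, MonoidalCategory.tensorHom_comp_tensorHom, Category.comp_id]
  have h3 := S.T.graph_comp (𝟙 X) θ (pow θ N)
  rw [S.T.t_id, ← h2, h1, Category.id_comp, pow_comm] at h3
  exact ⟨N + 1, S.T.graph_inj _ h3⟩

end base

variable {F : Type w} [Field F] {G : Fields.{w, v, u} F} {V : G.Class}

/-- **local nilpotence in the middle implies that homologically trivial correspondences are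
nilpotent** -/
theorem nilHom_of_middleNil (hV : G.Pencils V) (hPC : G.ProductClosed V)
    (h : ∀ m, G.MiddleNil V m) {k : G.Fld} {P : Pol (G.th k).C} (hP : V k P) :
    NilHom (G.th k).K P.X := by
  obtain ⟨k', B, hk', L1, hL1, hP'⟩ := hV.closure hP
  refine NilHom.of_map B ?_
  obtain ⟨P', hPd⟩ : ∃ P' : Pol (G.th k').C, P' = ⟨(B.pol P).X, (B.pol P).n, L1⟩ := ⟨_, rfl⟩
  rw [← hPd] at hP'
  have hX : P'.X = B.Φ.obj P.X := by rw [hPd]; rfl
  rw [← hX]
  clear hX hPd hL1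
  obtain ⟨L, -, L', -, L'', -, hZ⟩ := hPC k' P' P' hP' hP'
  have hd := hV.dim_eq hP'
  have hn0 := hV.dim_nonneg hP'
  obtain ⟨m, hm⟩ : ∃ m : ℕ, (m : ℤ) = P'.n := ⟨P'.n.toNat, Int.toNat_of_nonneg hn0⟩
  refine nilHom_of_graph (G.th k') fun θ hθ hθ0 x hx hx0 => ?_
  refine h m k' _ hk' hZ (by
    change P'.n + P'.n = 2 * (m : ℤ)
    rw [hm]
    ring) θ hθ (fun j _ w _ => hθ0 w) x ?_ hx0
  change x ∈ CH (G.th k').K (P'.X ⊗ P'.X) (m : ℤ)
  rwa [hm, ← hd]

/-- (B) for `CH_l`, the varieties of dimension `n`, every decomposition -/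
def NB (V : G.Class) (n l : ℤ) : Prop :=
  ∀ (k : G.Fld) (P : Pol (G.th k).C), G.Closed k → V k P → P.n = n →
    ∀ e : CK (G.th k).K P.X, e.MurreB l

/-- (D) for `CH_l`, the varieties of dimension `n`, every decomposition -/
def ND (V : G.Class) (n l : ℤ) : Prop :=
  ∀ (k : G.Fld) (P : Pol (G.th k).C), G.Closed k → V k P → P.n = n →
    ∀ e : CK (G.th k).K P.X, e.MurreD l

theorem has_nb {n l : ℤ} (h : NB V n l) {k : G.Fld} (hk : G.Closed k) {P : Pol (G.th k).C}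
    (hP : Has (V k) P) (hn : P.n = n) (e : CK (G.th k).K P.X) : e.MurreB l := by
  obtain ⟨L', -, hV⟩ := hP
  exact h k _ hk hV hn e

theorem has_nd {n l : ℤ} (h : ND V n l) {k : G.Fld} (hk : G.Closed k) {P : Pol (G.th k).C}
    (hP : Has (V k) P) (hn : P.n = n) (e : CK (G.th k).K P.X) : e.MurreD l := by
  obtain ⟨L', -, hV⟩ := hP
  exact h k _ hk hV hn e

/-- the hypotheses -/
structure Hyp (V : G.Class) : Prop where
  pen : G.Pencils V
  std : ∀ (k : G.Fld) (P : Pol (G.th k).C), V k P → Standard (G.th k).K P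
  nil : ∀ (k : G.Fld) (P : Pol (G.th k).C), V k P → NilHom (G.th k).K P.X

theorem Hyp.hasNil (H : Hyp V) {k : G.Fld} {P : Pol (G.th k).C} (hP : Has (V k) P) :
    NilHom (G.th k).K P.X := by
  obtain ⟨L', -, hV⟩ := hP
  exact H.nil k ⟨P.X, P.n, L'⟩ hV

theorem Hyp.hasCK (H : Hyp V) {k : G.Fld} {P : Pol (G.th k).C} (hP : Has (V k) P) :
    Nonempty (CK (G.th k).K P.X) := by
  obtain ⟨L', -, hV⟩ := hP
  exact exists_ck_of_standard (P := ⟨P.X, P.n, L'⟩) (H.std k _ hV) (H.nil k ⟨P.X, P.n, L'⟩ hV)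

private theorem nc_dim {k : G.Fld} {P : Pol (G.th k).C} {Z : ZeroLocus (G.th k).K P}
    (hc : Z.c = 1) : Z.pol.n = P.n - 1 := by
  change P.n - (Z.c : ℤ) = P.n - 1
  rw [hc]
  rfl

private theorem nc_pull {C : Type u} [Category.{v} C] [Preadditive C] [Linear ℚ C]
    [MonoidalCategory C] {K : Correspondences C F} {P : Pol C} {Z : ZeroLocus K P}
    (hc : Z.c = 1) : Z.pull ∈ K.deg P.X Z.Y 1 := by
  have := Z.pull_mem
  rw [hc] at this
  exact_mod_cast this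

theorem nbLow (H : Hyp V) {n l : ℤ} (hn : 0 < n) (hl : 2 * l ≤ n) (h : NB V (n - 1) l) :
    NB V n l := by
  rintro k P hk hP rfl e x hx i hi
  obtain ⟨L, k', B, Z, hLP, hk', hPk, hc, hcls, hVZ, -⟩ := H.pen.pencil hk hP hn
  obtain ⟨e', he'⟩ := B.exists_ck e
  obtain ⟨q⟩ := H.hasCK hVZ
  have h1 := nil_bLow (H.hasNil hPk) e' (((H.std k P hP).lef hLP).map B) q (nc_pull hc)
    Z.push_mem hcls (i := i) (l := l) (by omega) hi (has_nb h hk' hVZ (nc_dim hc) q)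
    (B.cyc_mem hx)
  apply B.cyc_inj
  rw [B.cyc_comp, ← he']
  exact h1

theorem ndLow (H : Hyp V) {n l : ℤ} (hn : 0 < n) (hl : 2 * l < n) (h : ND V (n - 1) l) :
    ND V n l := by
  rintro k P hk hP rfl e x hx h0
  obtain ⟨L, k', B, Z, hLP, hk', hPk, hc, hcls, hVZ, -⟩ := H.pen.pencil hk hP hn
  obtain ⟨e', he'⟩ := B.exists_ck e
  obtain ⟨q⟩ := H.hasCK hVZ
  have h1 := nil_dLow (H.hasNil hPk) e' (((H.std k P hP).lef hLP).map B) q (nc_pull hc)
    Z.push_mem hcls (l := l) hl (has_nd h hk' hVZ (nc_dim hc) q) (B.cyc_mem hx) (B.cyc_hom h0)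
  apply B.cyc_inj
  rw [B.cyc_comp, ← he']
  exact h1

theorem ndHigh (H : Hyp V) {n l : ℤ} (hn : 0 < n) (hl : n < 2 * l) (h : ND V (n - 1) (l - 1)) :
    ND V n l := by
  rintro k P hk hP rfl e x hx h0
  obtain ⟨L, k', B, Z, hLP, hk', hPk, hc, hcls, hVZ, -⟩ := H.pen.pencil hk hP hn
  obtain ⟨e', he'⟩ := B.exists_ck e
  obtain ⟨q⟩ := H.hasCK hVZ
  have h1 := nil_dHigh (H.hasNil hPk) e' (((H.std k P hP).lef hLP).map B) q (nc_pull hc)
    Z.push_mem hcls (l := l) hl (has_nd h hk' hVZ (nc_dim hc) q) (B.cyc_mem hx) (B.cyc_hom h0)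
  apply B.cyc_inj
  rw [B.cyc_comp, ← he']
  exact h1

/-- the members -/
theorem fromMember_kill (H : Hyp V) {k : G.Fld} (hk : G.Closed k) {P : Pol (G.th k).C}
    {L : P.X ⟶ P.X} {l : ℤ} (hl : P.n < 2 * l) (h3 : NB V (P.n - 1) l)
    {s : P.X ⟶ P.X} (hs : s ∈ (G.th k).K.deg P.X P.X (-1))
    (hsL : ∀ j : ℤ, P.n < j → ∀ v ∈ (G.th k).K.gr P.X j, ((G.th k).K.H.map (L ≫ s)).hom v = v)
    {w'' : P.X ⟶ P.X} (hw'' : Trunc (G.th k).K w'' (2 * l + 2)) {γ : 𝟙_ (G.th k).C ⟶ P.X}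
    (hγ : FromMember (G.th k).K (V k) P L l γ) :
    ∃ M : ℕ, γ ≫ pow (𝟙 P.X - s ≫ w'' ≫ L) M = 0 := by
  cases hγ with
  | smooth Z hc hcls hVZ ζ hζ =>
    obtain ⟨q⟩ := H.hasCK hVZ
    subst hcls
    obtain ⟨m, hm⟩ := Mem.of_smooth Z hc
    have h1 := member_kill m (H.hasNil hVZ) q (has_nb h3 hk hVZ (nc_dim hc) q) hl hs hw''.mem
      hsL hw''.one hζ
    rw [hm] at h1
    exact h1
  | nodal Q Z hc hcls hVZ ζ hζ =>
    obtain ⟨q⟩ := H.hasCK hVZ
    subst hcls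
    obtain ⟨m, hm⟩ := Mem.of_nodal Q Z hc
    have h1 := member_kill m (H.hasNil hVZ) q (has_nb h3 hk hVZ (nc_dim hc) q) hl hs hw''.mem
      hsL hw''.one hζ
    obtain ⟨M, hM⟩ := h1
    refine ⟨M, ?_⟩
    rw [hm] at hM
    rw [Category.assoc ζ Z.push Q.ret]
    exact hM

theorem nbHigh (H : Hyp V) {n l : ℤ} (hn : 0 < n) (hl : n < 2 * l)
    (h1 : NB V (n - 1) (l - 1)) (h2 : ND V (n - 1) (l - 1)) (h3 : NB V (n - 1) l) :
    NB V n l := by
  rintro k P hk hP rfl e x hx i hi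
  rcases lt_or_ge l P.n with hln | hln
  swap
  · exact top_zero H.pen hP hln e hx hi
  obtain ⟨L, k', B, Z, hLP, hk', hPk, hc, hcls, hVZ, hloc⟩ := H.pen.pencil hk hP hn
  obtain ⟨e', he'⟩ := B.exists_ck e
  obtain ⟨q⟩ := H.hasCK hVZ
  have hLef := (H.std k P hP).lef hLP
  obtain ⟨s, hs, hsL⟩ := hLef.sigma e
  obtain ⟨w', hw', -⟩ := exists_trunc e (2 * l + 1)
  obtain ⟨w'', hw'', -⟩ := exists_trunc e (2 * l + 2)
  obtain ⟨y, hy⟩ : ∃ y, y = x ≫ e.p i := ⟨_, rfl⟩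
  have hym : y ∈ CH (G.th k).K P.X l := by
    rw [hy]
    exact (G.th k).K.comp_mem' hx (e.mem i) (add_zero _)
  have hy0 : (G.th k).K.H.map y = 0 := by
    rw [hy]
    exact hom_p e (by omega) hx
  have hyp : y ≫ e.p i = y := by rw [hy, Category.assoc, e.idem]
  obtain ⟨m, hm⟩ := sec_step (H.hasNil hVZ) q (L := B.Φ.map L) (σ := B.Φ.map s)
    (w' := B.Φ.map w') (n := P.n) (l := l) (nc_pull hc) Z.push_mem hcls (B.mem hs)
    (hw'.map B) (fun j hj v hv => by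
      obtain ⟨v', hv', rfl⟩ := B.gr_lift hv
      rw [← B.Φ.map_comp, B.H_map, hsL j hj v' hv'])
    (fun j hj v hv => by
      have h5 := Z.surj j (by rw [hc]; exact hj) v hv
      rw [hc] at h5
      exact h5)
    hl (has_nb h1 hk' hVZ (nc_dim hc) q) (has_nd h2 hk' hVZ (nc_dim hc) q)
  have hz : B.cyc (y ≫ pow (𝟙 P.X - L ≫ s ≫ w') m) ≫ Z.pull = 0 := by
    have h5 := hm (B.cyc y) (B.cyc_mem hym) (B.cyc_hom hy0)
    rw [B.cyc_comp, B.map_pow, B.map_sub, B.Φ.map_id, B.Φ.map_comp, B.Φ.map_comp]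
    exact h5
  have hzm : y ≫ pow (𝟙 P.X - L ≫ s ≫ w') m ∈ CH (G.th k).K P.X l := by
    refine (G.th k).K.comp_mem' hym (?_ : _ ∈ (G.th k).K.deg P.X P.X 0) (add_zero _)
    have hA : 𝟙 P.X - L ≫ s ≫ w' ∈ (G.th k).K.deg P.X P.X 0 :=
      Submodule.sub_mem _ ((G.th k).K.id_mem _)
        ((G.th k).K.comp_mem' hLef.mem ((G.th k).K.comp_mem hs hw'.mem) (by ring))
    have h6 : ∀ a : ℕ, pow (𝟙 P.X - L ≫ s ≫ w') a ∈ (G.th k).K.deg P.X P.X 0 := by
      intro a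
      induction a with
      | zero => exact (G.th k).K.id_mem _
      | succ a ih => exact (G.th k).K.comp_mem' ih hA (add_zero _)
    exact h6 m
  have hM : ∃ M : ℕ, (y ≫ pow (𝟙 P.X - L ≫ s ≫ w') m) ≫ pow (𝟙 P.X - s ≫ w'' ≫ L) M = 0 := by
    have h8 := hloc l hl hln _ hzm hz
    generalize y ≫ pow (𝟙 P.X - L ≫ s ≫ w') m = a at h8
    induction h8 using Submodule.span_induction with
    | mem γ hγ => exact fromMember_kill H hk hl h3 hs hsL hw'' hγ
    | zero => exact ⟨0, Limits.zero_comp⟩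
    | add a b _ _ ha hb =>
      obtain ⟨M, hM⟩ := ha
      obtain ⟨M', hM'⟩ := hb
      exact ⟨max M M', by
        rw [Preadditive.add_comp, pow_zero_mono (le_max_left M M') hM,
          pow_zero_mono (le_max_right M M') hM', add_zero]⟩
    | smul c a _ ha =>
      obtain ⟨M, hM⟩ := ha
      exact ⟨M, by rw [Linear.smul_comp, hM, smul_zero]⟩
  obtain ⟨M, hM⟩ := hM
  rw [← hy]
  exact fin_step (H.nil k P hP) e hLef.mem hs hw' hw'' hi hyp hM

theorem rangeN (H : Hyp V) {m : ℕ} (hM : ∀ j ≤ m, ND V (2 * (j : ℕ)) j) (N : ℕ) :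
    (∀ l : ℤ, (l ≤ m + 1 ∨ (N : ℤ) ≤ l + m) → NB V N l) ∧
      (∀ l : ℤ, (l ≤ m ∨ (N : ℤ) ≤ l + m) → ND V N l) := by
  have bTop : ∀ {n l : ℤ}, n ≤ l → NB V n l := by
    rintro n l hl k P hk hP rfl e x hx i hi
    exact top_zero H.pen hP hl e hx hi
  have dTop : ∀ {n l : ℤ}, n ≤ l → ND V n l := by
    rintro n l hl k P hk hP rfl e x hx h0
    rcases lt_or_eq_of_le hl with h | h
    · rw [(G.th k).D.high P.X l (by rw [H.pen.dim_eq hP]; exact h) x hx, Limits.zero_comp]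
    · rw [(G.th k).D.fund P.X x (by rw [H.pen.dim_eq hP, h]; exact hx) h0, Limits.zero_comp]
  have bNeg : ∀ {n l : ℤ}, l < 0 → NB V n l := by
    rintro n l hl k P hk hP rfl e x hx i hi
    rw [(G.th k).D.low P.X l hl x hx, Limits.zero_comp]
  have dNeg : ∀ {n l : ℤ}, l < 0 → ND V n l := by
    rintro n l hl k P hk hP rfl e x hx h0
    rw [(G.th k).D.low P.X l hl x hx, Limits.zero_comp]
  induction N with
  | zero =>
    constructor
    · intro l _
      rcases lt_or_ge l 0 with h | h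
      · exact bNeg h
      · exact bTop (by exact_mod_cast h)
    · intro l _
      rcases lt_or_ge l 0 with h | h
      · exact dNeg h
      · exact dTop (by exact_mod_cast h)
  | succ N ih =>
    obtain ⟨hB, hD⟩ := ih
    have hN : ((N + 1 : ℕ) : ℤ) - 1 = (N : ℤ) := by push_cast; ring
    have hN' : ((N + 1 : ℕ) : ℤ) = (N : ℤ) + 1 := by push_cast; ring
    constructor
    · intro l hl
      rcases le_or_gt (2 * l) ((N + 1 : ℕ) : ℤ) with h | h
      · refine nbLow H (by omega) h ?_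
        rw [hN]
        exact hB l (by omega)
      · refine nbHigh H (by omega) h ?_ ?_ ?_
        · rw [hN]
          exact hB (l - 1) (by omega)
        · rw [hN]
          exact hD (l - 1) (by omega)
        · rw [hN]
          exact hB l (by omega)
    · intro l hl
      rcases lt_trichotomy (2 * l) ((N + 1 : ℕ) : ℤ) with h | h | h
      · refine ndLow H (by omega) h ?_
        rw [hN]
        exact hD l (by omega)
      · obtain ⟨j, hj⟩ : ∃ j : ℕ, (j : ℤ) = l := ⟨l.toNat, Int.toNat_of_nonneg (by omega)⟩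
        have h1 := hM j (by omega)
        rw [hj, h] at h1
        exact h1
      · refine ndHigh H (by omega) h ?_
        rw [hN]
        exact hD (l - 1) (by omega)

/-- (B) and (D) for all cycles and all decompositions -/
theorem all_nil (H : Hyp V) (hM : ∀ j : ℕ, ND V (2 * (j : ℕ)) j) {k : G.Fld}
    {P : Pol (G.th k).C} (hP : V k P) (e : CK (G.th k).K P.X) (l : ℤ) :
    e.MurreB l ∧ e.MurreD l := by
  obtain ⟨k', B, hk', hP'⟩ := H.pen.closure hP
  obtain ⟨N, hN⟩ : ∃ N : ℕ, (N : ℤ) = P.n :=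
    ⟨P.n.toNat, Int.toNat_of_nonneg (H.pen.dim_nonneg hP)⟩
  obtain ⟨hB, hD⟩ := rangeN H (m := l.toNat) (fun j _ => hM j) N
  have hl := Int.self_le_toNat l
  obtain ⟨e', he'⟩ := B.exists_ck e
  constructor
  · intro x hx i hi
    have h1 := has_nb (hB l (Or.inl (by omega))) hk' hP' hN.symm e' (B.cyc x) (B.cyc_mem hx) i hi
    apply B.cyc_inj
    rw [B.cyc_comp, ← he']
    exact h1
  · intro x hx h0
    have h1 := has_nd (hD l (Or.inl hl)) hk' hP' hN.symm e' (B.cyc x) (B.cyc_mem hx) (B.cyc_hom h0)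
    apply B.cyc_inj
    rw [B.cyc_comp, ← he']
    exact h1

/-- **Murre's conjectures from the standard conjecture of Lefschetz type, nilpotence and (D) in
the middle** -/
theorem murreAll_of_nil (H : Hyp V) (hPC : G.ProductClosed V)
    (hM : ∀ m : ℕ, G.MiddleCK V m) : G.MurreAllFor V := by
  have hM' : ∀ j : ℕ, ND V (2 * (j : ℕ)) j := by
    intro j k P hk hP hn e
    obtain ⟨e0, he0⟩ := hM j k P hk hP hn
    exact (H.nil k P hP).murreD he0 e
  rintro k P hP ⟨X, f, r, hf, hff⟩ hX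
  obtain rfl : X = P.X := hX
  obtain ⟨e⟩ := exists_ck_of_standard (H.std k P hP) (H.nil k P hP)
  obtain ⟨L, -, L', -, L'', -, hQ⟩ := hPC k P P hP hP
  obtain ⟨q, hq1, hq2⟩ := (G.th k).T.exists_prod e e
  have W : Weights e := ⟨hq1 fun l => (all_nil H hM' hQ q l).1,
    hq2 fun l => (all_nil H hM' hQ q l).2⟩
  have hg : Good e :=
    ⟨fun l => (all_nil H hM' hP e l).1, fun l => (all_nil H hM' hP e l).2,
      fun g hgm i j hij => W.tri hgm i j (by omega),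
      fun g hgm j h0 => W.diag hgm j j (by omega) h0⟩
  exact Good.murreAll (M := ⟨P.X, f, r, hf, hff⟩) hg

end Pool.Agent.LckM
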