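import Pool.Agent.LckM.Odd
import Pool.Agent.LckM.Conj
import Pool.Agent.LckM.NilC

/-!
# Murre's conjectures for the varieties in `V`
-/

set_option autoImplicit false

open CategoryTheory MonoidalCategory
open Pool.Agent.LefCK

universe w v u

namespace Pool.Agent.LckM

theorem Mot.MurreAll.murre {C : Type u} [Category.{v} C] [Preadditive C] [Linear ℚ C]
    [MonoidalCategory C] {F : Type w} [Field F] {K : Correspondences C F} {M : Mot K}
    (h : M.MurreAll) : M.Murre := by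
  obtain ⟨⟨e⟩, hC, hBD⟩ := h
  exact ⟨hC, e, hBD e⟩

variable {F : Type w} [Field F] {G : Fields.{w, v, u} F} {V : G.Class}

/-- **the levels for (B)** -/
theorem b_tfae (hV : G.Pencils V) (m : ℕ) :
    List.TFAE [G.RangeB V m, G.SmallB V m, ∀ j ≤ m, G.MiddleB V j] := by
  tfae_have 1 ↔ 3 := levelB hV m
  tfae_have 1 → 2 := by
    intro h k P hP hn e l x hx i hi
    exact h k P hP e l i hi (by omega) x hx
  tfae_have 2 → 3 := by
    intro h j hj k P _ hP hn e x hx
    exact h k P hP (by omega) e (j + 1) x hx _ (by omega)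
  tfae_finish

/-- **the levels for (B) and (D)** -/
theorem bd_tfae (hV : G.Pencils V) (m : ℕ) :
    List.TFAE [G.RangeB V m ∧ G.RangeD V m, G.SmallBD V m, ∀ j ≤ m, G.MiddleD V j] := by
  tfae_have 1 ↔ 3 := level hV m
  tfae_have 1 → 2 := by
    rintro ⟨h, h'⟩ k P hP hn e l
    exact ⟨fun x hx i hi => h k P hP e l i hi (by omega) x hx, h' k P hP e l (by omega)⟩
  tfae_have 2 → 3 := by
    intro h j hj k P _ hP hn e
    exact (h k P hP (by omega) e j).2
  tfae_finish

theorem murreAll_of_middleD (hV : G.Pencils V) (hPC : G.ProductClosed V) (hl : G.HasLCK V)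
    (hM : ∀ m, G.MiddleD V m) : G.MurreAllFor V := by
  rintro k P hP ⟨X, f, r, hf, hff⟩ hX
  obtain rfl : X = P.X := hX
  obtain ⟨e⟩ := hl k P hP
  have W := weights_of_middle hV hPC hM hP e
  have hg : Good e.toCK :=
    ⟨fun l => (all_murre hV hM hP e l).1, fun l => (all_murre hV hM hP e l).2,
      fun g hgm i j hij => W.tri hgm i j (by omega),
      fun g hgm j h0 => W.diag hgm j j (by omega) h0⟩
  exact Good.murreAll (M := ⟨P.X, f, r, hf, hff⟩) hg

/-- **Murre's conjectures in dimension `≤ m`** -/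
theorem murreAll_small (hV : G.Pencils V) (hPC : G.ProductClosed V) (hl : G.HasLCK V) {m : ℕ}
    (hM : ∀ j ≤ m, G.MiddleD V j) {k : G.Fld} {P : Pol (G.th k).C} (hP : V k P)
    (hn : P.n ≤ m) : ∀ M : Mot (G.th k).K, M.X = P.X → M.MurreAll := by
  have hS : G.SmallBD V m := ((bd_tfae hV m).out 1 2).2 hM
  rintro ⟨X, f, r, hf, hff⟩ hX
  obtain rfl : X = P.X := hX
  obtain ⟨e⟩ := hl k P hP
  obtain ⟨L, hL, L', hL', L'', hs, hQ⟩ := hPC k P P hP hP
  have hdim : P.n + P.n ≤ 2 * (m : ℤ) + 1 := by omega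
  have hBD : ∀ (E : LCK (G.th k).K (prodPol ((G.th k).T.pol P) P L L')) (l : ℤ),
      E.MurreB l ∧ E.MurreD l := by
    intro E l
    obtain ⟨E', hE'⟩ := LCK_restrict E hs
    obtain ⟨hB, hD⟩ := hS k _ hQ hdim E' l
    refine ⟨fun x hx i hi => ?_, fun x hx h0 => ?_⟩
    · rw [← hE']
      exact hB x hx i hi
    · rw [← hE']
      exact hD x hx h0
  have hZ := fun {d : ℤ} {f : P.X ⟶ P.X} (hf : f ∈ (G.th k).K.deg P.X P.X d) =>
    hom_zero (G.th k).T e e (hV.dim_eq hP) hL hL' (fun E l => (hBD E l).1)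
      (fun E l => (hBD E l).2) hf
  have hg : Good e.toCK :=
    ⟨fun l => (hS k P hP (by omega) e l).1, fun l => (hS k P hP (by omega) e l).2,
      fun g hgm i j hij => (hZ hgm).1 i j (by omega),
      fun g hgm j h0 => (hZ hgm).2 j j (by omega) h0⟩
  exact Good.murreAll (M := ⟨P.X, f, r, hf, hff⟩) hg

theorem lck_tfae (hV : G.Pencils V) (hPC : G.ProductClosed V) (hl : G.HasLCK V) :
    List.TFAE [G.MurreFor V, G.MurreAllFor V, ∀ m, G.MiddleD V m, ∀ m, G.MiddleNil V m] := by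
  tfae_have 2 → 1 := fun h k P hP M hM => (h k P hP M hM).murre
  tfae_have 1 → 4 := fun h m => middleNil_of_allMurre hPC h m
  tfae_have 4 → 3 := fun h m => middleD_of_middleNil (h m)
  tfae_have 3 → 2 := fun h => murreAll_of_middleD hV hPC hl h
  tfae_finish

theorem standard_tfae (hV : G.Pencils V) (hPC : G.ProductClosed V)
    (hS : ∀ k P, V k P → Standard (G.th k).K P) :
    List.TFAE [G.MurreFor V, G.MurreAllFor V, G.HasLCK V ∧ ∀ m, G.MiddleD V m,
      (∀ k P, V k P → NilHom (G.th k).K P.X) ∧ ∀ m, G.MiddleCK V m, ∀ m, G.MiddleNil V m] := by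
  tfae_have 2 → 1 := fun h k P hP M hM => (h k P hP M hM).murre
  tfae_have 1 → 3 := fun h => ⟨fun k P hP => lck_of_allMurre hPC h hP (hS k P hP),
    fun m => middleD_of_middleNil (middleNil_of_allMurre hPC h m)⟩
  tfae_have 3 → 2 := fun h => murreAll_of_middleD hV hPC h.1 h.2
  tfae_have 1 → 5 := fun h m => middleNil_of_allMurre hPC h m
  tfae_have 5 → 4 := by
    intro h
    have hN : ∀ k P, V k P → NilHom (G.th k).K P.X := fun k P hP =>
      nilHom_of_middleNil hV hPC h hP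
    refine ⟨hN, fun m k P hk hP hn => ?_⟩
    obtain ⟨e⟩ := exists_ck_of_standard (hS k P hP) (hN k P hP)
    exact ⟨e, murreD_of_middleNil (h m) hk hP hn e⟩
  tfae_have 4 → 2 := fun h => murreAll_of_nil ⟨hV, hS, h.1⟩ hPC h.2
  tfae_finish

theorem main_tfae (hV : G.Pencils V) (hPC : G.ProductClosed V)
    (h : G.HasLCK V ∨ ∀ k P, V k P → Standard (G.th k).K P) :
    List.TFAE [G.MurreFor V, G.MurreAllFor V, G.HasLCK V ∧ ∀ m, G.MiddleD V m,
      (∀ k P, V k P → NilHom (G.th k).K P.X) ∧ ∀ m, G.MiddleCK V m, ∀ m, G.MiddleNil V m] := by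
  rcases h with hl | hS
  · have h1 := lck_tfae hV hPC hl
    tfae_have 1 ↔ 2 := h1.out 0 1
    tfae_have 1 ↔ 5 := h1.out 0 3
    tfae_have 3 → 1 := fun h => (h1.out 0 2).2 h.2
    tfae_have 1 → 3 := fun h => ⟨hl, (h1.out 0 2).1 h⟩
    tfae_have 1 → 4 := fun h => ⟨fun k P hP => (nilpotentIdeal_of_allMurre hPC h hP).nilHom,
      fun m => middleCK_of_allMurre h m⟩
    tfae_have 4 → 3 := fun h => ⟨hl, fun m => middleD_of_middleCK h.1 (h.2 m)⟩
    tfae_finish
  · exact standard_tfae hV hPC hS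

end Pool.Agent.LckM
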