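import Pool.Agent.LckM.Compat
import Pool.Agent.LefCK.LowC

/-!
# Murre's conjectures for the motives `(X, f, r)` (module LckM-Mot)

`e` is a Chow-Kuenneth decomposition of `X` such that (B) and (D) hold, and such that the
correspondences of degree 0 do not lower the weights (`tri`) and act faithfully on the homology of
the pieces (`diag`).
-/

set_option autoImplicit false

open CategoryTheory MonoidalCategory
open Pool.Agent.LefCK

universe w v u

namespace Pool.Agent.LckM

variable {C : Type u} [Category.{v} C] [Preadditive C] [Linear ℚ C]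
  [MonoidalCategory C] {F : Type w} [Field F] {K : Correspondences C F}

/-- a decomposition for which everything holds -/
structure Good {X : C} (e : CK K X) : Prop where
  B : ∀ l, e.MurreB l
  D : ∀ l, e.MurreD l
  tri : ∀ f ∈ K.deg X X 0, ∀ i j : ℤ, i < j → e.p j ≫ f ≫ e.p i = 0
  diag : ∀ f ∈ K.deg X X 0, ∀ j : ℤ, K.H.map (e.p j ≫ f ≫ e.p j) = 0 →
    e.p j ≫ f ≫ e.p j = 0

theorem eq_zero_of_all {X Y : C} (e : CK K X) {y : Y ⟶ X} (h : ∀ j, y ≫ e.p j = 0) : y = 0 := by
  have h1 : y ≫ 𝟙 X = 0 := e.comp_eq_zero y (𝟙 X) fun j => by rw [Category.comp_id, h j]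
  rwa [Category.comp_id] at h1

section

variable {M : Mot K} {e : CK K M.X}

theorem Good.comp (hg : Good e) (π : M.CK) {w j : ℤ} (hj : j ≠ w - 2 * M.r) :
    e.p j ≫ π.p w ≫ e.p j = 0 := by
  have := K.additive
  refine hg.diag _ (π.mem w) j ?_
  ext x
  change (K.H.map (e.p j ≫ π.p w ≫ e.p j)).hom x = 0
  induction x using K.gr_induction with
  | zero => rw [map_zero]
  | mem m x hx =>
    rw [K.map_comp_apply, K.map_comp_apply]
    by_cases h : m = j
    · subst h
      rw [e.homology_self hx]
      have h1 := π.homology w (m + 2 * M.r) x (by rwa [add_sub_cancel_right])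
      rw [if_neg (by omega)] at h1
      rw [h1, map_zero]
    · rw [e.homology_ne h hx, map_zero, map_zero]
  | add x y hx hy => rw [map_add, hx, hy, add_zero]

/-- the main step: a class in the image of `π_w` of weights larger than `w` is zero -/
theorem Good.key (hg : Good e) (π : M.CK) {w c : ℤ} (hc : w - 2 * M.r < c)
    {y : 𝟙_ C ⟶ M.X} (hy : y ≫ π.p w = y) (h : ∀ j < c, y ≫ e.p j = 0) : y = 0 := by
  apply eq_zero_of_all e
  have h1 : ∀ n : ℕ, ∀ j < c + n, y ≫ e.p j = 0 := by
    intro n
    induction n with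
    | zero => simpa using h
    | succ n ih =>
      intro j hj
      rcases lt_or_eq_of_le (show j ≤ c + n by push_cast at hj; omega) with hj | hj
      · exact ih j hj
      · have h2 : y ≫ π.p w ≫ e.p j = 0 := by
          refine e.comp_eq_zero _ _ fun i => ?_
          rcases lt_trichotomy i j with hi | rfl | hi
          · rw [← Category.assoc, ih i (by omega), Limits.zero_comp]
          · rw [hg.comp π (by omega), Limits.comp_zero]
          · rw [hg.tri _ (π.mem w) j i hi, Limits.comp_zero]
        rwa [← Category.assoc, hy] at h2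
  intro j
  refine h1 (j - c + 1).toNat j ?_
  have := Int.self_le_toNat (j - c + 1)
  omega

theorem Good.allB (hg : Good e) (π : M.CK) : π.B := by
  intro l x hx w hw
  have h1 : x ≫ π.p w ∈ CH K M.X (l - M.r) := K.comp_mem' hx.1 (π.mem w) (add_zero _)
  have hc : w - 2 * M.r < 2 * (l - M.r) := by omega
  refine hg.key π hc (y := x ≫ π.p w) ?_ ?_
  · rw [Category.assoc, π.idem]
  · intro j hj
    exact hg.B _ _ h1 j hj

theorem Good.allD (hg : Good e) (π : M.CK) : π.D := by
  intro l x hx h0
  have := K.additive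
  have h1 : x ≫ π.p (2 * l) ∈ CH K M.X (l - M.r) :=
    K.comp_mem' hx.1 (π.mem _) (add_zero _)
  have h2 : K.H.map (x ≫ π.p (2 * l)) = 0 := by
    rw [K.H.map_comp, h0, Limits.zero_comp]
  have hc : 2 * l - 2 * M.r < 2 * (l - M.r) + 1 := by omega
  refine hg.key π hc (y := x ≫ π.p (2 * l)) ?_ ?_
  · rw [Category.assoc, π.idem]
  · intro j hj
    rcases lt_or_eq_of_le (show j ≤ 2 * (l - M.r) by omega) with hj | rfl
    · exact hg.B _ _ h1 j hj
    · exact hg.D _ _ h1 h2

/-- sums over a Chow-Kuenneth decomposition of `M` -/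
theorem Mot.CK.comp_eq_zero (π : M.CK) {Y Z : C} {x : Y ⟶ M.X} (hx : x ≫ M.f = x)
    (g : M.X ⟶ Z) (h : ∀ w, x ≫ π.p w ≫ g = 0) : x ≫ g = 0 := by
  obtain ⟨s, hs⟩ : ∃ s : Finset ℤ, ∑ i ∈ s, π.p i = M.f := by
    refine ⟨π.finite.toFinset, ?_⟩
    rw [← π.sum]
    symm
    apply finsum_eq_sum_of_support_subset
    simp
  rw [← hx, ← hs, Category.assoc, Preadditive.sum_comp, Preadditive.comp_sum]
  exact Finset.sum_eq_zero fun i _ => h i

theorem Good.fil_iff (hg : Good e) (π : M.CK) (ν l : ℤ) {x : 𝟙_ C ⟶ M.X} (hx : x ∈ M.CH l) :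
    (∀ w < 2 * l + ν, x ≫ π.p w = 0) ↔ ∀ j < 2 * (l - M.r) + ν, x ≫ e.p j = 0 := by
  constructor
  · intro h
    obtain ⟨s, hs, -⟩ := e.exists_finset
    obtain ⟨N, hN⟩ : ∃ N : ℤ, ∀ j < N, e.p j = 0 := by
      obtain ⟨M', hM'⟩ := s.bddBelow
      refine ⟨M', fun j hj => hs j fun hjs => ?_⟩
      have := hM' hjs
      omega
    have h1 : ∀ n : ℕ, ∀ j < N + n, j < 2 * (l - M.r) + ν → x ≫ e.p j = 0 := by
      intro n
      induction n with
      | zero =>
        intro j hj _
        rw [hN j (by simpa using hj), Limits.comp_zero]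
      | succ n ih =>
        intro j hj hj'
        rcases lt_or_eq_of_le (show j ≤ N + n by push_cast at hj; omega) with hj | hj
        · exact ih j hj hj'
        · refine π.comp_eq_zero hx.2 _ fun w => ?_
          rcases lt_or_ge w (2 * l + ν) with hw | hw
          · rw [← Category.assoc, h w hw, Limits.zero_comp]
          · refine e.comp_eq_zero _ _ fun i => ?_
            rcases lt_trichotomy i j with hi | rfl | hi
            · rw [← Category.assoc, ih i (by omega) (by omega), Limits.zero_comp]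
            · rw [hg.comp π (by omega), Limits.comp_zero]
            · rw [hg.tri _ (π.mem w) j i hi, Limits.comp_zero]
    intro j hj
    refine h1 (j - N + 1).toNat j ?_ hj
    have := Int.self_le_toNat (j - N + 1)
    omega
  · intro h w hw
    have hc : w - 2 * M.r < 2 * (l - M.r) + ν := by omega
    refine hg.key π hc (y := x ≫ π.p w) ?_ ?_
    · rw [Category.assoc, π.idem]
    · intro j hj
      rw [Category.assoc]
      refine e.comp_eq_zero _ _ fun i => ?_
      rcases lt_or_ge i (2 * (l - M.r) + ν) with hi | hi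
      · rw [← Category.assoc, h i hi, Limits.zero_comp]
      · rw [hg.tri _ (π.mem w) j i (by omega), Limits.comp_zero]

theorem Good.murreC (hg : Good e) : M.MurreC := by
  intro π π' ν l x
  constructor
  · rintro ⟨hx, h⟩
    exact ⟨hx, (hg.fil_iff π' ν l hx).2 ((hg.fil_iff π ν l hx).1 h)⟩
  · rintro ⟨hx, h⟩
    exact ⟨hx, (hg.fil_iff π ν l hx).2 ((hg.fil_iff π' ν l hx).1 h)⟩

end

end Pool.Agent.LckM
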