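import Pool.Agent.LckM.LiftK

/-!
# Nilpotence instead of Lefschetz-Chow-Kuenneth decompositions (module LckM-NilA)

(B) and (D) for the weights different from the middle one, from the standard conjecture of
Lefschetz type and the nilpotence of the homologically trivial correspondences.
-/

set_option autoImplicit false

open CategoryTheory MonoidalCategory
open Pool.Agent.LefCK

universe w v u

namespace Pool.Agent.LckM

variable {C : Type u} [Category.{v} C] [Preadditive C] [Linear ℚ C]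
  [MonoidalCategory C] {F : Type w} [Field F] {K : Correspondences C F} {X : C}

theorem NilpotentIdeal.nilHom (h : NilpotentIdeal K X) : NilHom K X := by
  obtain ⟨N, hN⟩ := h
  intro θ hθ h0
  refine ⟨N, ?_⟩
  have h1 : ∀ M : ℕ, (List.replicate M θ).foldr (· ≫ ·) (𝟙 X) = pow θ M := by
    intro M
    induction M with
    | zero => rfl
    | succ M ih =>
      rw [List.replicate_succ, List.foldr_cons, ih, pow_comm]
  rw [← h1]
  refine hN _ List.length_replicate fun f hf => ?_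
  rw [List.eq_of_mem_replicate hf]
  exact ⟨⟨0, hθ⟩, h0⟩

theorem NilHom.kill (h : NilHom K X) {A : X ⟶ X} (hA : A ∈ K.deg X X 0) (h0 : K.H.map A = 0)
    {Y : C} {x : Y ⟶ X} (hx : x ≫ A = x) : x = 0 := by
  obtain ⟨N, hN⟩ := h A hA h0
  have h1 : ∀ M : ℕ, x ≫ pow A M = x := by
    intro M
    induction M with
    | zero => exact Category.comp_id x
    | succ M ih =>
      show x ≫ pow A M ≫ A = x
      rw [← Category.assoc, ih, hx]
  rw [← h1 N, hN, Limits.comp_zero]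

/-- `tr` acts on the homology as the projector onto `⊕_{j ≥ r} H_j` -/
structure Trunc (K : Correspondences C F) {X : C} (tr : X ⟶ X) (r : ℤ) : Prop where
  mem : tr ∈ K.deg X X 0
  one : ∀ j : ℤ, r ≤ j → ∀ v ∈ K.gr X j, (K.H.map tr).hom v = v
  zero : ∀ j : ℤ, j < r → ∀ v ∈ K.gr X j, (K.H.map tr).hom v = 0

theorem exists_trunc (q : CK K X) (r : ℤ) : ∃ tr : X ⟶ X, Trunc K tr r ∧
    ∀ {Y : C} (y : Y ⟶ X), (∀ j < r, y ≫ q.p j = 0) → y ≫ tr = y := by
  classical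
  obtain ⟨s, hs0, hs⟩ := q.exists_finset
  have hgr : ∀ j ∉ s, ∀ v ∈ K.gr X j, v = 0 := by
    intro j hj v hv
    have h1 := q.homology_self hv
    rw [hs0 j hj, K.map_zero_apply] at h1
    exact h1.symm
  refine ⟨∑ j ∈ s.filter (fun j => r ≤ j), q.p j, ⟨?_, ?_, ?_⟩, ?_⟩
  · exact Submodule.sum_mem _ fun j _ => q.mem j
  · intro j hj v hv
    rw [K.map_sum_apply]
    by_cases hjs : j ∈ s
    · rw [Finset.sum_eq_single_of_mem j (Finset.mem_filter.2 ⟨hjs, hj⟩), q.homology_self hv]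
      intro k _ hk
      exact q.homology_ne (Ne.symm hk) hv
    · rw [hgr j hjs v hv]
      exact Finset.sum_eq_zero fun k _ => map_zero _
  · intro j hj v hv
    rw [K.map_sum_apply]
    refine Finset.sum_eq_zero fun k hk => ?_
    rw [Finset.mem_filter] at hk
    exact q.homology_ne (by omega) hv
  · intro Y y hy
    have h1 : y = ∑ j ∈ s, y ≫ q.p j := by
      rw [← Preadditive.comp_sum, hs, Category.comp_id]
    rw [Preadditive.comp_sum, Finset.sum_filter]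
    refine Eq.trans (Finset.sum_congr rfl fun j _ => ?_) h1.symm
    split_ifs with hj
    · rfl
    · rw [hy j (by omega)]

/-- the main lemma -/
theorem kill_weight (hnil : NilHom K X) (e : CK K X) {Z : C} {i a : ℤ} {α : X ⟶ Z} {β : Z ⟶ X}
    {tr : Z ⟶ Z} (hα : α ∈ K.deg X Z a) (hβ : β ∈ K.deg Z X (-a)) (ht : tr ∈ K.deg Z Z 0)
    (h1 : ∀ v ∈ K.gr X i, (K.H.map (α ≫ β)).hom v = v)
    (h2 : ∀ u ∈ K.gr Z (i - 2 * a), (K.H.map tr).hom u = 0) {Y : C} {x : Y ⟶ X}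
    (h3 : (x ≫ e.p i ≫ α) ≫ tr = x ≫ e.p i ≫ α) : x ≫ e.p i = 0 := by
  have hadd := K.additive
  have hm1 : e.p i ≫ α ≫ tr ≫ β ≫ e.p i ∈ K.deg X X 0 :=
    K.comp_mem' (e.mem i) (K.comp_mem hα (K.comp_mem ht (K.comp_mem hβ (e.mem i)))) (by ring)
  have hm2 : e.p i ≫ α ≫ β ≫ e.p i ∈ K.deg X X 0 :=
    K.comp_mem' (e.mem i) (K.comp_mem hα (K.comp_mem hβ (e.mem i))) (by ring)
  refine hnil.kill (A := e.p i ≫ α ≫ tr ≫ β ≫ e.p i + (e.p i - e.p i ≫ α ≫ β ≫ e.p i))
    (Submodule.add_mem _ hm1 (Submodule.sub_mem _ (e.mem i) hm2)) ?_ ?_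
  · ext v
    change (K.H.map (e.p i ≫ α ≫ tr ≫ β ≫ e.p i + (e.p i - e.p i ≫ α ≫ β ≫ e.p i))).hom v = 0
    induction v using K.gr_induction with
    | zero => rw [map_zero]
    | mem m v hv =>
      rw [K.map_add_apply, K.map_sub_apply, K.map_comp_apply, K.map_comp_apply (e.p i)]
      by_cases hm : m = i
      · subst hm
        rw [e.homology_self hv, K.map_comp_apply, K.map_comp_apply, h2 _ (K.map_gr hα _ v hv),
          map_zero, ← Category.assoc, K.map_comp_apply (α ≫ β), h1 v hv, e.homology_self hv,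
          sub_self, add_zero]
      · rw [e.homology_ne hm hv, map_zero, map_zero, sub_zero, add_zero]
    | add u v hu hv => rw [map_add, hu, hv, add_zero]
  · have h4 : (x ≫ e.p i) ≫ e.p i = x ≫ e.p i := by rw [Category.assoc, e.idem]
    rw [Preadditive.comp_add, Preadditive.comp_sub, h4]
    have h5 : (x ≫ e.p i) ≫ e.p i ≫ α ≫ tr ≫ β ≫ e.p i =
        ((x ≫ e.p i ≫ α) ≫ tr) ≫ β ≫ e.p i := by
      rw [← Category.assoc (x ≫ e.p i), h4]
      simp only [Category.assoc]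
    have h6 : (x ≫ e.p i) ≫ e.p i ≫ α ≫ β ≫ e.p i = (x ≫ e.p i ≫ α) ≫ β ≫ e.p i := by
      rw [← Category.assoc (x ≫ e.p i), h4]
      simp only [Category.assoc]
    rw [h5, h6, h3]
    abel

/-- `L` satisfies the standard conjecture of Lefschetz type on `X`, `n = dim X` -/
structure Lef (K : Correspondences C F) {X : C} (n : ℤ) (L : X ⟶ X) : Prop where
  mem : L ∈ K.deg X X 1
  inv : ∀ s : ℕ, 0 < s → ∃ Λ ∈ K.deg X X (-(s : ℤ)),
    (∀ x ∈ K.gr X (n + s), (K.H.map (pow L s ≫ Λ)).hom x = x) ∧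
      ∀ x ∈ K.gr X (n - s), (K.H.map (Λ ≫ pow L s)).hom x = x

theorem pow_smul' (q : ℚ) (L : X ⟶ X) (s : ℕ) : pow (q • L) s = q ^ s • pow L s := by
  induction s with
  | zero =>
    rw [pow_zero, one_smul]
    rfl
  | succ s ih =>
    show pow (q • L) s ≫ (q • L) = q ^ (s + 1) • (pow L s ≫ L)
    rw [ih, Linear.smul_comp, Linear.comp_smul, smul_smul, pow_succ]

theorem pow_deg {L : X ⟶ X} (hL : L ∈ K.deg X X 1) (s : ℕ) : pow L s ∈ K.deg X X s := by
  induction s with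
  | zero => exact K.id_mem X
  | succ s ih => exact K.comp_mem' ih hL (by push_cast; ring)

theorem Standard.lef {P : Pol C} (hS : Standard K P) {L : P.X ⟶ P.X} (hL : L ∈ P.L 1) :
    Lef K P.n L := by
  obtain ⟨L0, hL0, hP, hΛ⟩ := hS.lefschetz
  obtain ⟨-, q, hq, rfl⟩ := (hP 1 L).1 hL
  refine ⟨Submodule.smul_mem _ q hL0, fun s hs => ?_⟩
  obtain ⟨Λ, h1, h2, h3⟩ := hΛ s hs
  have hqs : q ^ s ≠ 0 := pow_ne_zero s hq.ne'
  refine ⟨(q ^ s)⁻¹ • Λ, Submodule.smul_mem _ _ h1, fun x hx => ?_, fun x hx => ?_⟩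
  · rw [pow_smul', Linear.smul_comp, Linear.comp_smul, smul_smul, mul_inv_cancel₀ hqs, one_smul]
    exact h2 x hx
  · rw [pow_smul', Linear.smul_comp, Linear.comp_smul, smul_smul, inv_mul_cancel₀ hqs, one_smul]
    exact h3 x hx

variable {n : ℤ} {L : X ⟶ X}

theorem Lef.low (h : Lef K n L) {i : ℤ} (hi : i < n) :
    ∃ τ ∈ K.deg X X (-1), ∀ v ∈ K.gr X i, (K.H.map (τ ≫ L)).hom v = v := by
  obtain ⟨s, hs⟩ : ∃ s : ℕ, (s : ℤ) + 1 = n - i :=
    ⟨(n - i - 1).toNat, by rw [Int.toNat_of_nonneg (by omega)]; ring⟩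
  obtain ⟨Λ, h1, -, h3⟩ := h.inv (s + 1) (Nat.succ_pos s)
  refine ⟨Λ ≫ pow L s, K.comp_mem' h1 (pow_deg h.mem s) (by push_cast; ring), fun v hv => ?_⟩
  rw [Category.assoc]
  exact h3 v (by
    have : n - ((s + 1 : ℕ) : ℤ) = i := by push_cast; omega
    rw [this]
    exact hv)

theorem Lef.high (h : Lef K n L) {i : ℤ} (hi : n < i) :
    ∃ σ ∈ K.deg X X (-1), ∀ v ∈ K.gr X i, (K.H.map (L ≫ σ)).hom v = v := by
  obtain ⟨s, hs⟩ : ∃ s : ℕ, (s : ℤ) + 1 = i - n :=
    ⟨(i - n - 1).toNat, by rw [Int.toNat_of_nonneg (by omega)]; ring⟩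
  obtain ⟨Λ, h1, h2, -⟩ := h.inv (s + 1) (Nat.succ_pos s)
  refine ⟨pow L s ≫ Λ, K.comp_mem' (pow_deg h.mem s) h1 (by push_cast; ring), fun v hv => ?_⟩
  rw [← Category.assoc, pow_comm]
  exact h2 v (by
    have : n + ((s + 1 : ℕ) : ℤ) = i := by push_cast; omega
    rw [this]
    exact hv)

/-- one operator for all weights `> n` -/
theorem Lef.sigma (h : Lef K n L) (e : CK K X) :
    ∃ σ ∈ K.deg X X (-1), ∀ j : ℤ, n < j → ∀ v ∈ K.gr X j, (K.H.map (L ≫ σ)).hom v = v := by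
  classical
  obtain ⟨s, hs0, -⟩ := e.exists_finset
  have key : ∀ j : ℤ, ∃ σ ∈ K.deg X X (-1), n < j →
      ∀ v ∈ K.gr X j, (K.H.map (L ≫ σ)).hom v = v := by
    intro j
    by_cases hj : n < j
    · obtain ⟨σ, h1, h2⟩ := h.high hj
      exact ⟨σ, h1, fun _ => h2⟩
    · exact ⟨0, Submodule.zero_mem _, fun h => absurd h hj⟩
  choose σ hσ hσ' using key
  refine ⟨∑ j ∈ s, e.p (j - 2) ≫ σ j, Submodule.sum_mem _ fun j _ =>
    K.comp_mem' (e.mem _) (hσ j) (by ring), fun j hj v hv => ?_⟩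
  rw [K.map_comp_apply, K.map_sum_apply]
  have hLv : (K.H.map L).hom v ∈ K.gr X (j - 2) := by
    have := K.map_gr h.mem j v hv
    simpa using this
  by_cases hjs : j ∈ s
  · rw [Finset.sum_eq_single_of_mem j hjs]
    · rw [K.map_comp_apply, e.homology_self hLv, ← K.map_comp_apply]
      exact hσ' j hj v hv
    · intro k _ hk
      rw [K.map_comp_apply, e.homology_ne (by omega) hLv, map_zero]
  · have h1 := e.homology_self hv
    rw [hs0 j hjs, K.map_zero_apply] at h1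
    rw [← h1, map_zero]
    exact Finset.sum_eq_zero fun k _ => map_zero _

section steps

variable {Z : C} {pull : X ⟶ Z} {push : Z ⟶ X}

theorem nil_bLow (hnil : NilHom K X) (e : CK K X) (hL : Lef K n L) (q : CK K Z)
    (hpull : pull ∈ K.deg X Z 1) (hpush : push ∈ K.deg Z X 0) (hcls : pull ≫ push = L)
    {i l : ℤ} (hi : i < n) (hil : i < 2 * l) (hB : q.MurreB l) {x : 𝟙_ C ⟶ X}
    (hx : x ∈ CH K X l) : x ≫ e.p i = 0 := by
  obtain ⟨τ, hτ, h1⟩ := hL.low hi
  obtain ⟨tr, ht, h2⟩ := exists_trunc q (2 * l)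
  have hα : τ ≫ pull ∈ K.deg X Z 0 := K.comp_mem' hτ hpull (by ring)
  refine kill_weight hnil e (α := τ ≫ pull) (β := push) (a := 0) hα
    (by rw [neg_zero]; exact hpush) ht.mem ?_ ?_ ?_
  · intro v hv
    rw [Category.assoc, hcls]
    exact h1 v hv
  · exact ht.zero _ (by omega)
  · refine h2 _ fun j hj => hB _ ?_ j hj
    exact K.comp_mem' hx (K.comp_mem (e.mem i) hα) (by ring)

theorem nil_dLow (hnil : NilHom K X) (e : CK K X) (hL : Lef K n L) (q : CK K Z)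
    (hpull : pull ∈ K.deg X Z 1) (hpush : push ∈ K.deg Z X 0) (hcls : pull ≫ push = L)
    {l : ℤ} (hl : 2 * l < n) (hD : q.MurreD l) {x : 𝟙_ C ⟶ X}
    (hx : x ∈ CH K X l) (h0 : K.H.map x = 0) : x ≫ e.p (2 * l) = 0 := by
  obtain ⟨τ, hτ, h1⟩ := hL.low hl
  have hα : τ ≫ pull ∈ K.deg X Z 0 := K.comp_mem' hτ hpull (by ring)
  refine kill_weight hnil e (α := τ ≫ pull) (β := push) (a := 0) (tr := 𝟙 Z - q.p (2 * l)) hα
    (by rw [neg_zero]; exact hpush) (Submodule.sub_mem _ (K.id_mem Z) (q.mem _)) ?_ ?_ ?_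
  · intro v hv
    rw [Category.assoc, hcls]
    exact h1 v hv
  · intro v hv
    rw [mul_zero, sub_zero] at hv
    rw [K.map_sub_apply, K.map_id_apply, q.homology_self hv, sub_self]
  · rw [Preadditive.comp_sub, Category.comp_id, hD _ ?_ (hom_comp h0 _), sub_zero]
    exact K.comp_mem' hx (K.comp_mem (e.mem _) hα) (by ring)

theorem nil_dHigh (hnil : NilHom K X) (e : CK K X) (hL : Lef K n L) (q : CK K Z)
    (hpull : pull ∈ K.deg X Z 1) (hpush : push ∈ K.deg Z X 0) (hcls : pull ≫ push = L)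
    {l : ℤ} (hl : n < 2 * l) (hD : q.MurreD (l - 1)) {x : 𝟙_ C ⟶ X}
    (hx : x ∈ CH K X l) (h0 : K.H.map x = 0) : x ≫ e.p (2 * l) = 0 := by
  obtain ⟨σ, hσ, h1⟩ := hL.high hl
  have hβ : push ≫ σ ∈ K.deg Z X (-1) := K.comp_mem' hpush hσ (by ring)
  have h2l : 2 * l - 2 * 1 = 2 * (l - 1) := by ring
  refine kill_weight hnil e (α := pull) (β := push ≫ σ) (a := 1)
    (tr := 𝟙 Z - q.p (2 * (l - 1))) hpull hβ (Submodule.sub_mem _ (K.id_mem Z) (q.mem _)) ?_ ?_ ?_
  · intro v hv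
    rw [← Category.assoc, hcls]
    exact h1 v hv
  · intro v hv
    rw [h2l] at hv
    rw [K.map_sub_apply, K.map_id_apply, q.homology_self hv, sub_self]
  · rw [Preadditive.comp_sub, Category.comp_id, hD _ ?_ (hom_comp h0 _), sub_zero]
    exact K.comp_mem' hx (K.comp_mem (e.mem _) hpull) (by ring)

end steps

end Pool.Agent.LckM
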