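import Pool.Agent.LckM.NilA

/-!
# The case `2l > n` (module LckM-NilB)
-/

set_option autoImplicit false

open CategoryTheory MonoidalCategory
open Pool.Agent.LefCK

universe w v u

namespace Pool.Agent.LckM

variable {C : Type u} [Category.{v} C] [Preadditive C] [Linear ℚ C]
  [MonoidalCategory C] {F : Type w} [Field F] {K : Correspondences C F} {X Z : C}

theorem pow_comp {A : X ⟶ X} {B : Z ⟶ Z} {f : X ⟶ Z} (h : A ≫ f = f ≫ B) (M : ℕ) :
    pow A M ≫ f = f ≫ pow B M := by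
  induction M with
  | zero =>
    show 𝟙 X ≫ f = f ≫ 𝟙 Z
    rw [Category.id_comp, Category.comp_id]
  | succ M ih =>
    show (pow A M ≫ A) ≫ f = f ≫ pow B M ≫ B
    rw [Category.assoc, h, ← Category.assoc, ih, Category.assoc]

theorem pow_zero_mono {A : X ⟶ X} {x : Z ⟶ X} {M N : ℕ} (h : M ≤ N) (h0 : x ≫ pow A M = 0) :
    x ≫ pow A N = 0 := by
  induction h with
  | refl => exact h0
  | step _ ih =>
    rename_i k _
    show x ≫ pow A k ≫ A = 0
    rw [← Category.assoc, ih, Limits.zero_comp]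

/-- `u` is the identity on the homology of the weights `≥ r`; then `1 - u` is nilpotent on the
cycles of the weights `≥ r` -/
theorem unip (hnil : NilHom K Z) (q : CK K Z) (r : ℤ) {u : Z ⟶ Z} (hu : u ∈ K.deg Z Z 0)
    (h1 : ∀ j : ℤ, r ≤ j → ∀ v ∈ K.gr Z j, (K.H.map u).hom v = v) (S : Set (𝟙_ C ⟶ Z))
    (hS : ∀ y ∈ S, y ≫ (𝟙 Z - u) ∈ S) (h2 : ∀ y ∈ S, ∀ j < r, y ≫ q.p j = 0) :
    ∃ M : ℕ, ∀ y ∈ S, y ≫ pow (𝟙 Z - u) M = 0 := by
  have hadd := K.additive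
  obtain ⟨g, hg, hgy⟩ := exists_trunc q r
  have hm : 𝟙 Z - u ∈ K.deg Z Z 0 := Submodule.sub_mem _ (K.id_mem Z) hu
  obtain ⟨M, hM⟩ := hnil (g ≫ (𝟙 Z - u) ≫ g)
    (K.comp_mem' hg.mem (K.comp_mem hm hg.mem) (by ring)) (by
      ext v
      change (K.H.map (g ≫ (𝟙 Z - u) ≫ g)).hom v = 0
      induction v using K.gr_induction with
      | zero => rw [map_zero]
      | mem j v hv =>
        rw [K.map_comp_apply, K.map_comp_apply]
        rcases lt_or_ge j r with hj | hj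
        · rw [hg.zero j hj v hv, map_zero, map_zero]
        · rw [hg.one j hj v hv, K.map_sub_apply, K.map_id_apply, h1 j hj v hv, sub_self, map_zero]
      | add u v hu hv => rw [map_add, hu, hv, add_zero])
  refine ⟨M, fun y hy => ?_⟩
  have key : ∀ k : ℕ, y ≫ pow (𝟙 Z - u) k ∈ S ∧
      y ≫ pow (𝟙 Z - u) k = y ≫ pow (g ≫ (𝟙 Z - u) ≫ g) k := by
    intro k
    induction k with
    | zero =>
      show y ≫ 𝟙 Z ∈ S ∧ y ≫ 𝟙 Z = y ≫ 𝟙 Z
      rw [Category.comp_id]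
      exact ⟨hy, rfl⟩
    | succ k ih =>
      obtain ⟨h3, h4⟩ := ih
      have h5 : y ≫ pow (𝟙 Z - u) (k + 1) = (y ≫ pow (𝟙 Z - u) k) ≫ (𝟙 Z - u) :=
        (Category.assoc _ _ _).symm
      have h6 : (y ≫ pow (𝟙 Z - u) k) ≫ (𝟙 Z - u) ∈ S := hS _ h3
      refine ⟨by rw [h5]; exact h6, ?_⟩
      have h7 := hgy _ (h2 _ h3)
      have h8 := hgy _ (h2 _ h6)
      have h9 : y ≫ pow (g ≫ (𝟙 Z - u) ≫ g) (k + 1) =
          (y ≫ pow (g ≫ (𝟙 Z - u) ≫ g) k) ≫ (g ≫ (𝟙 Z - u) ≫ g) :=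
        (Category.assoc _ _ _).symm
      rw [h5, h9, ← h4, ← Category.assoc _ g, h7, ← Category.assoc _ (𝟙 Z - u), h8]
  rw [(key M).2, hM, Limits.comp_zero]

/-- the restriction to the generic section -/
theorem sec_step (hnil : NilHom K Z) (q : CK K Z) {pull : X ⟶ Z} {push : Z ⟶ X} {L σ w' : X ⟶ X}
    {n l : ℤ} (hpull : pull ∈ K.deg X Z 1) (hpush : push ∈ K.deg Z X 0) (hcls : pull ≫ push = L)
    (hσm : σ ∈ K.deg X X (-1)) (hw' : Trunc K w' (2 * l + 1))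
    (hσ : ∀ j : ℤ, n < j → ∀ v ∈ K.gr X j, (K.H.map (L ≫ σ)).hom v = v)
    (surj : ∀ j : ℤ, n - 1 < j → ∀ y ∈ K.gr Z j, ∃ x ∈ K.gr X (j + 2), (K.H.map pull).hom x = y)
    (hl : n < 2 * l) (hB : q.MurreB (l - 1)) (hD : q.MurreD (l - 1)) :
    ∃ m : ℕ, ∀ x ∈ CH K X l, K.H.map x = 0 →
      (x ≫ pow (𝟙 X - L ≫ σ ≫ w') m) ≫ pull = 0 := by
  have hadd := K.additive
  have hum : push ≫ σ ≫ w' ≫ pull ∈ K.deg Z Z 0 :=
    K.comp_mem' hpush (K.comp_mem hσm (K.comp_mem hw'.mem hpull)) (by ring)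
  obtain ⟨m, hm⟩ := unip hnil q (2 * l - 1) hum (fun j hj v hv => by
      obtain ⟨a, ha, hav⟩ := surj j (by omega) v hv
      have h1 : (K.H.map (push ≫ σ ≫ w' ≫ pull)).hom v =
          (K.H.map (w' ≫ pull)).hom ((K.H.map (L ≫ σ)).hom a) := by
        rw [← hav, ← hcls]
        simp only [K.map_comp_apply]
      rw [h1, hσ _ (by omega) a ha, K.map_comp_apply, hw'.one _ (by omega) a ha, hav])
    {y | y ∈ CH K Z (l - 1) ∧ K.H.map y = 0}
    (fun y hy => ⟨K.comp_mem' hy.1 (Submodule.sub_mem _ (K.id_mem Z) hum) (add_zero _),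
      hom_comp hy.2 _⟩)
    (fun y hy j hj => by
      rcases lt_or_eq_of_le (show j ≤ 2 * (l - 1) by omega) with h | rfl
      · exact hB y hy.1 j h
      · exact hD y hy.1 hy.2)
  refine ⟨m, fun x hx h0 => ?_⟩
  have hc : (𝟙 X - L ≫ σ ≫ w') ≫ pull = pull ≫ (𝟙 Z - push ≫ σ ≫ w' ≫ pull) := by
    rw [Preadditive.sub_comp, Preadditive.comp_sub, Category.id_comp, Category.comp_id, ← hcls]
    simp only [Category.assoc]
  rw [Category.assoc, pow_comp hc m, ← Category.assoc]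
  exact hm _ ⟨K.comp_mem' hx hpull (by ring), hom_comp h0 _⟩

/-- the conclusion -/
theorem fin_step (hnil : NilHom K X) (e : CK K X) {L σ w' w'' : X ⟶ X} {i l : ℤ}
    (hL : L ∈ K.deg X X 1) (hσm : σ ∈ K.deg X X (-1)) (hw' : Trunc K w' (2 * l + 1))
    (hw'' : Trunc K w'' (2 * l + 2)) (hi : i < 2 * l) {Y : C} {x : Y ⟶ X} (hx : x ≫ e.p i = x)
    {m M : ℕ} (h0 : (x ≫ pow (𝟙 X - L ≫ σ ≫ w') m) ≫ pow (𝟙 X - σ ≫ w'' ≫ L) M = 0) :
    x = 0 := by
  have hadd := K.additive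
  have hAm : 𝟙 X - L ≫ σ ≫ w' ∈ K.deg X X 0 := Submodule.sub_mem _ (K.id_mem X)
    (K.comp_mem' hL (K.comp_mem hσm hw'.mem) (by ring))
  have hBm : 𝟙 X - σ ≫ w'' ≫ L ∈ K.deg X X 0 := Submodule.sub_mem _ (K.id_mem X)
    (K.comp_mem' hσm (K.comp_mem hw''.mem hL) (by ring))
  have pow_zero_mem : ∀ {A : X ⟶ X}, A ∈ K.deg X X 0 → ∀ k : ℕ, pow A k ∈ K.deg X X 0 := by
    intro A hA k
    induction k with
    | zero => exact K.id_mem X
    | succ k ih => exact K.comp_mem' ih hA (add_zero _)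
  have pow_id : ∀ {A : X ⟶ X}, (∀ v ∈ K.gr X i, (K.H.map A).hom v = v) → ∀ k : ℕ,
      ∀ v ∈ K.gr X i, (K.H.map (pow A k)).hom v = v := by
    intro A hA k
    induction k with
    | zero =>
      intro v _
      show (K.H.map (𝟙 X)).hom v = v
      rw [K.map_id_apply]
    | succ k ih =>
      intro v hv
      show (K.H.map (pow A k ≫ A)).hom v = v
      rw [K.map_comp_apply, ih v hv, hA v hv]
  have hA1 : ∀ v ∈ K.gr X i, (K.H.map (𝟙 X - L ≫ σ ≫ w')).hom v = v := by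
    intro v hv
    have h1 : (K.H.map (L ≫ σ)).hom v ∈ K.gr X i := by
      have := K.map_gr (K.comp_mem' hL hσm (show (1 : ℤ) + -1 = 0 by ring)) i v hv
      simpa using this
    rw [K.map_sub_apply, K.map_id_apply, ← Category.assoc, K.map_comp_apply (L ≫ σ),
      hw'.zero i (by omega) _ h1, sub_zero]
  have hB1 : ∀ v ∈ K.gr X i, (K.H.map (𝟙 X - σ ≫ w'' ≫ L)).hom v = v := by
    intro v hv
    have h1 : (K.H.map σ).hom v ∈ K.gr X (i + 2) := by
      have := K.map_gr hσm i v hv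
      have h2 : i - 2 * -1 = i + 2 := by ring
      rwa [h2] at this
    rw [K.map_sub_apply, K.map_id_apply, K.map_comp_apply, K.map_comp_apply,
      hw''.zero (i + 2) (by omega) _ h1, map_zero, sub_zero]
  obtain ⟨R, hR⟩ : ∃ R, R = 𝟙 X - pow (𝟙 X - L ≫ σ ≫ w') m ≫ pow (𝟙 X - σ ≫ w'' ≫ L) M :=
    ⟨_, rfl⟩
  have hRm : R ∈ K.deg X X 0 := by
    rw [hR]
    exact Submodule.sub_mem _ (K.id_mem X)
      (K.comp_mem' (pow_zero_mem hAm m) (pow_zero_mem hBm M) (add_zero _))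
  have hxR : x ≫ R = x := by
    rw [hR, Preadditive.comp_sub, Category.comp_id, ← Category.assoc, h0, sub_zero]
  refine hnil.kill (A := e.p i ≫ R ≫ e.p i)
    (K.comp_mem' (e.mem i) (K.comp_mem hRm (e.mem i)) (by ring)) ?_ ?_
  · ext v
    change (K.H.map (e.p i ≫ R ≫ e.p i)).hom v = 0
    rw [K.map_comp_apply, K.map_comp_apply]
    have h1 := e.map_p_mem i v
    have h2 : (K.H.map R).hom ((K.H.map (e.p i)).hom v) = 0 := by
      rw [hR, K.map_sub_apply, K.map_id_apply, K.map_comp_apply, pow_id hA1 m _ h1,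
        pow_id hB1 M _ h1, sub_self]
    rw [h2, map_zero]
  · rw [← Category.assoc, hx, ← Category.assoc, hxR, hx]

end Pool.Agent.LckM
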