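import Pool.Agent.LckM.NilB
import Pool.Agent.LckM.Blow

/-!
# The members of a pencil (module LckM-NilM)
-/

set_option autoImplicit false

open CategoryTheory MonoidalCategory
open Pool.Agent.LefCK

universe w v u

namespace Pool.Agent.LckM

variable {C : Type u} [Category.{v} C] [Preadditive C] [Linear ℚ C]
  [MonoidalCategory C] {F : Type w} [Field F]

/-- `Z` is (the resolution of) a member of the linear system of `L` -/
structure Mem (K : Correspondences C F) (P : Pol C) (L : P.X ⟶ P.X) (Z : C) where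
  a : Z ⟶ P.X
  b : P.X ⟶ Z
  e : Z ⟶ Z
  a_mem : a ∈ K.deg Z P.X 0
  b_mem : b ∈ K.deg P.X Z 1
  e_mem : e ∈ K.deg Z Z 0
  b_a : b ≫ a = L
  e_a : e ≫ a = 0
  split : ∀ j : ℤ, P.n < j → ∀ v ∈ K.gr Z j, ∃ y ∈ K.gr P.X (j + 2),
    v = (K.H.map b).hom y + (K.H.map e).hom v

variable {K : Correspondences C F} {P : Pol C}

/-- smooth members -/
theorem Mem.of_smooth (Z : ZeroLocus K P) (hc : Z.c = 1) :
    ∃ m : Mem K P (Z.pull ≫ Z.push) Z.Y, m.a = Z.push := by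
  refine ⟨{ a := Z.push, b := Z.pull, e := 0, a_mem := Z.push_mem, b_mem := ?_,
            e_mem := Submodule.zero_mem _, b_a := rfl, e_a := Limits.zero_comp,
            split := ?_ }, rfl⟩
  · have h1 := Z.pull_mem
    rwa [hc, Nat.cast_one] at h1
  · intro j hj v hv
    obtain ⟨x, hx, h1⟩ := Z.surj j (by rw [hc]; push_cast; omega) v hv
    refine ⟨x, ?_, ?_⟩
    · rw [hc] at hx
      have h2 : j + 2 * ((1 : ℕ) : ℤ) = j + 2 := by push_cast; ring
      rwa [h2] at hx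
    · rw [h1, K.map_zero_apply, add_zero]

namespace PointBlowUp

variable (Q : PointBlowUp K P)

theorem inc_M_ret : Q.inc ≫ Q.M ≫ Q.ret = Q.L := by
  have hN := Q.two_le
  rw [← Category.assoc, Q.inc_M, Preadditive.sub_comp, Linear.smul_comp, Category.assoc,
    Category.assoc, Q.inc_ret, Category.comp_id, Q.x_ret (Q.n - 1) (by omega) (by omega),
    Limits.comp_zero, smul_zero, sub_zero]

theorem M_ξ (i : ℕ) (h1 : 2 ≤ i) (h2 : i < Q.n) : Q.M ≫ Q.ξ (i - 1) = Q.b • Q.ξ i := by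
  have hN := Q.two_le
  rw [PointBlowUp.M, Q.E_eq]
  have h3 : Q.inc ≫ Q.ξ (i - 1) = 0 := Q.inc_ξ (i - 1) (by omega) (by omega)
  have h4 : (∑ k ∈ Finset.Ico 2 Q.n, Q.ξ k ≫ Q.x (k - 1)) ≫ Q.ξ (i - 1) = Q.ξ i := by
    rw [Preadditive.sum_comp, Finset.sum_eq_single_of_mem i (Finset.mem_Ico.2 ⟨h1, h2⟩)]
    · rw [Category.assoc, Q.pairing (i - 1) (i - 1) (by omega) (by omega) (by omega) (by omega),
        if_pos rfl, Category.comp_id]
    · intro k hk hki
      rw [Finset.mem_Ico] at hk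
      rw [Category.assoc, Q.pairing (k - 1) (i - 1) (by omega) (by omega) (by omega) (by omega),
        if_neg (by omega), Limits.comp_zero]
  rw [Preadditive.sub_comp, Linear.smul_comp, Preadditive.sub_comp, Preadditive.sub_comp, h4]
  simp only [Category.assoc]
  rw [h3, Q.pairing (Q.n - 1) (i - 1) (by omega) (by omega) (by omega) (by omega),
    if_neg (by omega)]
  simp only [Limits.comp_zero, zero_sub, sub_zero, smul_neg, neg_neg]

theorem x_M_ret (i : ℕ) (h1 : 2 ≤ i) (h2 : i < Q.n) : Q.x i ≫ Q.M ≫ Q.ret = 0 := by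
  rw [← Category.assoc, Q.x_M i (by omega) h2, Linear.smul_comp, PointBlowUp.xx,
    if_neg (by omega), Q.x_ret (i - 1) (by omega) (by omega), smul_zero]

end PointBlowUp

/-- members with one node -/
theorem Mem.of_nodal (Q : PointBlowUp K P) (Z : ZeroLocus K Q.pol) (hc : Z.c = 1) :
    ∃ m : Mem K P Q.L Z.Y, m.a = Z.push ≫ Q.ret := by
  classical
  have hadd := K.additive
  have hN := Q.two_le
  obtain ⟨r, hr, hcls⟩ : ∃ r : ℚ, 0 < r ∧ Z.pull ≫ Z.push = r • Q.M := by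
    have h1 := Z.cls
    obtain ⟨-, r, hr, h2⟩ := h1
    exact ⟨r, hr, h2⟩
  have hb := Q.b_pos
  obtain ⟨pull, hpull⟩ : ∃ pull : Q.Y ⟶ Z.Y, pull = Z.pull := ⟨_, rfl⟩
  obtain ⟨push, hpush⟩ : ∃ push : Z.Y ⟶ Q.Y, push = Z.push := ⟨_, rfl⟩
  have hpm : pull ∈ K.deg Q.Y Z.Y 1 := by
    have h1 := Z.pull_mem
    rw [hc, Nat.cast_one] at h1
    rw [hpull]
    exact h1
  have hqm : push ∈ K.deg Z.Y Q.Y 0 := by
    rw [hpush]
    exact Z.push_mem
  have hcls' : pull ≫ push = r • Q.M := by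
    rw [hpull, hpush]
    exact hcls
  have hsurj : ∀ j : ℤ, P.n < j → ∀ v ∈ K.gr Z.Y j, ∃ x ∈ K.gr Q.Y (j + 2),
      (K.H.map pull).hom x = v := by
    intro j hj v hv
    obtain ⟨x, hx, h1⟩ := Z.surj j (by
      change P.n - (Z.c : ℤ) < j
      rw [hc]
      push_cast
      omega) v hv
    refine ⟨x, ?_, ?_⟩
    · rw [hc] at hx
      have h2 : j + 2 * ((1 : ℕ) : ℤ) = j + 2 := by push_cast; ring
      rw [h2] at hx
      exact hx
    · rw [hpull]
      exact h1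
  obtain ⟨e, he⟩ : ∃ e : Z.Y ⟶ Z.Y, e = ∑ i ∈ Finset.Ico 2 Q.n,
      (r * Q.b)⁻¹ • (push ≫ Q.ξ (i - 1) ≫ Q.x i ≫ pull) := ⟨_, rfl⟩
  have hpe : ∀ i ∈ Finset.Ico 2 Q.n, pull ≫ ((r * Q.b)⁻¹ • (push ≫ Q.ξ (i - 1) ≫ Q.x i ≫ pull)) =
      Q.ξ i ≫ Q.x i ≫ pull := by
    intro i hi
    rw [Finset.mem_Ico] at hi
    have h1 : pull ≫ push ≫ Q.ξ (i - 1) ≫ Q.x i ≫ pull =
        (r * Q.b) • (Q.ξ i ≫ Q.x i ≫ pull) := by
      rw [← Category.assoc pull, hcls', Linear.smul_comp, ← Category.assoc Q.M,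
        Q.M_ξ i hi.1 hi.2, Linear.smul_comp, smul_smul]
    rw [Linear.comp_smul, h1, smul_smul, inv_mul_cancel₀ (mul_pos hr hb).ne', one_smul]
  refine ⟨{ a := push ≫ Q.ret, b := r⁻¹ • (Q.inc ≫ pull), e := e, a_mem := ?_, b_mem := ?_,
            e_mem := ?_, b_a := ?_, e_a := ?_, split := ?_ },
    congrArg (fun t : Z.Y ⟶ Q.Y => t ≫ Q.ret) hpush⟩
  · exact K.comp_mem' hqm Q.ret_mem (add_zero 0)
  · exact Submodule.smul_mem _ _ (K.comp_mem' Q.inc_mem hpm (zero_add 1))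
  · rw [he]
    refine Submodule.sum_mem _ fun i hi => Submodule.smul_mem _ _ ?_
    rw [Finset.mem_Ico] at hi
    refine K.comp_mem' hqm (K.comp_mem (Q.ξ_mem (i - 1)) (K.comp_mem (Q.x_mem i) hpm)) ?_
    omega
  · rw [Linear.smul_comp]
    have h1 : (Q.inc ≫ pull) ≫ push ≫ Q.ret = r • Q.L := by
      rw [Category.assoc, ← Category.assoc pull, hcls', Linear.smul_comp, Linear.comp_smul,
        Q.inc_M_ret]
    rw [h1, smul_smul, inv_mul_cancel₀ hr.ne', one_smul]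
  · rw [he, Preadditive.sum_comp]
    refine Finset.sum_eq_zero fun i hi => ?_
    rw [Finset.mem_Ico] at hi
    have h1 : (push ≫ Q.ξ (i - 1) ≫ Q.x i ≫ pull) ≫ push ≫ Q.ret =
        push ≫ Q.ξ (i - 1) ≫ Q.x i ≫ (pull ≫ push) ≫ Q.ret := by
      simp only [Category.assoc]
    rw [Linear.smul_comp, h1, hcls', Linear.smul_comp, Linear.comp_smul, Q.x_M_ret i hi.1 hi.2]
    simp only [smul_zero, Limits.comp_zero]
  · intro j hj v hv
    obtain ⟨x, hx, hxv⟩ := hsurj j hj v hv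
    have hrm : r • Q.ret ∈ K.deg Q.Y P.X 0 := Submodule.smul_mem _ _ Q.ret_mem
    refine ⟨(K.H.map (r • Q.ret)).hom x, ?_, ?_⟩
    · have h1 := K.map_gr hrm _ x hx
      rwa [mul_zero, sub_zero] at h1
    · have h1 : (K.H.map (r⁻¹ • (Q.inc ≫ pull))).hom ((K.H.map (r • Q.ret)).hom x) =
          (K.H.map (Q.ret ≫ Q.inc ≫ pull)).hom x := by
        rw [← K.map_comp_apply, Linear.smul_comp, Linear.comp_smul, smul_smul,
          mul_inv_cancel₀ hr.ne', one_smul]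
      have h2 : (K.H.map e).hom v =
          ∑ i ∈ Finset.Ico 2 Q.n, (K.H.map (Q.ξ i ≫ Q.x i ≫ pull)).hom x := by
        rw [← hxv, ← K.map_comp_apply, he, Preadditive.comp_sum, K.map_sum_apply]
        exact Finset.sum_congr rfl fun i hi => by rw [hpe i hi]
      have h3 : pull = Q.ret ≫ Q.inc ≫ pull + ∑ i ∈ Finset.Ico 1 Q.n, Q.ξ i ≫ Q.x i ≫ pull := by
        have h4 : pull = 𝟙 Q.Y ≫ pull := (Category.id_comp _).symm
        conv_lhs => rw [h4, ← Q.sum, Preadditive.add_comp, Preadditive.sum_comp]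
        simp only [Category.assoc]
      have h4 : v = (K.H.map (Q.ret ≫ Q.inc ≫ pull)).hom x +
          ∑ i ∈ Finset.Ico 1 Q.n, (K.H.map (Q.ξ i ≫ Q.x i ≫ pull)).hom x := by
        conv_lhs => rw [← hxv, h3]
        rw [K.map_add_apply, K.map_sum_apply]
      have h5 : (K.H.map (Q.ξ 1 ≫ Q.x 1 ≫ pull)).hom x = 0 := by
        rw [K.map_comp_apply, Q.ξ_map 1 (j + 2) ?_ x hx, map_zero]
        have := Q.n_eq
        push_cast
        omega
      rw [h1, h2]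
      rw [Finset.sum_eq_sum_Ico_succ_bot (show 1 < Q.n by omega), h5, zero_add] at h4
      exact h4

/-- **the members** -/
theorem member_kill {L : P.X ⟶ P.X} {Z : C} (m : Mem K P L Z) (hnil : NilHom K Z) (q : CK K Z)
    {l : ℤ} (hB : q.MurreB l) (hl : P.n < 2 * l) {s w : P.X ⟶ P.X}
    (hsm : s ∈ K.deg P.X P.X (-1)) (hwm : w ∈ K.deg P.X P.X 0)
    (hs : ∀ j : ℤ, P.n < j → ∀ v ∈ K.gr P.X j, (K.H.map (L ≫ s)).hom v = v)
    (hw : ∀ j : ℤ, 2 * l + 2 ≤ j → ∀ v ∈ K.gr P.X j, (K.H.map w).hom v = v)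
    {ζ : 𝟙_ C ⟶ Z} (hζ : ζ ∈ CH K Z l) :
    ∃ M : ℕ, (ζ ≫ m.a) ≫ pow (𝟙 P.X - s ≫ w ≫ L) M = 0 := by
  have hadd := K.additive
  have hum : m.a ≫ s ≫ w ≫ m.b + m.e ∈ K.deg Z Z 0 :=
    Submodule.add_mem _ (K.comp_mem' m.a_mem (K.comp_mem hsm (K.comp_mem hwm m.b_mem)) (by ring))
      m.e_mem
  obtain ⟨M, hM⟩ := unip hnil q (2 * l) hum (fun j hj v hv => by
      obtain ⟨y, hy, h1⟩ := m.split j (by omega) v hv
      have h2 : (K.H.map m.a).hom v = (K.H.map L).hom y := by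
        conv_lhs => rw [h1]
        rw [map_add, ← K.map_comp_apply, ← K.map_comp_apply, m.b_a, m.e_a, K.map_zero_apply,
          add_zero]
      have h3 : (K.H.map (m.a ≫ s ≫ w ≫ m.b)).hom v = (K.H.map m.b).hom y := by
        rw [K.map_comp_apply, h2, K.map_comp_apply, ← K.map_comp_apply L s,
          hs (j + 2) (by omega) y hy, K.map_comp_apply, hw (j + 2) (by omega) y hy]
      rw [K.map_add_apply, h3]
      exact h1.symm)
    {y | y ∈ CH K Z l}
    (fun y hy => K.comp_mem' hy (Submodule.sub_mem _ (K.id_mem Z) hum) (add_zero _))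
    (fun y hy j hj => hB y hy j hj)
  refine ⟨M, ?_⟩
  have hc : (𝟙 Z - (m.a ≫ s ≫ w ≫ m.b + m.e)) ≫ m.a = m.a ≫ (𝟙 P.X - s ≫ w ≫ L) := by
    rw [Preadditive.sub_comp, Preadditive.comp_sub, Preadditive.add_comp, m.e_a, add_zero,
      Category.id_comp, Category.comp_id]
    congr 1
    simp only [Category.assoc]
    rw [m.b_a]
  rw [Category.assoc, ← pow_comp hc M, ← Category.assoc, hM ζ hζ, Limits.zero_comp]

end Pool.Agent.LckM
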