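import Pool.Agent.LckM.Level

/-!
# The conjecture (B) alone: reduction to the middle of the varieties of odd dimension
-/

set_option autoImplicit false

open CategoryTheory MonoidalCategory
open Pool.Agent.LefCK

universe w v u

namespace Pool.Agent.LckM

variable {F : Type w} [Field F]

section one

variable {C : Type u} [Category.{v} C] [Preadditive C] [Linear ℚ C]
  [MonoidalCategory C] {K : Correspondences C F} {P : Pol C}
  {e : LCK K P} {Z : ZeroLocus K P} {q : CK K Z.Y}

theorem Adapted.bOdd (A : Adapted e Z q) (hc : Z.c = 1) {l : ℤ} (hl : P.n + 1 < 2 * l)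
    (hB : q.MurreB (l - 1)) {z : 𝟙_ C ⟶ P.X} (hz : z ∈ CH K P.X l) :
    ∃ w : 𝟙_ C ⟶ P.X, w ≫ Z.pull = z ≫ Z.pull ∧ ∀ k < 2 * l, w ≫ e.p k = 0 := by
  have hy : z ≫ Z.pull ∈ CH K Z.Y (l - 1) :=
    K.comp_mem' hz Z.pull_mem (by rw [hc]; push_cast; ring)
  have hy0 : ∀ j < 2 * l - 2, (z ≫ Z.pull) ≫ q.p j = 0 := fun j hj => hB _ hy j (by omega)
  obtain ⟨w, -, h4, h5⟩ := A.lift (l - 1) (2 * l - 2) (by rw [hc]; push_cast; omega) _ hy hy0
  exact ⟨w, h4, fun k hk => h5 k (by rw [hc]; push_cast; omega)⟩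

end one

variable {G : Fields.{w, v, u} F} {V : G.Class}

/-- (B) for `n + 1 < 2l` without (D) -/
theorem bOdd (hV : G.Pencils V) {n l : ℤ} (hn : 0 < n) (hl : n + 1 < 2 * l)
    (h1 : BAt V (n - 1) (l - 1)) (h3 : BAt V (n - 1) l) : BAt V n l := by
  rintro k P hk hP rfl e x hx i hi
  rcases lt_or_ge l P.n with hln | hln
  swap
  · exact top_zero hV hP hln e.toCK hx hi
  obtain ⟨L, k', B, Z, hL, hk', -, hc, hcls, hVZ, hloc⟩ := hV.pencil hk hP hn
  obtain ⟨e', he'⟩ := B.exists_lck e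
  obtain ⟨q, A⟩ := exists_adapted e' Z
  obtain ⟨w, h4, h5⟩ := A.bOdd hc (l := l) hl
    (has_b h1 hk' hVZ (by change P.n - (Z.c : ℤ) = P.n - 1; rw [hc]; rfl) q)
    (z := B.cyc x) (B.cyc_mem hx)
  obtain ⟨s, hs, -⟩ := e.toCK.exists_finset
  obtain ⟨N, hN⟩ : ∃ N : ℤ, ∀ j, N ≤ j → e.p j = 0 := by
    obtain ⟨M, hM⟩ := s.bddAbove
    refine ⟨M + 1, fun j hj => hs j fun hjs => ?_⟩
    have := hM hjs
    omega
  obtain ⟨w0, hw0, h6, h7⟩ := descent B e hL l N hN (N - 2 * l).toNat (2 * l)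
    (by omega) (by have := Int.self_le_toNat (N - 2 * l); omega) x hx w (by
      intro j hj
      rw [← he']
      exact h5 j hj) (by
      rw [← hcls]
      exact comp_cls h4)
  have h8 := hloc l (by omega) hln (x - w0) (Submodule.sub_mem _ hx hw0) (by
    rw [B.cyc_sub, h6]
    exact sub_pull h4)
  have h9 : (x - w0) ≫ e.p i = 0 := by
    generalize x - w0 = a at h8
    induction h8 using Submodule.span_induction with
    | mem γ hγ => exact member_zero h3 (by omega) hk e hγ i hi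
    | zero => exact Limits.zero_comp
    | add a b _ _ ha hb => rw [Preadditive.add_comp, ha, hb, add_zero]
    | smul c a _ ha => rw [Linear.smul_comp, ha, smul_zero]
  rwa [Preadditive.sub_comp, h7 i hi, sub_zero] at h9

/-- (B) for `n + 1 = 2l`: all weights except the middle one -/
theorem bMid (hV : G.Pencils V) {m : ℕ} (hM : G.MiddleB V m)
    (h : BAt V (2 * m) (m + 1)) : BAt V (2 * m + 1) (m + 1) := by
  rintro k P hk hP hn e x hx i hi
  rcases lt_or_eq_of_le (show i ≤ 2 * m + 1 by omega) with hi' | rfl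
  · obtain ⟨L, k', B, Z, -, hk', -, hc, -, hVZ, -⟩ := hV.pencil hk hP (by omega)
    obtain ⟨e', he'⟩ := B.exists_lck e
    obtain ⟨q, A⟩ := exists_adapted e' Z
    have h1 := A.bLow hc (l := m + 1) (i := i) (by change i < P.n; omega) hi
      (has_b h hk' hVZ (by change P.n - (Z.c : ℤ) = 2 * m; rw [hc, hn]; push_cast; ring) q)
      (x := B.cyc x) (B.cyc_mem hx)
    apply B.cyc_inj
    rw [B.cyc_comp, ← he']
    exact h1
  · exact hM k P hk hP hn e x hx

theorem oddRange (hV : G.Pencils V) {m : ℕ} (hM : ∀ j ≤ m, G.MiddleB V j) (N : ℕ) :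
    ∀ l : ℤ, (l ≤ m + 1 ∨ (N : ℤ) ≤ l + m) → BAt V N l := by
  induction N with
  | zero =>
    intro l _
    rcases lt_or_ge l 0 with h | h
    · exact bNeg h
    · exact bTop hV (by exact_mod_cast h)
  | succ N ih =>
    have hN : ((N + 1 : ℕ) : ℤ) - 1 = (N : ℤ) := by push_cast; ring
    have hN' : ((N + 1 : ℕ) : ℤ) = (N : ℤ) + 1 := by push_cast; ring
    intro l hl
    rcases lt_trichotomy (2 * l) ((N + 1 : ℕ) + 1 : ℤ) with h | h | h
    · refine bLow hV (by omega) (by omega) ?_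
      rw [hN]
      exact ih l (by omega)
    · obtain ⟨j, hj⟩ : ∃ j : ℕ, (j : ℤ) = l - 1 := ⟨(l - 1).toNat, Int.toNat_of_nonneg (by omega)⟩
      obtain rfl : l = j + 1 := by omega
      obtain rfl : N = 2 * j := by omega
      have h1 := bMid hV (hM j (by omega)) (by
        have := ih (j + 1) (by omega)
        push_cast at this
        exact this)
      push_cast
      exact h1
    · refine bOdd hV (by omega) h ?_ ?_
      · rw [hN]
        exact ih (l - 1) (by omega)
      · rw [hN]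
        exact ih l (by omega)

/-- **the level theorem for (B) alone** -/
theorem levelB (hV : G.Pencils V) (m : ℕ) : G.RangeB V m ↔ ∀ j ≤ m, G.MiddleB V j := by
  constructor
  · intro h j hj k P _ hP _ e x hx
    exact h k P hP e (j + 1) _ (by omega) (Or.inl (by omega)) x hx
  · intro hM
    exact rangeB_of hV fun N l hl => oddRange hV hM N l hl

theorem middleB_zero (hV : G.Pencils V) : G.MiddleB V 0 := by
  intro k P hk hP hn e x hx
  have hn' : P.n = 1 := by simpa using hn
  exact top_zero hV hP (l := ((0 : ℕ) : ℤ) + 1) (by rw [hn']; simp) e.toCK hx (by simp)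

theorem middleB_one (hV : G.Pencils V) : G.MiddleB V 1 := by
  intro k P hk hP hn e x hx
  have hn' : P.n = 3 := by rw [hn]; norm_num
  have hd : (G.th k).D.dim P.X = 3 := by rw [hV.dim_eq hP, hn']
  have hx0 : (G.th k).K.H.map (x ≫ e.p (2 * ((1 : ℕ) : ℤ) + 1)) = 0 :=
    hom_p e.toCK (by norm_num) hx
  refine low_ctrl (D := (G.th k).D) e.toCK (l := ((1 : ℕ) : ℤ) + 1)
    (low_top_div (by rw [hd]; norm_num)) (by norm_num) hx hx0

/-- (D) in the even middles implies (B) in the odd middles -/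
theorem middleB_of_middleD (hV : G.Pencils V) {m : ℕ} (hM : ∀ j ≤ m, G.MiddleD V j) :
    ∀ j ≤ m, G.MiddleB V j :=
  (levelB hV m).1 ((level hV m).2 hM).1

end Pool.Agent.LckM
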