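import Pool.Agent.LefCK.LowB
import Pool.Agent.LckM.Base
import Pool.Agent.LckM.Blow

/-!
# Generic hyperplane sections and pencils
-/

set_option autoImplicit false

open CategoryTheory MonoidalCategory
open Pool.Agent.LefCK

universe w v u

namespace Pool.Agent.LckM

section one

variable {C : Type u} [Category.{v} C] [Preadditive C] [Linear ℚ C]
  [MonoidalCategory C] {F : Type w} [Field F]
  {K : Correspondences C F} {P : Pol C}

theorem right_inv (e : LCK K P) {L : P.X ⟶ P.X} (hL : L ∈ P.L 1) (j : ℤ) (hj : P.n < j) :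
    ∃ g ∈ K.deg P.X P.X (-1), e.p j ≫ L ≫ e.p (j - 2) ≫ g = e.p j := by
  obtain ⟨m, hm⟩ : ∃ m : ℕ, (m : ℤ) = j - P.n - 1 :=
    ⟨(j - P.n - 1).toNat, Int.toNat_of_nonneg (by omega)⟩
  set r : List (ℕ × (P.X ⟶ P.X)) := List.replicate m (1, L) with hr
  have hrt : total r = m := by rw [hr, total_replicate]; push_cast; ring
  have hrm : ∀ a ∈ r, 0 < a.1 ∧ a.2 ∈ P.L a.1 := by
    intro a ha
    rw [List.eq_of_mem_replicate ha]
    exact ⟨Nat.one_pos, hL⟩
  obtain ⟨G, hG, h1, -⟩ := e.hard ((1, L) :: r) (List.cons_ne_nil _ _) (by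
    intro a ha
    rcases List.mem_cons.1 ha with rfl | ha
    · exact ⟨Nat.one_pos, hL⟩
    · exact hrm a ha)
  have ht : total ((1, L) :: r) = j - P.n := by
    rw [total_cons, hrt]
    push_cast
    omega
  have hw : P.n + total ((1, L) :: r) = j := by
    rw [ht]; ring
  rw [hw, lead_cons] at h1
  have hw2 : j - 2 * (((1, L) : ℕ × (P.X ⟶ P.X)).1 : ℤ) = j - 2 := by
    show j - 2 * ((1 : ℕ) : ℤ) = j - 2
    push_cast
    ring
  rw [hw2] at h1
  refine ⟨lead e.p (j - 2) r ≫ G, ?_, ?_⟩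
  · refine K.comp_mem' (lead_mem e.mem _ r fun a ha => e.mem_L _ _ (hrm a ha).2) hG ?_
    rw [hrt, ht]
    omega
  · rw [← Category.assoc (e.p (j - 2)), p_lead e.idem]
    simpa only [Category.assoc] using h1

theorem hom_comp {X Y Z : C} {x : X ⟶ Y} (hx : K.H.map x = 0) (f : Y ⟶ Z) :
    K.H.map (x ≫ f) = 0 := by
  rw [K.H.map_comp, hx, Limits.zero_comp]

/-- the component of weight `i ≠ 2l` of an `l`-cycle is homologically trivial -/
theorem hom_p {X : C} (e : CK K X) {l i : ℤ} (hi : i ≠ 2 * l) {x : 𝟙_ C ⟶ X}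
    (hx : x ∈ CH K X l) : K.H.map (x ≫ e.p i) = 0 := low_map_p e hi hx


variable {e : LCK K P} {Z : ZeroLocus K P} {q : CK K Z.Y}

theorem Adapted.bLow (A : Adapted e Z q) (hc : Z.c = 1) {l i : ℤ} (hi : i < P.n)
    (hil : i < 2 * l) (hB : q.MurreB l) {x : 𝟙_ C ⟶ P.X} (hx : x ∈ CH K P.X l) :
    x ≫ e.p i = 0 := by
  obtain ⟨σ, hσ, h1⟩ := exists_sigma e Z i (by rw [hc]; push_cast; omega)
  have hy : x ≫ σ ∈ CH K Z.Y l := K.comp_mem' hx hσ (add_zero _)
  have h2 : (x ≫ σ) ≫ Z.push ≫ e.p i = 0 := by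
    refine q.comp_eq_zero _ _ fun j => ?_
    rcases lt_or_ge j (2 * l) with hj | hj
    · have h3 := hB _ hy j hj
      rw [← Category.assoc, h3, Limits.zero_comp]
    · rw [A.push i j (by omega), Limits.comp_zero]
  rw [← h1, ← h2]
  simp only [Category.assoc]

theorem Adapted.dLow (A : Adapted e Z q) (hc : Z.c = 1) {l : ℤ} (hl : 2 * l < P.n)
    (hB : q.MurreB l) (hD : q.MurreD l) {x : 𝟙_ C ⟶ P.X} (hx : x ∈ CH K P.X l)
    (h0 : K.H.map x = 0) : x ≫ e.p (2 * l) = 0 := by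
  obtain ⟨σ, hσ, h1⟩ := exists_sigma e Z (2 * l) (by rw [hc]; push_cast; omega)
  have hy : x ≫ σ ∈ CH K Z.Y l := K.comp_mem' hx hσ (add_zero _)
  have h2 : (x ≫ σ) ≫ Z.push ≫ e.p (2 * l) = 0 := by
    refine q.comp_eq_zero _ _ fun j => ?_
    rcases lt_trichotomy j (2 * l) with hj | rfl | hj
    · have h3 := hB _ hy j hj
      rw [← Category.assoc, h3, Limits.zero_comp]
    · have h3 := hD _ hy (hom_comp h0 _)
      rw [← Category.assoc, h3, Limits.zero_comp]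
    · rw [A.push _ j hj, Limits.comp_zero]
  rw [← h1, ← h2]
  simp only [Category.assoc]

theorem Adapted.dHigh (A : Adapted e Z q) (hc : Z.c = 1) {l : ℤ} (hl : P.n < 2 * l)
    (hD : q.MurreD (l - 1)) {x : 𝟙_ C ⟶ P.X} (hx : x ∈ CH K P.X l)
    (h0 : K.H.map x = 0) : x ≫ e.p (2 * l) = 0 := by
  obtain ⟨s, -, h1⟩ := exists_tau e Z (2 * l - 2) (by rw [hc]; push_cast; omega)
  have h2 : 2 * l - 2 + 2 * (Z.c : ℤ) = 2 * l := by rw [hc]; push_cast; ring
  rw [h2] at h1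
  have hy : x ≫ e.p (2 * l) ≫ Z.pull ∈ CH K Z.Y (l - 1) :=
    K.comp_mem' hx (K.comp_mem' (e.mem _) Z.pull_mem (zero_add _)) (by rw [hc]; push_cast; ring)
  have h3 : (x ≫ e.p (2 * l) ≫ Z.pull) ≫ Z.push ≫ e.p (2 * l - 2) ≫ s = 0 := by
    refine q.comp_eq_zero _ _ fun j => ?_
    rcases lt_trichotomy j (2 * l - 2) with hj | rfl | hj
    · have h4 : (x ≫ e.p (2 * l) ≫ Z.pull) ≫ q.p j = 0 := by
        have h5 := A.pull j (2 * l) (by rw [hc]; push_cast; omega)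
        simp only [Category.assoc]
        rw [h5, Limits.comp_zero]
      rw [← Category.assoc, h4, Limits.zero_comp]
    · have h4 := hD _ hy (hom_comp h0 _)
      have h5 : 2 * (l - 1) = 2 * l - 2 := by ring
      rw [h5] at h4
      rw [← Category.assoc, h4, Limits.zero_comp]
    · have h4 := A.push (2 * l - 2) j hj
      have h5 : q.p j ≫ Z.push ≫ e.p (2 * l - 2) ≫ s = 0 := by
        have h6 : (q.p j ≫ Z.push ≫ e.p (2 * l - 2)) ≫ s = 0 := by rw [h4, Limits.zero_comp]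
        simpa only [Category.assoc] using h6
      rw [h5, Limits.comp_zero]
  rw [← h1, ← h3]
  simp only [Category.assoc]

theorem Adapted.bHigh (A : Adapted e Z q) (hc : Z.c = 1) {l : ℤ} (hl : P.n < 2 * l)
    (hB : q.MurreB (l - 1)) (hD : q.MurreD (l - 1)) {z : 𝟙_ C ⟶ P.X} (hz : z ∈ CH K P.X l)
    (h0 : K.H.map z = 0) : ∃ w : 𝟙_ C ⟶ P.X, w ≫ Z.pull = z ≫ Z.pull ∧
      ∀ k < 2 * l + 1, w ≫ e.p k = 0 := by
  have hy : z ≫ Z.pull ∈ CH K Z.Y (l - 1) :=
    K.comp_mem' hz Z.pull_mem (by rw [hc]; push_cast; ring)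
  have hy0 : ∀ j < 2 * l - 1, (z ≫ Z.pull) ≫ q.p j = 0 := by
    intro j hj
    rcases lt_or_eq_of_le (show j ≤ 2 * l - 2 by omega) with hj | rfl
    · exact hB _ hy j (by omega)
    · have h4 := hD _ hy (hom_comp h0 _)
      have h5 : 2 * (l - 1) = 2 * l - 2 := by ring
      rwa [h5] at h4
  obtain ⟨w, -, h4, h5⟩ := A.lift (l - 1) (2 * l - 1) (by rw [hc]; push_cast; omega) _ hy hy0
  exact ⟨w, h4, fun k hk => h5 k (by rw [hc]; push_cast; omega)⟩

theorem comp_cls {w z : 𝟙_ C ⟶ P.X} (h : w ≫ Z.pull = z ≫ Z.pull) :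
    w ≫ (Z.pull ≫ Z.push) = z ≫ (Z.pull ≫ Z.push) := by
  rw [← Category.assoc, h, Category.assoc]

theorem sub_pull {w z : 𝟙_ C ⟶ P.X} (h : w ≫ Z.pull = z ≫ Z.pull) : (z - w) ≫ Z.pull = 0 := by
  rw [Preadditive.sub_comp, h, sub_self]

/-- cycles on a zero locus, pushed forward -/
theorem Adapted.push_zero (A : Adapted e Z q) (hc : Z.c = 1) {l : ℤ} (hl : P.n ≤ 2 * l)
    (hB : q.MurreB l) {ζ : 𝟙_ C ⟶ Z.Y} (hζ : ζ ∈ CH K Z.Y l) :
    ∀ j < 2 * l, (ζ ≫ Z.push) ≫ e.p j = 0 := by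
  obtain ⟨ξ, -, h1, h2⟩ := A.lift l (2 * l) (by rw [hc]; push_cast; omega) ζ hζ
    (fun j hj => hB ζ hζ j hj)
  intro i hi
  rw [← h1]
  have h3 : ((ξ ≫ Z.pull) ≫ Z.push) ≫ e.p i = ξ ≫ (Z.pull ≫ Z.push) ≫ e.p i := by
    simp only [Category.assoc]
  rw [h3]
  refine e.toCK.comp_eq_zero _ _ fun j => ?_
  rcases lt_or_ge j (2 * l + 2 * (Z.c : ℤ)) with hj | hj
  · rw [← Category.assoc, h2 j hj, Limits.zero_comp]
  · rw [e.nonneg Z.c _ Z.cls i j (by omega), Limits.comp_zero]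

end one

variable {F : Type w} [Field F] {G : Fields.{w, v, u} F} {V : G.Class}

/-- (B) for `CH_l` and the varieties of dimension `n` over algebraically closed fields -/
def BAt (V : G.Class) (n l : ℤ) : Prop :=
  ∀ (k : G.Fld) (P : Pol (G.th k).C), G.Closed k → V k P → P.n = n →
    ∀ e : LCK (G.th k).K P, e.MurreB l

/-- (D) for `CH_l` and the varieties of dimension `n` over algebraically closed fields -/
def DAt (V : G.Class) (n l : ℤ) : Prop :=
  ∀ (k : G.Fld) (P : Pol (G.th k).C), G.Closed k → V k P → P.n = n →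
    ∀ e : LCK (G.th k).K P, e.MurreD l

/-- an LCK for fewer distinguished correspondences -/
theorem LCK_restrict {C : Type u} [Category.{v} C] [Preadditive C] [Linear ℚ C]
    [MonoidalCategory C] {K : Correspondences C F} {P : Pol C} (e : LCK K P)
    {L' : ℕ → Set (P.X ⟶ P.X)} (h : ∀ c, L' c ⊆ P.L c) :
    ∃ e' : LCK K ⟨P.X, P.n, L'⟩, e'.p = e.p :=
  ⟨{ toCK := e.toCK
     mem_L := fun c L hL => e.mem_L c L (h c hL)
     nonneg := fun c L hL => e.nonneg c L (h c hL)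
     hard := fun l hl hm => e.hard l hl fun a ha => ⟨(hm a ha).1, h _ (hm a ha).2⟩ }, rfl⟩

theorem has_b {n l : ℤ} (h : BAt V n l) {k : G.Fld} (hk : G.Closed k) {P : Pol (G.th k).C}
    (hP : Has (V k) P) (hn : P.n = n) (e : LCK (G.th k).K P) : e.MurreB l := by
  obtain ⟨L', hL, hV⟩ := hP
  obtain ⟨e', he'⟩ := LCK_restrict e hL
  intro x hx i hi
  rw [← he']
  exact h k _ hk hV hn e' x hx i hi

theorem has_d {n l : ℤ} (h : DAt V n l) {k : G.Fld} (hk : G.Closed k) {P : Pol (G.th k).C}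
    (hP : Has (V k) P) (hn : P.n = n) (e : LCK (G.th k).K P) : e.MurreD l := by
  obtain ⟨L', hL, hV⟩ := hP
  obtain ⟨e', he'⟩ := LCK_restrict e hL
  intro x hx h0
  rw [← he']
  exact h k _ hk hV hn e' x hx h0

private theorem pen_dim {k : G.Fld} {P : Pol (G.th k).C} {Z : ZeroLocus (G.th k).K P}
    (hc : Z.c = 1) : Z.pol.n = P.n - 1 := by
  change P.n - (Z.c : ℤ) = P.n - 1
  rw [hc]
  rfl

theorem bLow (hV : G.Pencils V) {n l : ℤ} (hn : 0 < n) (hl : 2 * l ≤ n)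
    (h : BAt V (n - 1) l) : BAt V n l := by
  rintro k P hk hP rfl e x hx i hi
  obtain ⟨L, k', B, Z, -, hk', -, hc, -, hVZ, -⟩ := hV.pencil hk hP hn
  obtain ⟨e', he'⟩ := B.exists_lck e
  obtain ⟨q, A⟩ := exists_adapted e' Z
  have h1 := A.bLow hc (l := l) (i := i) (by change i < P.n; omega) hi
    (has_b h hk' hVZ (pen_dim hc) q) (x := B.cyc x) (B.cyc_mem hx)
  apply B.cyc_inj
  rw [B.cyc_comp, ← he']
  exact h1

theorem dLow (hV : G.Pencils V) {n l : ℤ} (hn : 0 < n) (hl : 2 * l < n)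
    (h : BAt V (n - 1) l) (h' : DAt V (n - 1) l) : DAt V n l := by
  rintro k P hk hP rfl e x hx h0
  obtain ⟨L, k', B, Z, -, hk', -, hc, -, hVZ, -⟩ := hV.pencil hk hP hn
  obtain ⟨e', he'⟩ := B.exists_lck e
  obtain ⟨q, A⟩ := exists_adapted e' Z
  have h1 := A.dLow hc (l := l) hl (has_b h hk' hVZ (pen_dim hc) q)
    (has_d h' hk' hVZ (pen_dim hc) q) (x := B.cyc x) (B.cyc_mem hx) (B.cyc_hom h0)
  apply B.cyc_inj
  rw [B.cyc_comp, ← he']
  exact h1

theorem dHigh (hV : G.Pencils V) {n l : ℤ} (hn : 0 < n) (hl : n < 2 * l)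
    (h : DAt V (n - 1) (l - 1)) : DAt V n l := by
  rintro k P hk hP rfl e x hx h0
  obtain ⟨L, k', B, Z, -, hk', -, hc, -, hVZ, -⟩ := hV.pencil hk hP hn
  obtain ⟨e', he'⟩ := B.exists_lck e
  obtain ⟨q, A⟩ := exists_adapted e' Z
  have h1 := A.dHigh hc (l := l) hl (has_d h hk' hVZ (pen_dim hc) q)
    (x := B.cyc x) (B.cyc_mem hx) (B.cyc_hom h0)
  apply B.cyc_inj
  rw [B.cyc_comp, ← he']
  exact h1

/-- **descent**: a class over `k'` of weights `≥ r > n` whose intersection with `L` is defined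
over `k` is defined over `k`. -/
theorem descent {S S' : Theory.{w, v, u} F} (B : BaseChange S.K S'.K) {P : Pol S.C}
    (e : LCK S.K P) {L : P.X ⟶ P.X} (hL : L ∈ P.L 1) (l : ℤ) (N : ℤ)
    (hN : ∀ j, N ≤ j → e.p j = 0) (m : ℕ) : ∀ (r : ℤ), P.n < r → N ≤ r + m →
    ∀ z ∈ CH S.K P.X l, ∀ w : 𝟙_ S'.C ⟶ B.Φ.obj P.X,
      (∀ k < r, w ≫ B.Φ.map (e.p k) = 0) → w ≫ B.Φ.map L = B.cyc z ≫ B.Φ.map L →
      ∃ w0 ∈ CH S.K P.X l, B.cyc w0 = w ∧ ∀ k < r, w0 ≫ e.p k = 0 := by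
  obtain ⟨e', he'⟩ := B.exists_ck e.toCK
  induction m with
  | zero =>
    intro r _ hr z _ w h1 _
    refine ⟨0, Submodule.zero_mem _, ?_, fun k _ => Limits.zero_comp⟩
    rw [B.cyc_zero]
    have h2 : w ≫ 𝟙 _ = 0 := e'.comp_eq_zero w (𝟙 _) fun k => by
      rw [Category.comp_id, he']
      rcases lt_or_ge k r with hk | hk
      · exact h1 k hk
      · rw [hN k (by push_cast at hr; omega), B.map_zero, Limits.comp_zero]
    rw [← h2, Category.comp_id]
  | succ m ih =>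
    intro r hr hrm z hz w h1 h2
    obtain ⟨g, hg, h3⟩ := right_inv e hL r hr
    obtain ⟨c, hc⟩ : ∃ c, c = z ≫ L ≫ e.p (r - 2) ≫ g := ⟨_, rfl⟩
    have hcm : c ∈ CH S.K P.X l := by
      rw [hc]
      refine S.K.comp_mem' hz (S.K.comp_mem' (e.mem_L 1 L hL) (S.K.comp_mem' (e.mem _) hg
        (zero_add _)) rfl) (by push_cast; ring)
    have h4 : w ≫ B.Φ.map (L ≫ e.p (r - 2)) =
        w ≫ e'.p r ≫ B.Φ.map (L ≫ e.p (r - 2)) := by
      refine e'.comp_eq w _ r fun k hk => ?_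
      rw [he']
      rcases lt_or_gt_of_ne hk with hk | hk
      · rw [← Category.assoc, h1 k hk, Limits.zero_comp]
      · rw [← B.Φ.map_comp, e.nonneg 1 L hL (r - 2) k (by push_cast; omega), B.map_zero,
          Limits.comp_zero]
    have h5 : B.cyc c = w ≫ B.Φ.map (e.p r) := by
      have h6 : w ≫ B.Φ.map (e.p r) = (w ≫ e'.p r ≫ B.Φ.map (L ≫ e.p (r - 2))) ≫
          B.Φ.map g := by
        rw [he']
        simp only [Category.assoc, ← B.Φ.map_comp]
        rw [h3]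
      rw [h6, ← h4, B.Φ.map_comp, ← Category.assoc w, h2, hc, B.cyc_comp]
      simp only [Category.assoc, B.Φ.map_comp]
    have h7 : ∀ k, k ≠ r → c ≫ e.p k = 0 := by
      intro k hk
      apply B.cyc_inj
      rw [B.cyc_comp, h5, Category.assoc, ← B.Φ.map_comp, e.orth r k (Ne.symm hk), B.map_zero,
        Limits.comp_zero]
    have h8 : B.cyc c ≫ B.Φ.map (e.p r) = B.cyc c := by
      rw [h5, Category.assoc, ← B.Φ.map_comp, e.idem]
    obtain ⟨w0, hw0, h9, h10⟩ := ih (r + 1) (by omega) (by push_cast at hrm; omega) (z - c)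
      (Submodule.sub_mem _ hz hcm) (w - B.cyc c) (by
        intro k hk
        rw [Preadditive.sub_comp]
        rcases lt_or_eq_of_le (show k ≤ r by omega) with hk | rfl
        · rw [h1 k hk, ← B.cyc_comp, h7 k (by omega), B.cyc_zero, sub_zero]
        · rw [h8, h5, sub_self])
      (by rw [Preadditive.sub_comp, h2, B.cyc_sub, Preadditive.sub_comp])
    refine ⟨w0 + c, Submodule.add_mem _ hw0 hcm, ?_, ?_⟩
    · have h11 : B.cyc (w0 + c) = B.cyc w0 + B.cyc c := by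
        rw [BaseChange.cyc, BaseChange.cyc, BaseChange.cyc, B.map_add, Preadditive.comp_add]
      rw [h11, h9, sub_add_cancel]
    · intro k hk
      rw [Preadditive.add_comp, h10 k (by omega), h7 k (by omega), add_zero]

theorem member_zero {l : ℤ} {k : G.Fld} {P : Pol (G.th k).C}
    (h : BAt V (P.n - 1) l) (hl : P.n < 2 * l) (hk : G.Closed k) (e : LCK (G.th k).K P)
    {L : P.X ⟶ P.X} {γ : 𝟙_ (G.th k).C ⟶ P.X} (hγ : FromMember (G.th k).K (V k) P L l γ)
    (i : ℤ) (hi : i < 2 * l) : γ ≫ e.p i = 0 := by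
  cases hγ with
  | smooth Z hc _ hVZ ζ hζ =>
    obtain ⟨q, A⟩ := exists_adapted e Z
    exact A.push_zero hc hl.le (has_b h hk hVZ (pen_dim hc) q) hζ i hi
  | nodal Q Z hc _ hVZ ζ hζ =>
    obtain ⟨e', he'⟩ := exists_blow e Q
    obtain ⟨q, A⟩ := exists_adapted e' Z
    have h1 := A.push_zero hc (l := l) hl.le (has_b h hk hVZ (pen_dim hc) q) hζ
    have h2 : (ζ ≫ Z.push) ≫ Q.ret ≫ e.p i = 0 := by
      refine e'.toCK.comp_eq_zero _ _ fun j => ?_
      rcases lt_or_ge j (2 * l) with hj | hj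
      · have h3 := h1 j hj
        rw [← Category.assoc, h3, Limits.zero_comp]
      · rw [he' i j (by omega), Limits.comp_zero]
    exact (Category.assoc (ζ ≫ Z.push) Q.ret (e.p i)).trans h2

theorem top_zero (hV : G.Pencils V) {k : G.Fld} {P : Pol (G.th k).C} (hP : V k P) {l : ℤ}
    (hl : P.n ≤ l) (e : CK (G.th k).K P.X) {x : 𝟙_ (G.th k).C ⟶ P.X}
    (hx : x ∈ CH (G.th k).K P.X l) {i : ℤ} (hi : i < 2 * l) : x ≫ e.p i = 0 := by
  rcases lt_or_eq_of_le hl with h | h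
  · rw [(G.th k).D.high P.X l (by rw [hV.dim_eq hP]; exact h) x hx, Limits.zero_comp]
  · refine (G.th k).D.fund P.X _ ?_ (hom_p e (by omega) hx)
    rw [hV.dim_eq hP, h]
    exact (G.th k).K.comp_mem' hx (e.mem i) (add_zero _)

theorem bHigh (hV : G.Pencils V) {n l : ℤ} (hn : 0 < n) (hl : n < 2 * l)
    (h1 : BAt V (n - 1) (l - 1)) (h2 : DAt V (n - 1) (l - 1)) (h3 : BAt V (n - 1) l) :
    BAt V n l := by
  rintro k P hk hP rfl e x hx i hi
  rcases lt_or_ge l P.n with hln | hln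
  swap
  · exact top_zero hV hP hln e.toCK hx hi
  obtain ⟨L, k', B, Z, hL, hk', -, hc, hcls, hVZ, hloc⟩ := hV.pencil hk hP hn
  obtain ⟨e', he'⟩ := B.exists_lck e
  obtain ⟨q, A⟩ := exists_adapted e' Z
  obtain ⟨z, hz⟩ : ∃ z, z = x ≫ e.p i := ⟨_, rfl⟩
  have hzm : z ∈ CH (G.th k).K P.X l := by
    rw [hz]
    exact (G.th k).K.comp_mem' hx (e.mem i) (add_zero _)
  have hz0 : (G.th k).K.H.map z = 0 := by
    rw [hz]
    exact hom_p e.toCK (by omega) hx
  obtain ⟨w, h4, h5⟩ := A.bHigh hc (l := l) hl (has_b h1 hk' hVZ (pen_dim hc) q)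
    (has_d h2 hk' hVZ (pen_dim hc) q) (z := B.cyc z) (B.cyc_mem hzm) (B.cyc_hom hz0)
  obtain ⟨s, hs, -⟩ := e.toCK.exists_finset
  obtain ⟨N, hN⟩ : ∃ N : ℤ, ∀ j, N ≤ j → e.p j = 0 := by
    obtain ⟨M, hM⟩ := s.bddAbove
    refine ⟨M + 1, fun j hj => hs j fun hjs => ?_⟩
    have := hM hjs
    omega
  obtain ⟨w0, hw0, h6, h7⟩ := descent B e hL l N hN (N - (2 * l + 1)).toNat (2 * l + 1)
    (by omega) (by have := Int.self_le_toNat (N - (2 * l + 1)); omega) z hzm w (by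
      intro j hj
      rw [← he']
      exact h5 j hj) (by
      rw [← hcls]
      exact comp_cls h4)
  have h8 := hloc l hl hln (z - w0) (Submodule.sub_mem _ hzm hw0) (by
    rw [B.cyc_sub, h6]
    exact sub_pull h4)
  have h9 : (z - w0) ≫ e.p i = 0 := by
    generalize z - w0 = a at h8
    induction h8 using Submodule.span_induction with
    | mem γ hγ => exact member_zero h3 hl hk e hγ i hi
    | zero => exact Limits.zero_comp
    | add a b _ _ ha hb => rw [Preadditive.add_comp, ha, hb, add_zero]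
    | smul c a _ ha => rw [Linear.smul_comp, ha, smul_zero]
  rw [Preadditive.sub_comp, h7 i (by omega), sub_zero, hz, Category.assoc, e.idem] at h9
  exact h9

end Pool.Agent.LckM
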