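import Pool.Agent.LefCK.PInv
import Pool.Agent.LefCK.PInvE
import Pool.Agent.LefCK.ProdL

/-!
# The explicit product decomposition is a Lefschetz-Chow-Kuenneth decomposition

As `LefCK/ProdH.lean`, with the projectors of the decomposition in the statement.
-/

set_option autoImplicit false

open CategoryTheory MonoidalCategory TensorProduct

universe w v u

namespace Pool.Agent.LckM

open Pool.Agent.LefCK

variable {C : Type u} [Category.{v} C] [Preadditive C] [Linear ℚ C]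
  [MonoidalCategory C] [MonoidalPreadditive C] {F : Type w} [Field F]
  {K : Correspondences C F} {P P' : Pol C}

private theorem prodH_left {X X' : C} (D : CK K X) (D' : CK K X') (L : X ⟶ X) (w : ℤ) :
    prodP D D' w ≫ (leadOp D L ⊗ₘ 𝟙 X') = (leadOp D L ⊗ₘ 𝟙 X') ≫ prodP D D' (w - 2) := by
  classical
  obtain ⟨s, hs, _⟩ := D.exists_finset
  have h1 := prodP_eq D D' w (s ∪ s.image (fun c => c + 2)) (fun i hi => hs i (fun h =>
    hi (Finset.mem_union_left _ h)))
  have h2 := prodP_eq D D' (w - 2) ((s ∪ s.image (fun c => c + 2)).image (fun c => c - 2))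
    (fun i hi => hs i (fun h => hi (by
      rw [Finset.mem_image]
      exact ⟨i + 2, Finset.mem_union_right _ (Finset.mem_image_of_mem _ h), by ring⟩)))
  rw [h1, h2, Finset.sum_image (by intro a _ b _ hab; simpa using hab), Preadditive.sum_comp,
    Preadditive.comp_sum]
  apply Finset.sum_congr rfl
  intro c _
  rw [MonoidalCategory.tensorHom_comp_tensorHom, MonoidalCategory.tensorHom_comp_tensorHom,
    p_leadOp, leadOp_p, Category.comp_id, Category.id_comp]
  have h3 : w - 2 - (c - 2) = w - c := by ring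
  rw [h3]

private theorem prodH_right {X X' : C} (D : CK K X) (D' : CK K X') (L' : X' ⟶ X') (w : ℤ) :
    prodP D D' w ≫ (𝟙 X ⊗ₘ leadOp D' L') = (𝟙 X ⊗ₘ leadOp D' L') ≫ prodP D D' (w - 2) := by
  unfold prodP
  rw [Preadditive.sum_comp, Preadditive.comp_sum]
  apply Finset.sum_congr rfl
  intro c _
  rw [MonoidalCategory.tensorHom_comp_tensorHom, MonoidalCategory.tensorHom_comp_tensorHom,
    Category.comp_id, Category.id_comp]
  have h3 : w - 2 - c = (w - c) - 2 := by ring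
  rw [h3, p_leadOp, leadOp_p]

private theorem prodH_F {X X' : C} (D : CK K X) (D' : CK K X') (L : X ⟶ X) (L' : X' ⟶ X')
    (t : ℚ × ℚ) (w : ℤ) :
    prodF D D' L L' t * (show End (X ⊗ X') from prodP D D' w) =
      (show End (X ⊗ X') from prodP D D' (w - 2)) * prodF D D' L L' t := by
  show prodP D D' w ≫ (t.1 • (leadOp D L ⊗ₘ 𝟙 X') + t.2 • (𝟙 X ⊗ₘ leadOp D' L')) =
    (t.1 • (leadOp D L ⊗ₘ 𝟙 X') + t.2 • (𝟙 X ⊗ₘ leadOp D' L')) ≫ prodP D D' (w - 2)
  rw [Preadditive.comp_add, Preadditive.add_comp, Linear.comp_smul, Linear.comp_smul,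
    Linear.smul_comp, Linear.smul_comp, prodH_left, prodH_right]

private theorem prodH_G {X X' : C} (D : CK K X) (D' : CK K X') (L : X ⟶ X) (L' : X' ⟶ X')
    (l : List (ℚ × ℚ)) (w w' : ℤ) (h : w' = w - 2 * (l.length : ℤ)) :
    (l.map (prodF D D' L L')).prod * (show End (X ⊗ X') from prodP D D' w) =
      (show End (X ⊗ X') from prodP D D' w') * (l.map (prodF D D' L L')).prod := by
  induction l generalizing w' with
  | nil =>
    have h1 : w' = w := by simpa using h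
    subst h1
    simp
  | cons t l ih =>
    rw [List.map_cons, List.prod_cons, mul_assoc, ih (w' + 2) (by
      rw [h, List.length_cons]
      push_cast
      ring), ← mul_assoc, prodH_F]
    have h2 : w' + 2 - 2 = w' := by ring
    rw [h2, mul_assoc]

private theorem prodH_list {P P' : Pol C} {L : P.X ⟶ P.X} {L' : P'.X ⟶ P'.X}
    (l : List (ℕ × (P.X ⊗ P'.X ⟶ P.X ⊗ P'.X)))
    (hl : ∀ a ∈ l, 0 < a.1 ∧ a.2 ∈ (prodPol P P' L L').L a.1) :
    ∃ l' : List (ℚ × ℚ), (∀ t ∈ l', 0 < t.1 ∧ 0 < t.2) ∧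
      l = l'.map (fun t => ((1 : ℕ), t.1 • (L ⊗ₘ 𝟙 P'.X) + t.2 • (𝟙 P.X ⊗ₘ L'))) := by
  induction l with
  | nil => exact ⟨[], by simp, rfl⟩
  | cons a l ih =>
    obtain ⟨l', h1, h2⟩ := ih (fun b hb => hl b (List.mem_cons_of_mem _ hb))
    obtain ⟨c, g⟩ := a
    obtain ⟨ha1, ha2⟩ := hl (c, g) (by simp)
    rcases ha2 with ⟨h3, _⟩ | ⟨h3, a, b, ha, hb, h4⟩
    · simp only at ha1 h3
      omega
    · simp only at h3 h4
      refine ⟨(a, b) :: l', ?_, ?_⟩
      · intro t ht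
        rcases List.mem_cons.1 ht with rfl | ht
        · exact ⟨ha, hb⟩
        · exact h1 t ht
      · rw [List.map_cons, ← h2, h3, h4]

private theorem prodH_total {X : C} (l : List (ℚ × ℚ)) (f : ℚ × ℚ → (X ⟶ X)) :
    total (l.map (fun t => ((1 : ℕ), f t))) = (l.length : ℤ) := by
  induction l with
  | nil => simp
  | cons t l ih =>
    rw [List.map_cons, total_cons, ih, List.length_cons]
    push_cast
    ring

private theorem prodH_T {P P' : Pol C} (e : LCK K P) (e' : LCK K P') (N N' : ℕ)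
    (U : ℕ → ℕ → ℕ → End P.X) (U' : ℕ → ℕ → ℕ → End P'.X)
    (hN : ∀ i : ℤ, (N : ℤ) < |i| → e.p (P.n + i) = 0)
    (U5 : ∀ i a b : ℕ, a ≤ i → b ≤ i →
        (show End P.X from e.p (P.n + ((i : ℤ) - 2 * a))) * U i a b = U i a b)
    (U5' : ∀ i a b : ℕ, a ≤ i → b ≤ i →
        (show End P'.X from e'.p (P'.n + ((i : ℤ) - 2 * a))) * U' i a b = U' i a b)
    (U6 : ∑ i ∈ Finset.range (N + 1), ∑ a ∈ Finset.range (i + 1), U i a a = 1)
    (U6' : ∑ i ∈ Finset.range (N' + 1), ∑ a ∈ Finset.range (i + 1), U' i a a = 1) (w : ℤ) :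
    prodT (R := End P.X) (R' := End P'.X) (B := End (P.X ⊗ P'.X))
      (fun x y => (show P.X ⟶ P.X from x) ⊗ₘ (show P'.X ⟶ P'.X from y)) N N' U U' w =
      (show End (P.X ⊗ P'.X) from prodP e.toCK e'.toCK (P.n + P'.n + w)) := by
  classical
  have h1 := prodT_eq (R := End P.X) (R' := End P'.X) (B := End (P.X ⊗ P'.X))
    (fun x y => (show P.X ⟶ P.X from x) ⊗ₘ (show P'.X ⟶ P'.X from y))
    (fun x y z => MonoidalPreadditive.add_tensor _ _ _)
    (fun x y z => MonoidalPreadditive.tensor_add _ _ _)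
    (fun x y x' y' => MonoidalCategory.tensorHom_comp_tensorHom _ _ _ _)
    (MonoidalCategory.id_tensorHom_id _ _)
    (fun c => (show End P.X from e.p (P.n + c))) (fun c => (show End P'.X from e'.p (P'.n + c)))
    N N' U U' (fun i j hij => e.orth _ _ (by omega)) (fun i j hij => e'.orth _ _ (by omega))
    U5 U5' U6 U6' (Finset.Icc (-(N : ℤ)) N) (le_refl _) w
  rw [← h1]
  have h2 := prodP_eq e.toCK e'.toCK (P.n + P'.n + w)
    ((Finset.Icc (-(N : ℤ)) N).image (fun c => P.n + c)) (by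
      intro i hi
      have h3 : e.p (P.n + (i - P.n)) = 0 := by
        apply hN
        by_contra h4
        apply hi
        rw [Finset.mem_image]
        refine ⟨i - P.n, ?_, by ring⟩
        rw [Finset.mem_Icc]
        exact abs_le.1 (not_lt.1 h4)
      have h5 : P.n + (i - P.n) = i := by ring
      rwa [h5] at h3)
  rw [Finset.sum_image (by intro a _ b _ hab; simpa using hab)] at h2
  refine Eq.trans ?_ h2.symm
  apply Finset.sum_congr rfl
  intro c _
  have h6 : P.n + P'.n + w - (P.n + c) = P'.n + (w - c) := by ring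
  rw [h6]

private theorem prodH_hard {P P' : Pol C} (e : LCK K P) (e' : LCK K P') {L : P.X ⟶ P.X}
    {L' : P'.X ⟶ P'.X} (hL : L ∈ P.L 1) (hL' : L' ∈ P'.L 1) (E : CK K (P.X ⊗ P'.X))
    (hE : ∀ w, E.p w = prodP e.toCK e'.toCK w)
    (l : List (ℕ × (P.X ⊗ P'.X ⟶ P.X ⊗ P'.X)))
    (hl : ∀ a ∈ l, 0 < a.1 ∧ a.2 ∈ (prodPol P P' L L').L a.1) :
    ∃ G ∈ K.deg (P.X ⊗ P'.X) (P.X ⊗ P'.X) (-total l),
      lead E.p (P.n + P'.n + total l) l ≫ G = E.p (P.n + P'.n + total l) ∧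
      G ≫ lead E.p (P.n + P'.n + total l) l = E.p (P.n + P'.n - total l) := by
  obtain ⟨l', hl', rfl⟩ := prodH_list l hl
  obtain ⟨N, U, hN, U1, U2, U5, U3, U4, U6⟩ := exists_units e L hL
  obtain ⟨N', U', hN', U1', U2', U5', U3', U4', U6'⟩ := exists_units e' L' hL'
  have hEp : E.p = prodP e.toCK e'.toCK := funext hE
  obtain ⟨k, hk, hk1, hk2⟩ := prodInv (R := End P.X) (R' := End P'.X) (B := End (P.X ⊗ P'.X))
    (fun x y => (show P.X ⟶ P.X from x) ⊗ₘ (show P'.X ⟶ P'.X from y))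
    (fun x y z => MonoidalPreadditive.add_tensor _ _ _)
    (fun x y z => MonoidalPreadditive.tensor_add _ _ _)
    (fun x y x' y' => MonoidalCategory.tensorHom_comp_tensorHom _ _ _ _)
    (MonoidalCategory.id_tensorHom_id _ _)
    (fun d => (K.deg P.X P.X d).toAddSubgroup) (fun d => (K.deg P'.X P'.X d).toAddSubgroup)
    (fun d => K.deg (P.X ⊗ P'.X) (P.X ⊗ P'.X) d)
    (fun d e x y hx hy => K.tensor_mem hx hy)
    (show End P.X from leadOp e.toCK L) (show End P'.X from leadOp e'.toCK L') N N' U U'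
    U1 U2 U3 U4 U1' U2' U3' U4' l' hl'
  rw [prodH_T e e' N N' U U' hN U5 U5' U6 U6'] at hk1
  rw [prodH_T e e' N N' U U' hN U5 U5' U6 U6'] at hk2
  have hlead := lead_prod e.toCK e'.toCK L L' l' (P.n + P'.n + (l'.length : ℤ))
  have htot : total (l'.map (fun t => ((1 : ℕ), t.1 • (L ⊗ₘ 𝟙 P'.X) + t.2 • (𝟙 P.X ⊗ₘ L')))) =
      (l'.length : ℤ) := prodH_total l' _
  rw [htot, hEp]
  have hGT := prodH_G e.toCK e'.toCK L L' l' (P.n + P'.n + (l'.length : ℤ))
    (P.n + P'.n + -(l'.length : ℤ)) (by ring)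
  have hidem : ∀ w, (show End (P.X ⊗ P'.X) from prodP e.toCK e'.toCK w) *
      (show End (P.X ⊗ P'.X) from prodP e.toCK e'.toCK w) =
      (show End (P.X ⊗ P'.X) from prodP e.toCK e'.toCK w) := by
    intro w
    have h1 := E.idem w
    rw [hE w] at h1
    exact h1
  have hmem : ∀ w, prodP e.toCK e'.toCK w ∈ K.deg (P.X ⊗ P'.X) (P.X ⊗ P'.X) 0 := by
    intro w
    rw [← hE w]
    exact E.mem w
  have hk1' : k * (l'.map (prodF e.toCK e'.toCK L L')).prod *
      (show End (P.X ⊗ P'.X) from prodP e.toCK e'.toCK (P.n + P'.n + (l'.length : ℤ))) =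
      (show End (P.X ⊗ P'.X) from prodP e.toCK e'.toCK (P.n + P'.n + (l'.length : ℤ))) := hk1
  have hk2' : (l'.map (prodF e.toCK e'.toCK L L')).prod * k *
      (show End (P.X ⊗ P'.X) from prodP e.toCK e'.toCK (P.n + P'.n + -(l'.length : ℤ))) =
      (show End (P.X ⊗ P'.X) from prodP e.toCK e'.toCK (P.n + P'.n + -(l'.length : ℤ))) := hk2
  have hminus : P.n + P'.n - (l'.length : ℤ) = P.n + P'.n + -(l'.length : ℤ) := by ring
  rw [hminus]
  have hi1 := hidem (P.n + P'.n + (l'.length : ℤ))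
  have hi2 := hidem (P.n + P'.n + -(l'.length : ℤ))
  generalize hT1 : (show End (P.X ⊗ P'.X) from
    prodP e.toCK e'.toCK (P.n + P'.n + (l'.length : ℤ))) = T1 at *
  generalize hT2 : (show End (P.X ⊗ P'.X) from
    prodP e.toCK e'.toCK (P.n + P'.n + -(l'.length : ℤ))) = T2 at *
  generalize hG : (l'.map (prodF e.toCK e'.toCK L L')).prod = G at *
  have hmT1 : (T1 : P.X ⊗ P'.X ⟶ P.X ⊗ P'.X) ∈ K.deg (P.X ⊗ P'.X) (P.X ⊗ P'.X) 0 :=
    hT1 ▸ hmem _
  have hmT2 : (T2 : P.X ⊗ P'.X ⟶ P.X ⊗ P'.X) ∈ K.deg (P.X ⊗ P'.X) (P.X ⊗ P'.X) 0 :=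
    hT2 ▸ hmem _
  refine ⟨(T1 * k * T2 : End (P.X ⊗ P'.X)), ?_, ?_, ?_⟩
  · exact K.comp_mem' hmT2 (K.comp_mem hk hmT1) (by ring)
  · have h1 : (T1 * k * T2) * (G * T1) = T1 := by
      rw [hGT, mul_assoc (T1 * k), ← mul_assoc T2 T2, hi2, ← hGT, mul_assoc T1 k,
        ← mul_assoc k G, hk1', hi1]
    exact (congrArg (fun t : End (P.X ⊗ P'.X) => (T1 * k * T2) * t) hlead).trans (h1.trans hT1.symm)
  · have h1 : (G * T1) * (T1 * k * T2) = T2 := by
      rw [mul_assoc T1 k T2, ← mul_assoc (G * T1) T1, mul_assoc G T1 T1, hi1, hGT, mul_assoc T2 G,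
        ← mul_assoc G k, hk2', hi2]
    exact (congrArg (fun t : End (P.X ⊗ P'.X) => t * (T1 * k * T2)) hlead).trans (h1.trans hT2.symm)

theorem product_ex (e : LCK K P) (e' : LCK K P') {L : P.X ⟶ P.X} {L' : P'.X ⟶ P'.X}
    (hL : L ∈ P.L 1) (hL' : L' ∈ P'.L 1) :
    ∃ E : LCK K (prodPol P P' L L'), ∀ w, E.p w = prodP e.toCK e'.toCK w := by
  obtain ⟨E, hE⟩ := exists_prodCK e.toCK e'.toCK
  refine ⟨⟨E, ?_, ?_, ?_⟩, hE⟩
  · intro c g hg
    exact prodPol_mem e e' hL hL' c g hg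
  · intro c g hg i j hij
    rw [hE, hE]
    exact prodPol_nonneg e e' hL hL' c g hg i j hij
  · intro l _ hl
    exact prodH_hard e e' hL hL' E hE l hl

end Pool.Agent.LckM
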