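import Pool.Agent.LckM.Dual
import Pool.Agent.LckM.ProdH

/-!
# (B) and (D) for the products: correspondences do not lower the weights
-/

set_option autoImplicit false

open CategoryTheory MonoidalCategory
open Pool.Agent.LefCK

universe w v u

namespace Pool.Agent.LckM

variable {C : Type u} [Category.{v} C] [Preadditive C] [Linear ℚ C]
  [MonoidalCategory C] [MonoidalPreadditive C] {F : Type w} [Field F]
  {K : Correspondences C F} {D : Divisors K} {P P' : Pol C}

/-- (B) and (D) for the product decomposition of `Pᵗ × P'`: correspondences from `P.X` to `P'.X` do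
not lower the weights, and those which preserve the weights are determined by their action on the
homology. -/
theorem hom_zero (T : Duality K D) (e : LCK K P) (e' : LCK K P') (hn : D.dim P.X = P.n)
    {L : P.X ⟶ P.X} (hL : L ∈ (T.pol P).L 1) {L' : P'.X ⟶ P'.X} (hL' : L' ∈ P'.L 1)
    (hB : ∀ (E : LCK K (prodPol (T.pol P) P' L L')) (l : ℤ), E.MurreB l)
    (hD : ∀ (E : LCK K (prodPol (T.pol P) P' L L')) (l : ℤ), E.MurreD l)
    {d : ℤ} {f : P.X ⟶ P'.X} (hf : f ∈ K.deg P.X P'.X d) :
    (∀ i j : ℤ, i < j - 2 * d → e.p j ≫ f ≫ e'.p i = 0) ∧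
      ∀ i j : ℤ, i = j - 2 * d → K.H.map (e.p j ≫ f ≫ e'.p i) = 0 → e.p j ≫ f ≫ e'.p i = 0 := by
  obtain ⟨e1, he1⟩ := T.exists_dual e hn
  obtain ⟨E, hE⟩ := product_ex e1 e' hL hL'
  have hg : ∀ (g : P.X ⟶ P'.X) (i j : ℤ), T.graph (e.p j ≫ g ≫ e'.p i) =
      (T.graph g ≫ E.p (2 * P.n - j + i)) ≫ (e1.p (2 * P.n - j) ⊗ₘ e'.p i) := by
    intro g i j
    have h1 := prodP_comp_pure e1.toCK e'.toCK (2 * P.n - j) i (2 * P.n - j + i)
    rw [if_pos rfl] at h1
    have h2 : T.t (e.p j) = e1.p (2 * P.n - j) := by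
      rw [he1, Duality.tp, sub_sub_cancel]
    rw [T.graph_comp, h2, hE]
    exact (congrArg (fun t => T.graph g ≫ t) h1).symm.trans (Category.assoc _ _ _).symm
  constructor
  · intro i j hij
    apply T.graph_inj
    have h1 : T.graph f ≫ E.p (2 * P.n - j + i) = 0 := by
      refine hB E (P.n - d) (T.graph f) ?_ _ (by omega)
      rw [← hn]
      exact T.graph_mem hf
    rw [hg, h1]
    exact Limits.zero_comp
  · intro i j hij h0
    obtain ⟨g, hgd⟩ : ∃ g, g = e.p j ≫ f ≫ e'.p i := ⟨_, rfl⟩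
    have hgm : g ∈ K.deg P.X P'.X d := by
      rw [hgd]
      exact K.comp_mem' (e.mem j) (K.comp_mem hf (e'.mem i)) (by ring)
    have hgg : e.p j ≫ g ≫ e'.p i = g := by
      rw [hgd]
      simp only [Category.assoc]
      rw [e'.idem, ← Category.assoc, e.idem]
    rw [← hgd] at h0 ⊢
    apply T.graph_inj
    have h1 : T.graph g ≫ E.p (2 * P.n - j + i) = 0 := by
      have h2 : 2 * P.n - j + i = 2 * (P.n - d) := by omega
      rw [h2]
      refine hD E (P.n - d) (T.graph g) ?_ (T.graph_hom g h0)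
      rw [← hn]
      exact T.graph_mem hgm
    rw [← hgg, hg, h1]
    exact Limits.zero_comp

end Pool.Agent.LckM
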