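import Pool.Agent.LckM.Prod

/-!
# (B) and (D) for the product of two Chow-Kuenneth decompositions
-/

set_option autoImplicit false

open CategoryTheory MonoidalCategory
open Pool.Agent.LefCK

universe w v u

namespace Pool.Agent.LckM

variable {C : Type u} [Category.{v} C] [Preadditive C] [Linear ℚ C]
  [MonoidalCategory C] {F : Type w} [Field F]
  {K : Correspondences C F} {D : Divisors K}

/-- the transposed Chow-Kuenneth decomposition -/
theorem Duality.exists_ck (T : Duality K D) {X : C} (e : CK K X) :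
    ∃ E : CK K X, ∀ i, E.p i = T.t (e.p (2 * D.dim X - i)) := by
  classical
  obtain ⟨s, hs0, hs1⟩ := e.exists_finset
  refine ⟨CK.ofFinset (s.image fun i => 2 * D.dim X - i) (fun i => T.t (e.p (2 * D.dim X - i)))
    ?_ (fun i => T.t_mem0 (e.mem _)) (fun i => ?_) (fun i j hij => ?_) ?_ ?_, fun i => rfl⟩
  · intro i hi
    show T.t (e.p (2 * D.dim X - i)) = 0
    rw [hs0, map_zero]
    intro h
    apply hi
    rw [Finset.mem_image]
    exact ⟨2 * D.dim X - i, h, by ring⟩
  · rw [← T.t_comp, e.idem]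
  · rw [← T.t_comp, e.orth _ _ (by omega), map_zero]
  · rw [Finset.sum_image (by
      intro a _ b _ hab
      simpa using hab)]
    have h1 : ∀ i ∈ s, T.t (e.p (2 * D.dim X - (2 * D.dim X - i))) = T.t (e.p i) := by
      intro i _
      rw [sub_sub_cancel]
    rw [Finset.sum_congr rfl h1, ← map_sum, hs1, T.t_id]
  · intro i j x hx
    have h1 : ∀ y ∈ K.gr X (2 * D.dim X - j), (K.H.map (e.p (2 * D.dim X - i))).hom y =
        (if j = i then (1 : F) else 0) • y := by
      intro y hy
      rw [e.homology _ _ y hy]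
      by_cases h : j = i
      · rw [if_pos (by omega), if_pos h, one_smul]
      · rw [if_neg (by omega), if_neg h, zero_smul]
    have h2 := T.t_act (e.mem (2 * D.dim X - i)) (2 * D.dim X - j) _ h1 x (by
      rw [sub_sub_cancel]
      exact hx)
    show (K.H.map (T.t (e.p (2 * D.dim X - i)))).hom x = _
    rw [h2]
    split_ifs
    · rw [one_smul]
    · rw [zero_smul]

variable [MonoidalPreadditive C]

/-- **the product of the transpose of `e` and of `e'`**: (B) means that correspondences do not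
lower the weights, (D) that those which preserve the weights are determined by their action on the
homology. -/
theorem Duality.exists_prod (T : Duality K D) {X Y : C} (e : CK K X) (e' : CK K Y) :
    ∃ q : CK K (X ⊗ Y),
      ((∀ l, q.MurreB l) → ∀ {d : ℤ} {f : X ⟶ Y}, f ∈ K.deg X Y d → ∀ i j : ℤ,
        i < j - 2 * d → e.p j ≫ f ≫ e'.p i = 0) ∧
      ((∀ l, q.MurreD l) → ∀ {d : ℤ} {f : X ⟶ Y}, f ∈ K.deg X Y d → ∀ i j : ℤ,
        i = j - 2 * d → K.H.map (e.p j ≫ f ≫ e'.p i) = 0 → e.p j ≫ f ≫ e'.p i = 0) := by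
  obtain ⟨e1, he1⟩ := T.exists_ck e
  obtain ⟨E, hE⟩ := exists_prodCK e1 e'
  have hg : ∀ (g : X ⟶ Y) (i j : ℤ), T.graph (e.p j ≫ g ≫ e'.p i) =
      (T.graph g ≫ E.p (2 * D.dim X - j + i)) ≫ (e1.p (2 * D.dim X - j) ⊗ₘ e'.p i) := by
    intro g i j
    have h1 := prodP_comp_pure e1 e' (2 * D.dim X - j) i (2 * D.dim X - j + i)
    rw [if_pos rfl] at h1
    have h2 : T.t (e.p j) = e1.p (2 * D.dim X - j) := by
      rw [he1, sub_sub_cancel]
    rw [T.graph_comp, h2, hE, Category.assoc, h1]
  refine ⟨E, fun hB => ?_, fun hD => ?_⟩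
  · intro d f hf i j hij
    apply T.graph_inj
    have h1 : T.graph f ≫ E.p (2 * D.dim X - j + i) = 0 :=
      hB (D.dim X - d) (T.graph f) (T.graph_mem hf) _ (by omega)
    rw [hg, h1, Limits.zero_comp]
  · intro d f hf i j hij h0
    obtain ⟨g, hgd⟩ : ∃ g, g = e.p j ≫ f ≫ e'.p i := ⟨_, rfl⟩
    have hgm : g ∈ K.deg X Y d := by
      rw [hgd]
      exact K.comp_mem' (e.mem j) (K.comp_mem hf (e'.mem i)) (by ring)
    have hgg : e.p j ≫ g ≫ e'.p i = g := by
      rw [hgd]
      simp only [Category.assoc]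
      rw [e'.idem, ← Category.assoc, e.idem]
    rw [← hgd] at h0 ⊢
    apply T.graph_inj
    have h1 : T.graph g ≫ E.p (2 * D.dim X - j + i) = 0 := by
      have h2 : 2 * D.dim X - j + i = 2 * (D.dim X - d) := by omega
      rw [h2]
      exact hD (D.dim X - d) (T.graph g) (T.graph_mem hgm) (T.graph_hom g h0)
    rw [← hgg, hg, h1, Limits.zero_comp]

/-- a homologically trivial correspondence of degree `d` raises `weight + 2d` by at least 1 -/
theorem Duality.exists_raise (T : Duality K D) {X Y : C} (e : CK K X) (e' : CK K Y) :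
    ∃ q : CK K (X ⊗ Y), (∀ l, q.MurreB l) → (∀ l, q.MurreD l) → ∀ {d : ℤ} {f : X ⟶ Y},
      f ∈ K.deg X Y d → K.H.map f = 0 → ∀ i j : ℤ, i ≤ j - 2 * d → e.p j ≫ f ≫ e'.p i = 0 := by
  obtain ⟨q, h1, h2⟩ := T.exists_prod e e'
  refine ⟨q, fun hB hD d f hf h0 i j hij => ?_⟩
  rcases lt_or_eq_of_le hij with h | h
  · exact h1 hB hf i j h
  · refine h2 hD hf i j h ?_
    rw [K.H.map_comp, K.H.map_comp, h0, Limits.zero_comp, Limits.comp_zero]

end Pool.Agent.LckM
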